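import Pool.Agent.Helper9.TP.Defs
import Pool.Agent.Helper67.CQ.Z2

/-!
# Trinomial pencils: a common invariant direction is rational over the finite field
-/

set_option autoImplicit false

namespace Pool.Agent.Helper79.TP

open Pool.Agent.Helper9.TP
open Pool.Agent.Helper71.CP (ev ev_map)

section

variable {K : Type} [Field K]

theorem InvP.add {F : MvPolynomial (Fin 3) K} {v w : Fin 3 → K} (hv : InvP F v)
    (hw : InvP F w) : InvP F (v + w) := by
  intro R _ _ x y z t
  have h1 := hv R (x + t * algebraMap K R (w 0)) (y + t * algebraMap K R (w 1))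
    (z + t * algebraMap K R (w 2)) t
  rw [hw R x y z t] at h1
  rw [← h1]
  simp only [Pi.add_apply, map_add]
  congr 1 <;> ring

theorem InvP.smul {F : MvPolynomial (Fin 3) K} {v : Fin 3 → K} (hv : InvP F v) (a : K) :
    InvP F (a • v) := by
  intro R _ _ x y z t
  have h1 := hv R x y z (t * algebraMap K R a)
  rw [← h1]
  simp only [Pi.smul_apply, smul_eq_mul, map_mul]
  congr 1 <;> ring

end

section

variable {k K : Type} [Field k] [Field K] [Algebra k K]

theorem ev_base (F : MvPolynomial (Fin 3) k) (R : Type) [CommRing R] [Algebra K R] (x y z : R) :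
    ev (MvPolynomial.map (algebraMap k K) F) x y z =
      F.eval₂ ((algebraMap K R).comp (algebraMap k K)) ![x, y, z] := by
  unfold ev
  rw [MvPolynomial.aeval_def, MvPolynomial.eval₂_map]

theorem InvP.frob [Fintype k] {F : MvPolynomial (Fin 3) k} {v : Fin 3 → K}
    (hv : InvP (MvPolynomial.map (algebraMap k K) F) v) :
    InvP (MvPolynomial.map (algebraMap k K) F) fun i => v i ^ Fintype.card k := by
  intro R _ _ x y z t
  have h1 := @hv R _ ((algebraMap K R).comp
    (FiniteField.frobeniusAlgHom k K : K →ₐ[k] K).toRingHom).toAlgebra x y z t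
  rw [@ev_base k K _ _ _ F R _ ((algebraMap K R).comp
    (FiniteField.frobeniusAlgHom k K : K →ₐ[k] K).toRingHom).toAlgebra,
    @ev_base k K _ _ _ F R _ ((algebraMap K R).comp
    (FiniteField.frobeniusAlgHom k K : K →ₐ[k] K).toRingHom).toAlgebra] at h1
  have h2 : (@algebraMap K R _ _ ((algebraMap K R).comp
      (FiniteField.frobeniusAlgHom k K : K →ₐ[k] K).toRingHom).toAlgebra).comp (algebraMap k K) =
      (algebraMap K R).comp (algebraMap k K) := by
    ext a
    change algebraMap K R ((FiniteField.frobeniusAlgHom k K) (algebraMap k K a)) = _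
    rw [AlgHom.commutes]
    rfl
  rw [h2] at h1
  rw [ev_base, ev_base]
  exact h1

theorem InvP.descend {F : MvPolynomial (Fin 3) k} {u : Fin 3 → k}
    (h : InvP (MvPolynomial.map (algebraMap k K) F) fun i => algebraMap k K (u i)) :
    InvP F u := by
  intro R _ _ x y z t
  let X : Fin 4 → MvPolynomial (Fin 4) k := fun i => MvPolynomial.X i
  let Y : Fin 4 → MvPolynomial (Fin 4) K := fun i => MvPolynomial.X i
  let ψ : MvPolynomial (Fin 4) k →+* MvPolynomial (Fin 4) K :=
    MvPolynomial.map (algebraMap k K)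
  have hψ : ∀ a b c : MvPolynomial (Fin 4) k, ψ (ev F a b c) =
      ev (MvPolynomial.map (algebraMap k K) F) (ψ a) (ψ b) (ψ c) := by
    intro a b c
    rw [ev_base]
    unfold ev
    rw [MvPolynomial.aeval_def, MvPolynomial.eval₂_comp_left]
    have e1 : ψ.comp (algebraMap k (MvPolynomial (Fin 4) k)) =
        (algebraMap K (MvPolynomial (Fin 4) K)).comp (algebraMap k K) := by
      ext1 r
      exact MvPolynomial.map_C _ _
    have e2 : (ψ ∘ ![a, b, c] : Fin 3 → MvPolynomial (Fin 4) K) = ![ψ a, ψ b, ψ c] := by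
      funext i
      fin_cases i <;> rfl
    rw [e1, e2]
  have hX : ∀ i, ψ (X i) = Y i := fun i => MvPolynomial.map_X _ _
  have hC : ∀ a : k, ψ (algebraMap k _ a) = algebraMap K _ (algebraMap k K a) := fun a =>
    MvPolynomial.map_C _ _
  have h1 : ev F (X 0 + X 3 * algebraMap k _ (u 0)) (X 1 + X 3 * algebraMap k _ (u 1))
      (X 2 + X 3 * algebraMap k _ (u 2)) = ev F (X 0) (X 1) (X 2) := by
    apply MvPolynomial.map_injective (σ := Fin 4) (algebraMap k K) (algebraMap k K).injective
    have h2 := h (MvPolynomial (Fin 4) K) (Y 0) (Y 1) (Y 2) (Y 3)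
    change ψ _ = ψ _
    rw [hψ, hψ, map_add, map_add, map_add, map_mul, map_mul, map_mul, hX, hX, hX, hX, hC, hC, hC]
    exact h2
  let φ : MvPolynomial (Fin 4) k →ₐ[k] R := MvPolynomial.aeval ![x, y, z, t]
  have h3 := congrArg φ h1
  have f0 : φ (X 0) = x := MvPolynomial.aeval_X _ 0
  have f1 : φ (X 1) = y := MvPolynomial.aeval_X _ 1
  have f2 : φ (X 2) = z := MvPolynomial.aeval_X _ 2
  have f3 : φ (X 3) = t := MvPolynomial.aeval_X _ 3
  rw [ev_map, ev_map, map_add, map_add, map_add, map_mul, map_mul, map_mul, AlgHom.commutes,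
    AlgHom.commutes, AlgHom.commutes, f0, f1, f2, f3] at h3
  exact h3

/-- **(G4)** A common invariant direction is rational over the finite field. -/
theorem desc [Finite k] (S : Set (MvPolynomial (Fin 3) k)) (v : Fin 3 → K) (hv : v ≠ 0)
    (h : ∀ F ∈ S, InvP (MvPolynomial.map (algebraMap k K) F) v) :
    ∃ u : Fin 3 → k, u ≠ 0 ∧ ∀ F ∈ S, InvP F u := by
  classical
  have := Fintype.ofFinite k
  -- a vector of minimal support
  let T : (Fin 3 → K) → Prop := fun w => w ≠ 0 ∧
    ∀ F ∈ S, InvP (MvPolynomial.map (algebraMap k K) F) w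
  let N : (Fin 3 → K) → ℕ := fun w => (Finset.univ.filter fun i => w i ≠ 0).card
  obtain ⟨w, hw, hmin⟩ : ∃ w, T w ∧ ∀ w', T w' → N w ≤ N w' := by
    have hex : ∃ n, ∃ w, T w ∧ N w = n := ⟨N v, v, ⟨hv, h⟩, rfl⟩
    obtain ⟨w, hw, hn⟩ := Nat.find_spec hex
    exact ⟨w, hw, fun w' hw' => hn ▸ Nat.find_min' hex ⟨w', hw', rfl⟩⟩
  obtain ⟨hw0, hw1⟩ := hw
  obtain ⟨i₀, hi₀⟩ : ∃ i, w i ≠ 0 := by
    by_contra hcon
    push Not at hcon
    exact hw0 (funext hcon)
  -- normalise
  set w₁ : Fin 3 → K := (w i₀)⁻¹ • w with hw₁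
  have h1 : ∀ F ∈ S, InvP (MvPolynomial.map (algebraMap k K) F) w₁ := fun F hF =>
    InvP.smul (hw1 F hF) _
  have h3 : w₁ i₀ = 1 := by
    rw [hw₁, Pi.smul_apply, smul_eq_mul, inv_mul_cancel₀ hi₀]
  have hsupp : ∀ i, w i = 0 → w₁ i = 0 := by
    intro i hi
    rw [hw₁, Pi.smul_apply, hi, smul_zero]
  have hcard : Fintype.card k ≠ 0 := Fintype.card_ne_zero
  -- the difference
  set d : Fin 3 → K := (fun i => w₁ i ^ Fintype.card k) + (-1 : K) • w₁ with hd
  have hdi : ∀ i, d i = w₁ i ^ Fintype.card k - w₁ i := by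
    intro i
    rw [hd, Pi.add_apply, Pi.smul_apply, smul_eq_mul]
    ring
  have hd0 : d = 0 := by
    by_contra hne
    have h4 := hmin d ⟨hne, fun F hF =>
      InvP.add (InvP.frob (h1 F hF)) (InvP.smul (h1 F hF) (-1))⟩
    have h5 : N d < N w := by
      apply Finset.card_lt_card
      rw [Finset.ssubset_iff_of_subset]
      · refine ⟨i₀, ?_, ?_⟩
        · simpa using hi₀
        · simp [hdi, h3]
      · intro i hi
        simp only [Finset.mem_filter, Finset.mem_univ, true_and] at hi ⊢
        intro hwi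
        apply hi
        rw [hdi, hsupp i hwi, zero_pow hcard, sub_zero]
    exact absurd h5 (not_lt.2 h4)
  have h6 : ∀ i, ∃ a : k, algebraMap k K a = w₁ i := by
    intro i
    apply Pool.Agent.Helper67.CQ.root_mem
    have h7 := congrFun hd0 i
    rw [hdi, Pi.zero_apply, sub_eq_zero] at h7
    exact h7
  choose u hu using h6
  have hu' : (fun i => algebraMap k K (u i)) = w₁ := funext hu
  refine ⟨u, ?_, fun F hF => InvP.descend (hu' ▸ h1 F hF)⟩
  rintro rfl
  have h7 := hu i₀
  rw [h3, Pi.zero_apply, map_zero] at h7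
  exact zero_ne_one h7

end

end Pool.Agent.Helper79.TP
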