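import Pool.Agent.Helper79.TP.One2

/-!
# Weighted forms of degree at most six with the weights 2, 3, 1
-/

set_option autoImplicit false

namespace Pool.Agent.Helper79.TP

open Pool.Agent.Helper29.CQ Pool.Agent.Helper65.CC Pool.Agent.Helper87.CC
  Pool.Agent.Helper65.CC.KFn
open Pool.Agent.Helper9.QP (A4)
open Pool.Agent.Helper9.TP (NoV TS ChgW)
open Pool.Agent.Helper71.CP (ev ev_map ev_mul ev_pow ev_add ev_C ev_X ev_aeval wt CW)
open MvPolynomial (IsWeightedHomogeneous rename C X monomial aeval)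

section small

variable {k : Type} [Field k]

theorem weight3 (w : Fin 3 → ℕ) (m : Fin 3 →₀ ℕ) :
    Finsupp.weight w m = m 0 * w 0 + m 1 * w 1 + m 2 * w 2 := by
  rw [Finsupp.weight_apply, Finsupp.sum_fintype _ _ (fun i => by simp), Fin.sum_univ_three]
  rfl

/-- substitutions of weighted homogeneous polynomials -/
theorem wh_subst {σ τ : Type} [Fintype σ] {w : σ → ℕ} {w' : τ → ℕ} {F : MvPolynomial σ k} {d : ℕ}
    (hF : IsWeightedHomogeneous w F d) {t : σ → MvPolynomial τ k}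
    (ht : ∀ i, IsWeightedHomogeneous w' (t i) (w i)) :
    IsWeightedHomogeneous w' (aeval t F) d := by
  rw [MvPolynomial.aeval_def, MvPolynomial.eval₂_eq']
  refine IsWeightedHomogeneous.sum _ _ _ fun m hm => ?_
  have h1 := hF (MvPolynomial.mem_support_iff.1 hm)
  rw [Finsupp.weight_apply, Finsupp.sum_fintype _ _ (fun i => by simp)] at h1
  rw [MvPolynomial.algebraMap_eq, ← h1]
  refine IsWeightedHomogeneous.C_mul ?_ _
  exact IsWeightedHomogeneous.prod _ _ _ fun i _ => by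
    have h2 := (ht i).pow (m i)
    exact h2

theorem wh_rename {σ τ : Type} [Fintype σ] {w : σ → ℕ} {w' : τ → ℕ} {F : MvPolynomial σ k} {d : ℕ}
    (hF : IsWeightedHomogeneous w F d) {j : σ → τ} (hj : ∀ i, w' (j i) = w i) :
    IsWeightedHomogeneous w' (rename j F) d := by
  have h1 : IsWeightedHomogeneous w' (aeval (fun i => (X (j i) : MvPolynomial τ k)) F) d := by
    refine wh_subst hF fun i => ?_
    rw [← hj i]
    exact MvPolynomial.isWeightedHomogeneous_X k w' (j i)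
  have h2 : aeval (fun i => (X (j i) : MvPolynomial τ k)) F = rename j F := by
    have h3 : (aeval (fun i => (X (j i) : MvPolynomial τ k)) :
        MvPolynomial σ k →ₐ[k] MvPolynomial τ k) = rename j := by
      apply MvPolynomial.algHom_ext
      intro i
      rw [MvPolynomial.aeval_X, MvPolynomial.rename_X]
    exact DFunLike.congr_fun h3 F
  rw [← h2]
  exact h1

theorem wh_map {σ : Type} {w : σ → ℕ} {F : MvPolynomial σ k} {d : ℕ}
    (hF : IsWeightedHomogeneous w F d) {K : Type} [Field K] (f : k →+* K) :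
    IsWeightedHomogeneous w (MvPolynomial.map f F) d := by
  intro m hm
  apply hF
  intro h0
  apply hm
  rw [MvPolynomial.coeff_map, h0, map_zero]

theorem wh_jj6 {A : MvPolynomial (Fin 2) k} {d : ℕ} (hA : IsWeightedHomogeneous ![2, 1] A d) :
    IsWeightedHomogeneous ![2, 3, 1] (rename jj A) d :=
  wh_rename hA fun i => by fin_cases i <;> rfl

/-- **(a)** the decomposition of weighted forms -/
theorem exists_dec6 {F : MvPolynomial (Fin 3) k} {d : ℕ} (hd : d ≤ 6)
    (hF : IsWeightedHomogeneous ![2, 3, 1] F d) : ∃ A B : MvPolynomial (Fin 2) k,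
    IsWeightedHomogeneous ![2, 1] A (d - 3) ∧ (d < 3 → A = 0) ∧
    IsWeightedHomogeneous ![2, 1] B d ∧ (d < 6 → F.coeff (Finsupp.single 1 2) = 0) ∧
    F = C (F.coeff (Finsupp.single 1 2)) * X 1 ^ 2 + rename jj A * X 1 + rename jj B := by
  classical
  refine IsWeightedHomogeneous.induction_on (motive := fun F _ =>
    ∃ A B : MvPolynomial (Fin 2) k, IsWeightedHomogeneous ![2, 1] A (d - 3) ∧ (d < 3 → A = 0) ∧
    IsWeightedHomogeneous ![2, 1] B d ∧ (d < 6 → F.coeff (Finsupp.single 1 2) = 0) ∧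
    F = C (F.coeff (Finsupp.single 1 2)) * X 1 ^ 2 + rename jj A * X 1 + rename jj B)
    ?_ ?_ ?_ hF
  · exact ⟨0, 0, MvPolynomial.isWeightedHomogeneous_zero _ _ _, fun _ => rfl,
      MvPolynomial.isWeightedHomogeneous_zero _ _ _, fun _ => MvPolynomial.coeff_zero _, by simp⟩
  · rintro p q - - ⟨A, B, h1, h2, h3, h4, h5⟩ ⟨A', B', h1', h2', h3', h4', h5'⟩
    refine ⟨A + A', B + B', h1.add h1', fun h => by rw [h2 h, h2' h, add_zero], h3.add h3',
      fun h => by rw [MvPolynomial.coeff_add, h4 h, h4' h, add_zero], ?_⟩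
    rw [MvPolynomial.coeff_add, map_add, map_add, map_add]
    conv_lhs => rw [h5, h5']
    ring
  · intro m r hm
    rw [weight3] at hm
    have hm' : m 0 * 2 + m 1 * 3 + m 2 * 1 = d := hm
    have hmon : monomial m r = C r * (X 0 ^ m 0 * X 1 ^ m 1 * X 2 ^ m 2) := by
      rw [MvPolynomial.monomial_eq, Finsupp.prod_fintype _ _ (fun i => pow_zero _),
        Fin.prod_univ_three]
    have hh : ∀ a b : ℕ, IsWeightedHomogeneous ![2, 1]
        (C r * (X 0 ^ a * X 1 ^ b) : MvPolynomial (Fin 2) k) (2 * a + b) := fun a b => by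
      have h0 := (MvPolynomial.isWeightedHomogeneous_X k (![2, 1] : Fin 2 → ℕ) 0).pow a
      have h1 := (MvPolynomial.isWeightedHomogeneous_X k (![2, 1] : Fin 2 → ℕ) 1).pow b
      have h2 := (h0.mul h1).C_mul r
      have h3 : a • (![2, 1] : Fin 2 → ℕ) 0 + b • (![2, 1] : Fin 2 → ℕ) 1 = 2 * a + b := by
        change a * 2 + b * 1 = _
        ring
      rwa [h3] at h2
    have hr : ∀ a b : ℕ, rename jj (C r * (X 0 ^ a * X 1 ^ b) : MvPolynomial (Fin 2) k) =
        C r * (X 0 ^ a * X 2 ^ b) := by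
      intro a b
      rw [map_mul, map_mul, map_pow, map_pow, MvPolynomial.rename_C, MvPolynomial.rename_X,
        MvPolynomial.rename_X]
      rfl
    have hcases : m 1 = 0 ∨ m 1 = 1 ∨ (m 1 = 2 ∧ m 0 = 0 ∧ m 2 = 0 ∧ d = 6) := by omega
    rcases hcases with h | h | ⟨h, h0, h2, h4⟩
    · have hne : (monomial m r).coeff (Finsupp.single (1 : Fin 3) 2) = 0 := by
        rw [MvPolynomial.coeff_monomial, if_neg]
        intro he
        have := DFunLike.congr_fun he 1
        rw [h] at this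
        simp at this
      refine ⟨0, C r * (X 0 ^ m 0 * X 1 ^ m 2), MvPolynomial.isWeightedHomogeneous_zero _ _ _,
        fun _ => rfl, ?_, fun _ => hne, ?_⟩
      · have := hh (m 0) (m 2)
        rwa [show 2 * m 0 + m 2 = d by omega] at this
      · rw [hne, hr, hmon, h]
        simp
    · have hne : (monomial m r).coeff (Finsupp.single (1 : Fin 3) 2) = 0 := by
        rw [MvPolynomial.coeff_monomial, if_neg]
        intro he
        have := DFunLike.congr_fun he 1
        rw [h] at this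
        simp at this
      refine ⟨C r * (X 0 ^ m 0 * X 1 ^ m 2), 0, ?_, fun h' => by omega,
        MvPolynomial.isWeightedHomogeneous_zero _ _ _, fun _ => hne, ?_⟩
      · have := hh (m 0) (m 2)
        rwa [show 2 * m 0 + m 2 = d - 3 by omega] at this
      · rw [hne, hr, hmon, h]
        simp only [map_zero, zero_mul, zero_add, add_zero, pow_one]
        ring
    · have hm1 : m = Finsupp.single (1 : Fin 3) 2 := by
        ext i
        fin_cases i
        · simpa using h0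
        · simpa using h
        · simpa using h2
      refine ⟨0, 0, MvPolynomial.isWeightedHomogeneous_zero _ _ _, fun _ => rfl,
        MvPolynomial.isWeightedHomogeneous_zero _ _ _, fun h' => by omega, ?_⟩
      rw [hm1, MvPolynomial.coeff_monomial, if_pos rfl, ← hm1, hmon, h, h0, h2]
      simp

/-! ### Changes of coordinates -/

theorem chg_fb {w : Fin 3 → ℕ} (τ : ChgW w k) (F : MvPolynomial (Fin 3) k) :
    aeval τ.bwd (aeval τ.fwd F) = F := by
  have h1 : (aeval τ.bwd : MvPolynomial (Fin 3) k →ₐ[k] MvPolynomial (Fin 3) k).comp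
      (aeval τ.fwd) = AlgHom.id k _ := by
    apply MvPolynomial.algHom_ext
    intro i
    rw [AlgHom.comp_apply, MvPolynomial.aeval_X, τ.bwd_fwd]
    rfl
  exact DFunLike.congr_fun h1 F

theorem chg_bf {w : Fin 3 → ℕ} (τ : ChgW w k) (F : MvPolynomial (Fin 3) k) :
    aeval τ.fwd (aeval τ.bwd F) = F := by
  have h1 : (aeval τ.fwd : MvPolynomial (Fin 3) k →ₐ[k] MvPolynomial (Fin 3) k).comp
      (aeval τ.bwd) = AlgHom.id k _ := by
    apply MvPolynomial.algHom_ext
    intro i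
    rw [AlgHom.comp_apply, MvPolynomial.aeval_X, τ.fwd_bwd]
    rfl
  exact DFunLike.congr_fun h1 F

theorem aeval_aeval (t t' : Fin 3 → MvPolynomial (Fin 3) k) (F : MvPolynomial (Fin 3) k) :
    aeval t' (aeval t F) = aeval (fun i => aeval t' (t i)) F := by
  have h1 : (aeval t' : MvPolynomial (Fin 3) k →ₐ[k] MvPolynomial (Fin 3) k).comp
      (aeval t) = aeval (fun i => aeval t' (t i)) := by
    apply MvPolynomial.algHom_ext
    intro i
    rw [AlgHom.comp_apply, MvPolynomial.aeval_X, MvPolynomial.aeval_X]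
  exact DFunLike.congr_fun h1 F

/-- first `τ`, then `τ'` -/
noncomputable def chgComp {w : Fin 3 → ℕ} (τ τ' : ChgW w k) : ChgW w k where
  fwd i := aeval τ'.fwd (τ.fwd i)
  bwd i := aeval τ.bwd (τ'.bwd i)
  hfwd i := wh_subst (τ.hfwd i) τ'.hfwd
  hbwd i := wh_subst (τ'.hbwd i) τ.hbwd
  fwd_bwd i := by
    rw [← aeval_aeval, chg_bf τ, τ'.fwd_bwd]
  bwd_fwd i := by
    rw [← aeval_aeval, chg_fb τ', τ.bwd_fwd]

theorem chgComp_fwd {w : Fin 3 → ℕ} (τ τ' : ChgW w k) (F : MvPolynomial (Fin 3) k) :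
    aeval (chgComp τ τ').fwd F = aeval τ'.fwd (aeval τ.fwd F) :=
  (aeval_aeval τ.fwd τ'.fwd F).symm

theorem map_aeval {K : Type} [Field K] [Algebra k K] (t : Fin 3 → MvPolynomial (Fin 3) k)
    (F : MvPolynomial (Fin 3) k) : MvPolynomial.map (algebraMap k K) (aeval t F) =
      aeval (fun i => MvPolynomial.map (algebraMap k K) (t i))
        (MvPolynomial.map (algebraMap k K) F) := by
  rw [MvPolynomial.aeval_def, MvPolynomial.aeval_def, MvPolynomial.eval₂_map,
    MvPolynomial.algebraMap_eq, MvPolynomial.algebraMap_eq]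
  rw [MvPolynomial.eval₂_eq', MvPolynomial.eval₂_eq', map_sum]
  refine Finset.sum_congr rfl fun m _ => ?_
  rw [map_mul, map_prod, MvPolynomial.map_C]
  congr 1
  refine Finset.prod_congr rfl fun i _ => ?_
  rw [map_pow]

/-- the change of coordinates over the large field -/
noncomputable def chgMap (K : Type) [Field K] [Algebra k K] {w : Fin 3 → ℕ} (τ : ChgW w k) :
    ChgW w K where
  fwd i := MvPolynomial.map (algebraMap k K) (τ.fwd i)
  bwd i := MvPolynomial.map (algebraMap k K) (τ.bwd i)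
  hfwd i := wh_map (τ.hfwd i) _
  hbwd i := wh_map (τ.hbwd i) _
  fwd_bwd i := by
    rw [← map_aeval, τ.fwd_bwd, MvPolynomial.map_X]
  bwd_fwd i := by
    rw [← map_aeval, τ.bwd_fwd, MvPolynomial.map_X]

end small

variable {K : Type} [Field K] {G : ∀ (R : Type) [CommRing R] [Algebra K R], Prop}

/-- the cones of isomorphic data -/
noncomputable def isoTS {w : Fin 3 → ℕ} (τ : ChgW w K) (F₀ F₁ F₂ : MvPolynomial (Fin 3) K)
    (s t : ℕ) (c : K) : Iso (TS F₀ F₁ F₂ s t c)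
      (TS (aeval τ.fwd F₀) (aeval τ.fwd F₁) (aeval τ.fwd F₂) s t c) where
  hom {R} _ _ x := ⟨(ev (τ.bwd 0) x.1.1 x.1.2.1 x.1.2.2.1, ev (τ.bwd 1) x.1.1 x.1.2.1 x.1.2.2.1,
      ev (τ.bwd 2) x.1.1 x.1.2.1 x.1.2.2.1, x.1.2.2.2), by
    have h1 : ev F₀ x.1.1 x.1.2.1 x.1.2.2.1 - x.1.2.2.2 ^ t * ev F₁ x.1.1 x.1.2.1 x.1.2.2.1 +
      algebraMap K R c * x.1.2.2.2 ^ (s + t) * ev F₂ x.1.1 x.1.2.1 x.1.2.2.1 = 0 := x.2
    change ev (aeval τ.fwd F₀) _ _ _ - x.1.2.2.2 ^ t * ev (aeval τ.fwd F₁) _ _ _ +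
      algebraMap K R c * x.1.2.2.2 ^ (s + t) * ev (aeval τ.fwd F₂) _ _ _ = 0
    rw [← ev_aeval, ← ev_aeval, ← ev_aeval, chg_fb, chg_fb, chg_fb]
    exact h1⟩
  inv {R} _ _ x := ⟨(ev (τ.fwd 0) x.1.1 x.1.2.1 x.1.2.2.1, ev (τ.fwd 1) x.1.1 x.1.2.1 x.1.2.2.1,
      ev (τ.fwd 2) x.1.1 x.1.2.1 x.1.2.2.1, x.1.2.2.2), by
    have h1 : ev (aeval τ.fwd F₀) x.1.1 x.1.2.1 x.1.2.2.1 -
      x.1.2.2.2 ^ t * ev (aeval τ.fwd F₁) x.1.1 x.1.2.1 x.1.2.2.1 +
      algebraMap K R c * x.1.2.2.2 ^ (s + t) * ev (aeval τ.fwd F₂) x.1.1 x.1.2.1 x.1.2.2.1 = 0 :=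
      x.2
    rw [ev_aeval, ev_aeval, ev_aeval] at h1
    exact h1⟩
  inv_hom {R} _ _ x := by
    apply Subtype.ext
    refine Prod.ext ?_ (Prod.ext ?_ (Prod.ext ?_ rfl))
    · change ev (τ.fwd 0) (ev _ _ _ _) (ev _ _ _ _) (ev _ _ _ _) = _
      rw [← ev_aeval, τ.bwd_fwd, ev_X]
      rfl
    · change ev (τ.fwd 1) (ev _ _ _ _) (ev _ _ _ _) (ev _ _ _ _) = _
      rw [← ev_aeval, τ.bwd_fwd, ev_X]
      rfl
    · change ev (τ.fwd 2) (ev _ _ _ _) (ev _ _ _ _) (ev _ _ _ _) = _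
      rw [← ev_aeval, τ.bwd_fwd, ev_X]
      rfl
  hom_inv {R} _ _ x := by
    apply Subtype.ext
    refine Prod.ext ?_ (Prod.ext ?_ (Prod.ext ?_ rfl))
    · change ev (τ.bwd 0) (ev _ _ _ _) (ev _ _ _ _) (ev _ _ _ _) = _
      rw [← ev_aeval, τ.fwd_bwd, ev_X]
      rfl
    · change ev (τ.bwd 1) (ev _ _ _ _) (ev _ _ _ _) (ev _ _ _ _) = _
      rw [← ev_aeval, τ.fwd_bwd, ev_X]
      rfl
    · change ev (τ.bwd 2) (ev _ _ _ _) (ev _ _ _ _) (ev _ _ _ _) = _
      rw [← ev_aeval, τ.fwd_bwd, ev_X]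
      rfl
  nat {R S} _ _ _ _ f x := by
    apply Subtype.ext
    refine Prod.ext ?_ (Prod.ext ?_ (Prod.ext ?_ rfl)) <;> exact ev_map _ _ _ _ _

/-- the conclusion of the blocks `mem_one`, `mem_two`, `mem_three` -/
def Concl (G : ∀ (R : Type) [CommRing R] [Algebra K R], Prop) {k : Type} [Field k] [Algebra k K]
    (w : Fin 3 → ℕ) (i : Fin 3) (F₀ F₁ F₂ : MvPolynomial (Fin 3) k) (s t : ℕ) (c : K) : Prop :=
  (TS (MvPolynomial.map (algebraMap k K) F₀) (MvPolynomial.map (algebraMap k K) F₁)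
      (MvPolynomial.map (algebraMap k K) F₂) s t c).Mem G ∨
    ∃ τ : ChgW w k, NoV i (aeval τ.fwd F₀) ∧ NoV i (aeval τ.fwd F₁) ∧ NoV i (aeval τ.fwd F₂)

/-- **(c)** the conclusion is invariant under changes of coordinates -/
theorem concl_chg {k : Type} [Field k] [Algebra k K] {w : Fin 3 → ℕ} {i : Fin 3}
    {F₀ F₁ F₂ : MvPolynomial (Fin 3) k} {s t : ℕ} {c : K} (τ : ChgW w k)
    (h : Concl G w i (aeval τ.fwd F₀) (aeval τ.fwd F₁) (aeval τ.fwd F₂) s t c) :
    Concl G w i F₀ F₁ F₂ s t c := by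
  rcases h with h | ⟨τ', h0, h1, h2⟩
  · left
    refine Mem.of_iso (isoTS (chgMap K τ) _ _ _ s t c) ?_
    have e : ∀ F : MvPolynomial (Fin 3) k, aeval (chgMap K τ).fwd
        (MvPolynomial.map (algebraMap k K) F) =
        MvPolynomial.map (algebraMap k K) (aeval τ.fwd F) := fun F => (map_aeval τ.fwd F).symm
    rw [e, e, e]
    exact h
  · right
    refine ⟨chgComp τ τ', ?_, ?_, ?_⟩
    · rw [chgComp_fwd]
      exact h0
    · rw [chgComp_fwd]
      exact h1
    · rw [chgComp_fwd]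
      exact h2

end Pool.Agent.Helper79.TP
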