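import Pool.Agent.Helper9.TP.Defs3
import Pool.Agent.Helper79.CP.Form

/-!
# Weighted forms of degree at most four with the weights 1, 2, 1
-/

set_option autoImplicit false

namespace Pool.Agent.Helper79.TP

open Pool.Agent.Helper9.TP (InvP NoV)
open Pool.Agent.Helper71.CP (ev ev_map ev_mul ev_pow ev_add ev_C ev_X wt NoX)
open Pool.Agent.Helper79.CP (weight_eq)
open MvPolynomial (IsWeightedHomogeneous rename C X monomial)

variable {k : Type} [Field k]

/-- the variables `x`, `z` -/
def jj : Fin 2 → Fin 3 := ![0, 2]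

/-- the value of a binary form -/
noncomputable def e2 {K : Type} [Field K] (A : MvPolynomial (Fin 2) K) {R : Type} [CommRing R]
    [Algebra K R] (x z : R) : R := MvPolynomial.aeval ![x, z] A

theorem e2_map {K : Type} [Field K] (A : MvPolynomial (Fin 2) K) {R S : Type} [CommRing R]
    [Algebra K R] [CommRing S] [Algebra K S] (f : R →ₐ[K] S) (x z : R) :
    f (e2 A x z) = e2 A (f x) (f z) := by
  have h1 : f.comp (MvPolynomial.aeval ![x, z]) = MvPolynomial.aeval ![f x, f z] := by
    apply MvPolynomial.algHom_ext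
    intro i
    rw [AlgHom.comp_apply, MvPolynomial.aeval_X, MvPolynomial.aeval_X]
    fin_cases i <;> rfl
  exact DFunLike.congr_fun h1 A

theorem ev_jj (A : MvPolynomial (Fin 2) k) {R : Type} [CommRing R] [Algebra k R] (x y z : R) :
    ev (rename jj A) x y z = e2 A x z := by
  unfold ev e2
  rw [MvPolynomial.aeval_rename]
  congr 2
  funext i
  fin_cases i <;> rfl

theorem wh_jj {A : MvPolynomial (Fin 2) k} {d : ℕ} (hA : A.IsHomogeneous d) :
    IsWeightedHomogeneous wt (rename jj A) d := by
  classical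
  intro m hm
  obtain ⟨u, hu, hu'⟩ := MvPolynomial.coeff_rename_ne_zero jj A m hm
  have h1 := hA hu'
  have h3 := DFunLike.congr_fun (Finsupp.degree_eq_weight_one (R := ℕ) (σ := Fin 2)) u
  have h4 : Finsupp.degree u = u 0 + u 1 := by
    rw [Finsupp.degree_eq_sum, Fin.sum_univ_two]
  have h5 : u 0 + u 1 = d := (h4.symm.trans h3).trans h1
  have hj : Function.Injective jj := by
    intro a b hab
    fin_cases a <;> fin_cases b <;> first | rfl | exact absurd hab (by decide)
  rw [weight_eq, ← hu]
  have e0 : Finsupp.mapDomain jj u 0 = u 0 := Finsupp.mapDomain_apply hj u 0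
  have e2' : Finsupp.mapDomain jj u 2 = u 1 := Finsupp.mapDomain_apply hj u 1
  have e1 : Finsupp.mapDomain jj u 1 = 0 := by
    apply Finsupp.mapDomain_notin_range
    rintro ⟨i, hi⟩
    fin_cases i <;> exact absurd hi (by decide)
  rw [e0, e1, e2']
  omega

/-- the decomposition of weighted forms -/
theorem exists_dec {F : MvPolynomial (Fin 3) k} {d : ℕ} (hd : d ≤ 4)
    (hF : IsWeightedHomogeneous wt F d) : ∃ A B : MvPolynomial (Fin 2) k,
    A.IsHomogeneous (d - 2) ∧ (d < 2 → A = 0) ∧ B.IsHomogeneous d ∧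
    (d < 4 → F.coeff (Finsupp.single 1 2) = 0) ∧
    F = C (F.coeff (Finsupp.single 1 2)) * X 1 ^ 2 + rename jj A * X 1 + rename jj B := by
  classical
  refine IsWeightedHomogeneous.induction_on (motive := fun F _ =>
    ∃ A B : MvPolynomial (Fin 2) k, A.IsHomogeneous (d - 2) ∧ (d < 2 → A = 0) ∧
    B.IsHomogeneous d ∧ (d < 4 → F.coeff (Finsupp.single 1 2) = 0) ∧
    F = C (F.coeff (Finsupp.single 1 2)) * X 1 ^ 2 + rename jj A * X 1 + rename jj B)
    ?_ ?_ ?_ hF
  · exact ⟨0, 0, MvPolynomial.isHomogeneous_zero _ _ _, fun _ => rfl,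
      MvPolynomial.isHomogeneous_zero _ _ _, fun _ => MvPolynomial.coeff_zero _, by simp⟩
  · rintro p q - - ⟨A, B, h1, h2, h3, h4, h5⟩ ⟨A', B', h1', h2', h3', h4', h5'⟩
    refine ⟨A + A', B + B', h1.add h1', fun h => by rw [h2 h, h2' h, add_zero], h3.add h3',
      fun h => by rw [MvPolynomial.coeff_add, h4 h, h4' h, add_zero], ?_⟩
    rw [MvPolynomial.coeff_add, map_add, map_add, map_add]
    conv_lhs => rw [h5, h5']
    ring
  · intro m r hm
    rw [weight_eq] at hm
    have hmon : monomial m r = C r * (X 0 ^ m 0 * X 1 ^ m 1 * X 2 ^ m 2) := by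
      rw [MvPolynomial.monomial_eq, Finsupp.prod_fintype _ _ (fun i => pow_zero _),
        Fin.prod_univ_three]
    have hh : ∀ a b : ℕ, (C r * (X 0 ^ a * X 1 ^ b) :
        MvPolynomial (Fin 2) k).IsHomogeneous (a + b) := fun a b =>
      ((MvPolynomial.isHomogeneous_X_pow 0 a).mul (MvPolynomial.isHomogeneous_X_pow 1 b)).C_mul r
    have hr : ∀ a b : ℕ, rename jj (C r * (X 0 ^ a * X 1 ^ b) : MvPolynomial (Fin 2) k) =
        C r * (X 0 ^ a * X 2 ^ b) := by
      intro a b
      rw [map_mul, map_mul, map_pow, map_pow, MvPolynomial.rename_C, MvPolynomial.rename_X,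
        MvPolynomial.rename_X]
      rfl
    have hcases : m 1 = 0 ∨ m 1 = 1 ∨ (m 1 = 2 ∧ m 0 = 0 ∧ m 2 = 0 ∧ d = 4) := by omega
    rcases hcases with h | h | ⟨h, h0, h2, h4⟩
    · have hne : (monomial m r).coeff (Finsupp.single (1 : Fin 3) 2) = 0 := by
        rw [MvPolynomial.coeff_monomial, if_neg]
        intro he
        have := DFunLike.congr_fun he 1
        rw [h] at this
        simp at this
      refine ⟨0, C r * (X 0 ^ m 0 * X 1 ^ m 2), MvPolynomial.isHomogeneous_zero _ _ _,
        fun _ => rfl, ?_, fun _ => hne, ?_⟩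
      · have := hh (m 0) (m 2)
        rwa [show m 0 + m 2 = d by omega] at this
      · rw [hne, hr, hmon, h]
        simp
    · have hne : (monomial m r).coeff (Finsupp.single (1 : Fin 3) 2) = 0 := by
        rw [MvPolynomial.coeff_monomial, if_neg]
        intro he
        have := DFunLike.congr_fun he 1
        rw [h] at this
        simp at this
      refine ⟨C r * (X 0 ^ m 0 * X 1 ^ m 2), 0, ?_, fun h' => by omega,
        MvPolynomial.isHomogeneous_zero _ _ _, fun _ => hne, ?_⟩
      · have := hh (m 0) (m 2)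
        rwa [show m 0 + m 2 = d - 2 by omega] at this
      · rw [hne, hr, hmon, h]
        simp only [map_zero, zero_mul, zero_add, add_zero, pow_one]
        ring
    · have hm' : m = Finsupp.single (1 : Fin 3) 2 := by
        ext i
        fin_cases i
        · simpa using h0
        · simpa using h
        · simpa using h2
      refine ⟨0, 0, MvPolynomial.isHomogeneous_zero _ _ _, fun _ => rfl,
        MvPolynomial.isHomogeneous_zero _ _ _, fun h' => by omega, ?_⟩
      rw [hm', MvPolynomial.coeff_monomial, if_pos rfl, ← hm', hmon, h, h0, h2]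
      simp

/-- if the square is invariant then the polynomial is invariant -/
theorem inv_sq (h2 : (2 : k) ≠ 0) {F : MvPolynomial (Fin 3) k} {u : Fin 3 → k}
    (h : InvP (F ^ 2) u) : InvP F u := by
  intro R _ _ x y z t
  let A := MvPolynomial (Fin 4) k
  let a : A := ev F (X 0 + X 3 * algebraMap k A (u 0)) (X 1 + X 3 * algebraMap k A (u 1))
    (X 2 + X 3 * algebraMap k A (u 2))
  let b : A := ev F (X 0) (X 1) (X 2)
  have h1 : a ^ 2 = b ^ 2 := by
    have h3 := h A (X 0) (X 1) (X 2) (X 3)
    rwa [ev_pow, ev_pow] at h3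
  have h4 : a = b := by
    rcases sq_eq_sq_iff_eq_or_eq_neg.1 h1 with h5 | h5
    · exact h5
    · let φ : A →ₐ[k] A := MvPolynomial.aeval ![X 0, X 1, X 2, 0]
      have e0 : φ (X 0) = X 0 := MvPolynomial.aeval_X _ _
      have e1 : φ (X 1) = X 1 := MvPolynomial.aeval_X _ _
      have e2' : φ (X 2) = X 2 := MvPolynomial.aeval_X _ _
      have e3 : φ (X 3) = 0 := MvPolynomial.aeval_X _ _
      have h6 : φ a = φ (-b) := congrArg φ h5
      have h7 : φ b = b := by
        change φ (ev F _ _ _) = _
        rw [ev_map, e0, e1, e2']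
      have h8 : φ a = b := by
        change φ (ev F _ _ _) = _
        rw [ev_map, map_add, map_add, map_add, map_mul, map_mul, map_mul, e0, e1, e2', e3]
        simp only [zero_mul, add_zero]
        rfl
      rw [h8, map_neg, h7] at h6
      have h9 : (C 2 : A) * b = 0 := by
        have : (C 2 : A) = 2 := map_ofNat _ 2
        rw [this]
        linear_combination h6
      have h10 : b = 0 := by
        refine (mul_eq_zero.1 h9).resolve_left ?_
        intro h11
        exact h2 ((map_eq_zero_iff _ (MvPolynomial.C_injective (Fin 4) k)).1 h11)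
      rw [h5, h10, neg_zero]
  let ψ : A →ₐ[k] R := MvPolynomial.aeval ![x, y, z, t]
  have f0 : ψ (X 0) = x := MvPolynomial.aeval_X _ 0
  have f1 : ψ (X 1) = y := MvPolynomial.aeval_X _ 1
  have f2 : ψ (X 2) = z := MvPolynomial.aeval_X _ 2
  have f3 : ψ (X 3) = t := MvPolynomial.aeval_X _ 3
  have h5 := congrArg ψ h4
  change ψ (ev F _ _ _) = ψ (ev F _ _ _) at h5
  rw [ev_map, ev_map, map_add, map_add, map_add, map_mul, map_mul, map_mul, AlgHom.commutes,
    AlgHom.commutes, AlgHom.commutes, f0, f1, f2, f3] at h5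
  exact h5

/-- comparison of coefficients -/
theorem cmp {R : Type} [CommRing R] {s t : ℕ} (hs : 0 < s) (ht : 0 < t) (hst : s ≠ t)
    {h0 h1 a b h0' h1' a' b' : R}
    (e : (Polynomial.C h0 + Polynomial.C h1 * Polynomial.X ^ t +
      Polynomial.C a * Polynomial.X ^ (2 * t) - Polynomial.C b * Polynomial.X ^ (s + t) :
        Polynomial R) = Polynomial.C h0' + Polynomial.C h1' * Polynomial.X ^ t +
      Polynomial.C a' * Polynomial.X ^ (2 * t) - Polynomial.C b' * Polynomial.X ^ (s + t)) :
    h0 = h0' ∧ h1 = h1' ∧ a = a' ∧ b = b' := by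
  have c0 := congrArg (fun q => Polynomial.coeff q 0) e
  have c1 := congrArg (fun q => Polynomial.coeff q t) e
  have c2 := congrArg (fun q => Polynomial.coeff q (2 * t)) e
  have c3 := congrArg (fun q => Polynomial.coeff q (s + t)) e
  simp only [Polynomial.coeff_add, Polynomial.coeff_sub, Polynomial.coeff_C_mul_X_pow,
    Polynomial.coeff_C] at c0 c1 c2 c3
  have n1 : ¬ (0 = t) := by omega
  have n2 : ¬ (0 = 2 * t) := by omega
  have n3 : ¬ (0 = s + t) := by omega
  have n4 : ¬ (t = 0) := by omega
  have n5 : ¬ (t = 2 * t) := by omega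
  have n6 : ¬ (t = s + t) := by omega
  have n7 : ¬ (2 * t = 0) := by omega
  have n8 : ¬ (2 * t = t) := by omega
  have n9 : ¬ (2 * t = s + t) := by omega
  have n10 : ¬ (s + t = 0) := by omega
  have n11 : ¬ (s + t = t) := by omega
  have n12 : ¬ (s + t = 2 * t) := by omega
  rw [if_neg n1, if_neg n2, if_neg n3, if_neg n1, if_neg n2, if_neg n3] at c0
  rw [if_neg n4, if_neg n5, if_neg n6, if_neg n4, if_neg n5, if_neg n6] at c1
  rw [if_neg n7, if_neg n8, if_neg n9, if_neg n7, if_neg n8, if_neg n9] at c2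
  rw [if_neg n10, if_neg n11, if_neg n12, if_neg n10, if_neg n11, if_neg n12] at c3
  refine ⟨?_, ?_, ?_, ?_⟩
  · simpa using c0
  · simpa using c1
  · simpa using c2
  · simpa using c3

/-- polynomials without the first variable -/
theorem noV_of_noX {F : MvPolynomial (Fin 3) k} (h : NoX F) : NoV 0 F := by
  classical
  intro m hm
  by_contra hm0
  let i12 : Fin 2 → Fin 3 := ![1, 2]
  have h1 : rename i12 (MvPolynomial.aeval (![0, X 0, X 1] : Fin 3 → MvPolynomial (Fin 2) k) F) =
      F := by
    conv_rhs => rw [← (show _ = F from h)]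
    have h2 : (rename i12 : MvPolynomial (Fin 2) k →ₐ[k] MvPolynomial (Fin 3) k).comp
        (MvPolynomial.aeval (![0, X 0, X 1] : Fin 3 → MvPolynomial (Fin 2) k)) =
        MvPolynomial.aeval (![0, X 1, X 2] : Fin 3 → MvPolynomial (Fin 3) k) := by
      apply MvPolynomial.algHom_ext
      intro i
      rw [AlgHom.comp_apply, MvPolynomial.aeval_X, MvPolynomial.aeval_X]
      fin_cases i
      · exact map_zero _
      · exact MvPolynomial.rename_X _ _
      · exact MvPolynomial.rename_X _ _
    exact DFunLike.congr_fun h2 F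
  rw [← h1] at hm
  have h3 : (0 : Fin 3) ∈ (rename i12
      (MvPolynomial.aeval (![0, X 0, X 1] : Fin 3 → MvPolynomial (Fin 2) k) F)).vars :=
    (MvPolynomial.mem_vars 0).2 ⟨m, hm, Finsupp.mem_support_iff.2 hm0⟩
  have h4 := MvPolynomial.vars_rename i12 _ h3
  rw [Finset.mem_image] at h4
  obtain ⟨i, -, hi⟩ := h4
  fin_cases i <;> exact absurd hi (by decide)

end Pool.Agent.Helper79.TP
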