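import Pool.Agent.Helper79.TP.Two1

/-!
# The square and the reductions for the weights 2, 3, 1
-/

set_option autoImplicit false

namespace Pool.Agent.Helper79.TP

open Pool.Agent.Helper29.CQ Pool.Agent.Helper65.CC Pool.Agent.Helper87.CC
  Pool.Agent.Helper65.CC.KFn
open Pool.Agent.Helper9.QP (A4)
open Pool.Agent.Helper9.TP (NoV TS ChgW)
open Pool.Agent.Helper71.CP (ev ev_map ev_mul ev_pow ev_add ev_C ev_X ev_aeval wt CW)
open MvPolynomial (IsWeightedHomogeneous rename C X monomial aeval)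

section small

variable {k : Type} [Field k]

/-- the variables of the cone: `X 0 = z`, `X 1 = x`, `X 2 = r` -/
def kk : Fin 2 → Fin 3 := ![1, 0]

theorem ev_kk (A : MvPolynomial (Fin 2) k) {R : Type} [CommRing R] [Algebra k R] (z x r : R) :
    ev (rename kk A) z x r = e2 A x z := by
  unfold ev e2
  rw [MvPolynomial.aeval_rename]
  congr 2
  funext i
  fin_cases i <;> rfl

theorem wh_kk {A : MvPolynomial (Fin 2) k} {d : ℕ} (hA : IsWeightedHomogeneous ![2, 1] A d) :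
    IsWeightedHomogeneous wt (rename kk A) d :=
  wh_rename hA fun i => by fin_cases i <;> rfl

theorem ev_sub (F F' : MvPolynomial (Fin 3) k) {R : Type} [CommRing R] [Algebra k R]
    (x y z : R) : ev (F - F') x y z = ev F x y z - ev F' x y z := map_sub _ _ _

theorem ev_self (F : MvPolynomial (Fin 3) k) :
    ev F (X 0 : MvPolynomial (Fin 3) k) (X 1) (X 2) = F := by
  unfold ev
  have h1 : (aeval ![X 0, X 1, X 2] : MvPolynomial (Fin 3) k →ₐ[k] MvPolynomial (Fin 3) k) =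
      AlgHom.id k _ := by
    apply MvPolynomial.algHom_ext
    intro i
    rw [MvPolynomial.aeval_X]
    fin_cases i <;> rfl
  rw [h1]
  rfl

theorem ext_ev {F F' : MvPolynomial (Fin 3) k} (h : ∀ (R : Type) [CommRing R] [Algebra k R]
    (x y z : R), ev F x y z = ev F' x y z) : F = F' := by
  rw [← ev_self F, ← ev_self F']
  exact h _ _ _ _

/-- the branch form -/
noncomputable def HH (s t : ℕ) (a c : k) (A₀ B₀ A₁ B₁ A₂ B₂ : MvPolynomial (Fin 2) k) :
    MvPolynomial (Fin 3) k :=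
  (rename kk A₀ - X 2 ^ t * rename kk A₁ + C c * X 2 ^ (s + t) * rename kk A₂) ^ 2 -
    C (4 * a) * (rename kk B₀ - X 2 ^ t * rename kk B₁ + C c * X 2 ^ (s + t) * rename kk B₂)

theorem ev_HH (s t : ℕ) (a c : k) (A₀ B₀ A₁ B₁ A₂ B₂ : MvPolynomial (Fin 2) k) (R : Type)
    [CommRing R] [Algebra k R] (z x r : R) : ev (HH s t a c A₀ B₀ A₁ B₁ A₂ B₂) z x r =
      (e2 A₀ x z - r ^ t * e2 A₁ x z + algebraMap k R c * r ^ (s + t) * e2 A₂ x z) ^ 2 -
      4 * algebraMap k R a * (e2 B₀ x z - r ^ t * e2 B₁ x z +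
        algebraMap k R c * r ^ (s + t) * e2 B₂ x z) := by
  rw [HH, ev_sub, ev_mul, ev_pow, ev_add, ev_add, ev_sub, ev_sub, ev_mul, ev_mul, ev_mul, ev_mul,
    ev_mul, ev_mul, ev_C, ev_C, ev_kk, ev_kk, ev_kk, ev_kk, ev_kk, ev_kk, ev_pow, ev_pow, ev_X,
    map_mul, map_ofNat]
  rfl

theorem wh_X2 (n : ℕ) : IsWeightedHomogeneous wt (X 2 ^ n : MvPolynomial (Fin 3) k) n := by
  have h1 := (MvPolynomial.isWeightedHomogeneous_X k wt 2).pow n
  have h2 : n • wt 2 = n := mul_one n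
  rwa [h2] at h1

theorem wh_HH {s t : ℕ} (hle : s + t ≤ 6) (a c : k)
    {A₀ B₀ A₁ B₁ A₂ B₂ : MvPolynomial (Fin 2) k} (hA₀ : IsWeightedHomogeneous ![2, 1] A₀ 3)
    (hB₀ : IsWeightedHomogeneous ![2, 1] B₀ 6)
    (hA₁ : IsWeightedHomogeneous ![2, 1] A₁ (6 - t - 3)) (hA₁' : 6 - t < 3 → A₁ = 0)
    (hB₁ : IsWeightedHomogeneous ![2, 1] B₁ (6 - t))
    (hA₂ : IsWeightedHomogeneous ![2, 1] A₂ (6 - (s + t) - 3)) (hA₂' : 6 - (s + t) < 3 → A₂ = 0)
    (hB₂ : IsWeightedHomogeneous ![2, 1] B₂ (6 - (s + t))) :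
    IsWeightedHomogeneous wt (HH s t a c A₀ B₀ A₁ B₁ A₂ B₂) 6 := by
  have h1 : IsWeightedHomogeneous wt (X 2 ^ t * rename kk A₁ : MvPolynomial (Fin 3) k) 3 := by
    by_cases h : 6 - t < 3
    · rw [hA₁' h, map_zero, mul_zero]
      exact MvPolynomial.isWeightedHomogeneous_zero _ _ _
    · have := (wh_X2 t).mul (wh_kk hA₁)
      rwa [show t + (6 - t - 3) = 3 by omega] at this
  have h2 : IsWeightedHomogeneous wt (C c * X 2 ^ (s + t) * rename kk A₂ :
      MvPolynomial (Fin 3) k) 3 := by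
    by_cases h : 6 - (s + t) < 3
    · rw [hA₂' h, map_zero, mul_zero]
      exact MvPolynomial.isWeightedHomogeneous_zero _ _ _
    · have := ((wh_X2 (s + t)).C_mul c).mul (wh_kk hA₂)
      rwa [show s + t + (6 - (s + t) - 3) = 3 by omega] at this
  have h3 : IsWeightedHomogeneous wt (X 2 ^ t * rename kk B₁ : MvPolynomial (Fin 3) k) 6 := by
    have := (wh_X2 t).mul (wh_kk hB₁)
    rwa [show t + (6 - t) = 6 by omega] at this
  have h4 : IsWeightedHomogeneous wt (C c * X 2 ^ (s + t) * rename kk B₂ :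
      MvPolynomial (Fin 3) k) 6 := by
    have := ((wh_X2 (s + t)).C_mul c).mul (wh_kk hB₂)
    rwa [show s + t + (6 - (s + t)) = 6 by omega] at this
  have h5 := (((wh_kk hA₀).sub h1).add h2).pow 2
  exact h5.sub ((((wh_kk hB₀).sub h3).add h4).C_mul _)

/-- the coefficient of `x ^ 3` -/
theorem coeff_x3 {F : MvPolynomial (Fin 3) k} (hF : IsWeightedHomogeneous ![2, 3, 1] F 6) :
    F.coeff (Finsupp.single 0 3) = ev F (1 : k) 0 0 := by
  classical
  refine IsWeightedHomogeneous.induction_on (motive := fun F _ =>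
    F.coeff (Finsupp.single 0 3) = ev F (1 : k) 0 0) ?_ ?_ ?_ hF
  · exact (map_zero _).symm
  · rintro p q - - hp hq
    rw [MvPolynomial.coeff_add, ev_add, hp, hq]
  · intro m r hm
    rw [weight3] at hm
    have hm' : m 0 * 2 + m 1 * 3 + m 2 * 1 = 6 := hm
    have hev : ev (monomial m r) (1 : k) 0 0 = r * (1 ^ m 0 * 0 ^ m 1 * 0 ^ m 2) := by
      have hmon : monomial m r = C r * (X 0 ^ m 0 * X 1 ^ m 1 * X 2 ^ m 2) := by
        rw [MvPolynomial.monomial_eq, Finsupp.prod_fintype _ _ (fun i => pow_zero _),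
          Fin.prod_univ_three]
      rw [hmon, ev_mul, ev_mul, ev_mul, ev_C, ev_pow, ev_pow, ev_pow, ev_X, ev_X, ev_X]
      rfl
    rw [hev, MvPolynomial.coeff_monomial]
    by_cases h : m = Finsupp.single 0 3
    · rw [if_pos h, h]
      simp
    · rw [if_neg h]
      by_cases h1 : m 1 = 0
      · by_cases h2 : m 2 = 0
        · exfalso
          apply h
          ext i
          fin_cases i
          · simp
            omega
          · simpa using h1
          · simpa using h2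
        · rw [zero_pow h2, mul_zero, mul_zero]
      · rw [zero_pow h1, mul_zero, zero_mul, mul_zero]

/-- the coefficient of `y ^ 2` -/
theorem coeff_y2 {F : MvPolynomial (Fin 3) k} (hF : IsWeightedHomogeneous ![2, 3, 1] F 6) :
    F.coeff (Finsupp.single 1 2) = ev F (0 : k) 1 0 := by
  classical
  refine IsWeightedHomogeneous.induction_on (motive := fun F _ =>
    F.coeff (Finsupp.single 1 2) = ev F (0 : k) 1 0) ?_ ?_ ?_ hF
  · exact (map_zero _).symm
  · rintro p q - - hp hq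
    rw [MvPolynomial.coeff_add, ev_add, hp, hq]
  · intro m r hm
    rw [weight3] at hm
    have hm' : m 0 * 2 + m 1 * 3 + m 2 * 1 = 6 := hm
    have hev : ev (monomial m r) (0 : k) 1 0 = r * (0 ^ m 0 * 1 ^ m 1 * 0 ^ m 2) := by
      have hmon : monomial m r = C r * (X 0 ^ m 0 * X 1 ^ m 1 * X 2 ^ m 2) := by
        rw [MvPolynomial.monomial_eq, Finsupp.prod_fintype _ _ (fun i => pow_zero _),
          Fin.prod_univ_three]
      rw [hmon, ev_mul, ev_mul, ev_mul, ev_C, ev_pow, ev_pow, ev_pow, ev_X, ev_X, ev_X]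
      rfl
    rw [hev, MvPolynomial.coeff_monomial]
    by_cases h : m = Finsupp.single 1 2
    · rw [if_pos h, h]
      simp
    · rw [if_neg h]
      by_cases h1 : m 0 = 0
      · by_cases h2 : m 2 = 0
        · exfalso
          apply h
          ext i
          fin_cases i
          · simpa using h1
          · simp
            omega
          · simpa using h2
        · rw [zero_pow h2, mul_zero, mul_zero]
      · rw [zero_pow h1, zero_mul, zero_mul, mul_zero]

/-- the changes of coordinates -/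
theorem exists_chg6 (a q : k) (A : MvPolynomial (Fin 2) k)
    (hA : IsWeightedHomogeneous ![2, 1] A 3) : ∃ τ : ChgW ![2, 3, 1] k,
    ∀ (F : MvPolynomial (Fin 3) k) (R : Type) [CommRing R] [Algebra k R] (x y z : R),
    ev (aeval τ.fwd F) x y z = ev F (x + algebraMap k R q * z ^ 2)
      (y - algebraMap k R a * e2 A (x + algebraMap k R q * z ^ 2) z) z := by
  let L0 : MvPolynomial (Fin 3) k := X 0 + C q * X 2 ^ 2
  let M0 : MvPolynomial (Fin 3) k := X 0 - C q * X 2 ^ 2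
  let fwd : Fin 3 → MvPolynomial (Fin 3) k := ![L0, X 1 - C a * aeval ![L0, X 2] A, X 2]
  let bwd : Fin 3 → MvPolynomial (Fin 3) k := ![M0, X 1 + C a * rename jj A, X 2]
  have f0 : fwd 0 = L0 := rfl
  have f1 : fwd 1 = X 1 - C a * aeval ![L0, X 2] A := rfl
  have f2 : fwd 2 = X 2 := rfl
  have b0 : bwd 0 = M0 := rfl
  have b1 : bwd 1 = X 1 + C a * rename jj A := rfl
  have b2 : bwd 2 = X 2 := rfl
  have hjj : ∀ (t : Fin 3 → MvPolynomial (Fin 3) k), aeval t (rename jj A) =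
      aeval ![t 0, t 2] A := by
    intro t
    rw [MvPolynomial.aeval_rename]
    congr 2
    funext i
    fin_cases i <;> rfl
  have hX0 : IsWeightedHomogeneous ![2, 3, 1] (X 0 : MvPolynomial (Fin 3) k) 2 :=
    MvPolynomial.isWeightedHomogeneous_X k _ 0
  have hX1 : IsWeightedHomogeneous ![2, 3, 1] (X 1 : MvPolynomial (Fin 3) k) 3 :=
    MvPolynomial.isWeightedHomogeneous_X k _ 1
  have hX2 : IsWeightedHomogeneous ![2, 3, 1] (X 2 : MvPolynomial (Fin 3) k) 1 :=
    MvPolynomial.isWeightedHomogeneous_X k _ 2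
  have hX22 : IsWeightedHomogeneous ![2, 3, 1] (X 2 ^ 2 : MvPolynomial (Fin 3) k) 2 := hX2.pow 2
  have hL0 : IsWeightedHomogeneous ![2, 3, 1] L0 2 := hX0.add (hX22.C_mul q)
  have hM0 : IsWeightedHomogeneous ![2, 3, 1] M0 2 := hX0.sub (hX22.C_mul q)
  have hAj : IsWeightedHomogeneous ![2, 3, 1] (rename jj A) 3 := wh_jj6 hA
  have hA' : IsWeightedHomogeneous ![2, 3, 1] (aeval ![L0, X 2] A) 3 :=
    wh_subst hA fun i => by
      fin_cases i
      · exact hL0
      · exact hX2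
  have x1 : aeval fwd M0 = X 0 := by
    change aeval fwd (X 0 - C q * X 2 ^ 2) = X 0
    rw [map_sub, map_mul, map_pow, MvPolynomial.aeval_X, MvPolynomial.aeval_X, f0, f2,
      MvPolynomial.algHom_C, MvPolynomial.algebraMap_eq]
    change X 0 + C q * X 2 ^ 2 - C q * X 2 ^ 2 = X 0
    ring
  have x3 : aeval bwd L0 = X 0 := by
    change aeval bwd (X 0 + C q * X 2 ^ 2) = X 0
    rw [map_add, map_mul, map_pow, MvPolynomial.aeval_X, MvPolynomial.aeval_X, b0, b2,
      MvPolynomial.algHom_C, MvPolynomial.algebraMap_eq]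
    change X 0 - C q * X 2 ^ 2 + C q * X 2 ^ 2 = X 0
    ring
  have x5 : aeval bwd (aeval ![L0, X 2] A) = rename jj A := by
    have h1 : (aeval bwd : MvPolynomial (Fin 3) k →ₐ[k] MvPolynomial (Fin 3) k).comp
        (aeval ![L0, X 2]) = rename jj := by
      apply MvPolynomial.algHom_ext
      intro i
      rw [AlgHom.comp_apply, MvPolynomial.aeval_X, MvPolynomial.rename_X]
      fin_cases i
      · exact x3
      · exact MvPolynomial.aeval_X _ _
    exact DFunLike.congr_fun h1 A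
  let τ : ChgW ![2, 3, 1] k :=
    { fwd := fwd
      bwd := bwd
      hfwd := fun i => by
        fin_cases i
        · exact hL0
        · exact hX1.sub (hA'.C_mul a)
        · exact hX2
      hbwd := fun i => by
        fin_cases i
        · exact hM0
        · exact hX1.add (hAj.C_mul a)
        · exact hX2
      fwd_bwd := fun i => by
        fin_cases i
        · exact x1
        · change aeval fwd (X 1 + C a * rename jj A) = X 1
          rw [map_add, map_mul, MvPolynomial.aeval_X, f1, MvPolynomial.algHom_C,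
            MvPolynomial.algebraMap_eq, hjj, f0, f2]
          ring
        · exact MvPolynomial.aeval_X _ _
      bwd_fwd := fun i => by
        fin_cases i
        · exact x3
        · change aeval bwd (X 1 - C a * aeval ![L0, X 2] A) = X 1
          rw [map_sub, map_mul, MvPolynomial.aeval_X, b1, MvPolynomial.algHom_C,
            MvPolynomial.algebraMap_eq, x5]
          ring
        · exact MvPolynomial.aeval_X _ _ }
  refine ⟨τ, fun F R _ _ x y z => ?_⟩
  rw [ev_aeval]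
  have l0 : ev (τ.fwd 0) x y z = x + algebraMap k R q * z ^ 2 := by
    change ev (X 0 + C q * X 2 ^ 2) x y z = _
    rw [ev_add, ev_mul, ev_pow, ev_C, ev_X, ev_X]
    rfl
  have l2 : ev (τ.fwd 2) x y z = z := ev_X 2 x y z
  have l1 : ev (τ.fwd 1) x y z = y - algebraMap k R a *
      e2 A (x + algebraMap k R q * z ^ 2) z := by
    have h3 : ev (aeval ![L0, X 2] A) x y z = e2 A (ev L0 x y z) (ev (X 2) x y z) :=
      e2_map A (aeval ![x, y, z] : MvPolynomial (Fin 3) k →ₐ[k] R) L0 (X 2)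
    have h5 : ev L0 x y z = x + algebraMap k R q * z ^ 2 := l0
    have h6 : ev (X 2 : MvPolynomial (Fin 3) k) x y z = z := l2
    change ev (X 1 - C a * aeval ![L0, X 2] A) x y z = _
    rw [ev_sub, ev_mul, ev_C, ev_X, h3, h5, h6]
    rfl
  rw [l0, l1, l2]

/-- binary forms of weight three vanish at `(1, 0)` -/
theorem e2_one_zero {A : MvPolynomial (Fin 2) k} (hA : IsWeightedHomogeneous ![2, 1] A 3)
    {R : Type} [CommRing R] [Algebra k R] (x : R) : e2 A x 0 = 0 := by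
  unfold e2
  rw [MvPolynomial.aeval_def, MvPolynomial.eval₂_eq']
  refine Finset.sum_eq_zero fun m hm => ?_
  have h1 := hA (MvPolynomial.mem_support_iff.1 hm)
  rw [Finsupp.weight_apply, Finsupp.sum_fintype _ _ (fun i => by simp), Fin.sum_univ_two] at h1
  have h2 : m 0 * 2 + m 1 * 1 = 3 := h1
  have h3 : m 1 ≠ 0 := by omega
  rw [Fin.prod_univ_two]
  change _ * (x ^ m 0 * 0 ^ m 1) = 0
  rw [zero_pow h3, mul_zero, mul_zero]

/-- **the first reduction**: we may assume that `F₀` has no linear term in `y` -/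
theorem red_A (h2 : (2 : k) ≠ 0) {F₀ : MvPolynomial (Fin 3) k}
    (h₀ : IsWeightedHomogeneous ![2, 3, 1] F₀ 6) (hy : F₀.coeff (Finsupp.single 1 2) ≠ 0) :
    ∃ (τ : ChgW ![2, 3, 1] k) (B : MvPolynomial (Fin 2) k),
      IsWeightedHomogeneous ![2, 1] B 6 ∧
      aeval τ.fwd F₀ = C (F₀.coeff (Finsupp.single 1 2)) * X 1 ^ 2 + rename jj B ∧
      (aeval τ.fwd F₀).coeff (Finsupp.single 0 3) = F₀.coeff (Finsupp.single 0 3) ∧
      (aeval τ.fwd F₀).coeff (Finsupp.single 1 2) = F₀.coeff (Finsupp.single 1 2) := by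
  obtain ⟨A, B, hA, -, hB, -, e₀⟩ := exists_dec6 (le_refl 6) h₀
  set a := F₀.coeff (Finsupp.single 1 2) with ha
  obtain ⟨τ, hτ⟩ := exists_chg6 (2 * a)⁻¹ 0 A hA
  have h4k : (4 : k) * a ≠ 0 := by
    refine mul_ne_zero ?_ hy
    have : (4 : k) = 2 * 2 := by norm_num
    rw [this]
    exact mul_ne_zero h2 h2
  have hB' : IsWeightedHomogeneous ![2, 1] (B - C (4 * a)⁻¹ * A ^ 2) 6 :=
    hB.sub ((hA.pow 2).C_mul _)
  have hev : ∀ (R : Type) [CommRing R] [Algebra k R] (x y z : R),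
      ev (aeval τ.fwd F₀) x y z = algebraMap k R a * y ^ 2 + e2 (B - C (4 * a)⁻¹ * A ^ 2) x z := by
    intro R _ _ x y z
    have q2 : 2 * algebraMap k R a * algebraMap k R (2 * a)⁻¹ = 1 := by
      rw [← map_ofNat (algebraMap k R) 2, ← map_mul, ← map_mul,
        mul_inv_cancel₀ (mul_ne_zero h2 hy), map_one]
    have q4 : algebraMap k R (4 * a)⁻¹ * (4 * algebraMap k R a) = 1 := by
      rw [← map_ofNat (algebraMap k R) 4, ← map_mul, ← map_mul, inv_mul_cancel₀ h4k, map_one]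
    have h5 : e2 (B - C (4 * a)⁻¹ * A ^ 2) x z = e2 B x z - algebraMap k R (4 * a)⁻¹ *
        e2 A x z ^ 2 := by
      unfold e2
      rw [map_sub, map_mul, map_pow, MvPolynomial.aeval_C]
    rw [hτ, map_zero, zero_mul, add_zero]
    conv_lhs => rw [e₀]
    rw [ev_add, ev_add, ev_mul, ev_mul, ev_C, ev_pow, ev_X, ev_jj, ev_jj, h5]
    change algebraMap k R a * (y - algebraMap k R (2 * a)⁻¹ * e2 A x z) ^ 2 +
      e2 A x z * (y - algebraMap k R (2 * a)⁻¹ * e2 A x z) + e2 B x z = _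
    set a' := algebraMap k R a
    set i := algebraMap k R (2 * a)⁻¹
    set j := algebraMap k R (4 * a)⁻¹
    set A' := e2 A x z
    set B' := e2 B x z
    have key : 4 * a' * (a' * (y - i * A') ^ 2 + A' * (y - i * A') + B' -
        (a' * y ^ 2 + (B' - j * A' ^ 2))) = 0 := by
      linear_combination ((2 * a' * i + 1) * A' ^ 2 - 4 * a' * y * A' - 2 * A' ^ 2) * q2 +
        A' ^ 2 * q4
    have key2 : a' * (y - i * A') ^ 2 + A' * (y - i * A') + B' -
        (a' * y ^ 2 + (B' - j * A' ^ 2)) = 0 := by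
      calc a' * (y - i * A') ^ 2 + A' * (y - i * A') + B' - (a' * y ^ 2 + (B' - j * A' ^ 2))
          = j * (4 * a') * (a' * (y - i * A') ^ 2 + A' * (y - i * A') + B' -
          (a' * y ^ 2 + (B' - j * A' ^ 2))) := by rw [q4, one_mul]
        _ = j * (4 * a' * (a' * (y - i * A') ^ 2 + A' * (y - i * A') + B' -
          (a' * y ^ 2 + (B' - j * A' ^ 2)))) := by ring
        _ = 0 := by rw [key, mul_zero]
    exact sub_eq_zero.1 key2
  have hw := wh_subst h₀ τ.hfwd
  refine ⟨τ, B - C (4 * a)⁻¹ * A ^ 2, hB', ext_ev fun R _ _ x y z => ?_, ?_, ?_⟩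
  · rw [hev, ev_add, ev_mul, ev_C, ev_pow, ev_X, ev_jj]
    rfl
  · rw [coeff_x3 hw, coeff_x3 h₀, hτ, e2_one_zero hA]
    simp
  · rw [ha, coeff_y2 hw, coeff_y2 h₀, hτ]
    simp only [map_zero, zero_mul, add_zero, e2_one_zero hA, mul_zero, sub_zero]

end small

variable {K : Type} [Field K] {G : ∀ (R : Type) [CommRing R] [Algebra K R], Prop}

/-- the double plane -/
noncomputable def T2 (a : K) (P Q : MvPolynomial (Fin 3) K) : KFn K :=
  (A4 K).cls ⟨fun {R} _ _ x => algebraMap K R a * x.2.1 ^ 2 +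
    ev P x.2.2.1 x.1 x.2.2.2 * x.2.1 + ev Q x.2.2.1 x.1 x.2.2.2, fun f x => by
    rw [map_add, map_add, map_mul, map_mul, map_pow, ev_map, ev_map, AlgHom.commutes]
    rfl⟩

theorem ev_disc (a : K) (P Q : MvPolynomial (Fin 3) K) {R : Type} [CommRing R] [Algebra K R]
    (z x r : R) : ev (P ^ 2 - C (4 * a) * Q) z x r =
      ev P z x r ^ 2 - 4 * algebraMap K R a * ev Q z x r := by
  rw [ev_sub, ev_pow, ev_mul, ev_C, map_mul, map_ofNat]

/-- completing the square -/
noncomputable def isoT2 (h2 : (2 : K) ≠ 0) {a : K} (ha : a ≠ 0) (P Q : MvPolynomial (Fin 3) K) :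
    Iso (T2 a P Q) (CW (P ^ 2 - C (4 * a) * Q)) where
  hom {R} _ _ x := ⟨(x.1.2.2.1, x.1.1, x.1.2.2.2,
      2 * algebraMap K R a * x.1.2.1 + ev P x.1.2.2.1 x.1.1 x.1.2.2.2), by
    have h : algebraMap K R a * x.1.2.1 ^ 2 + ev P x.1.2.2.1 x.1.1 x.1.2.2.2 * x.1.2.1 +
      ev Q x.1.2.2.1 x.1.1 x.1.2.2.2 = 0 := x.2
    change (2 * algebraMap K R a * x.1.2.1 + ev P x.1.2.2.1 x.1.1 x.1.2.2.2) ^ 2 -
      ev (P ^ 2 - C (4 * a) * Q) x.1.2.2.1 x.1.1 x.1.2.2.2 = 0
    rw [ev_disc]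
    linear_combination 4 * algebraMap K R a * h⟩
  inv {R} _ _ y := ⟨(y.1.2.1, algebraMap K R (2 * a)⁻¹ *
      (y.1.2.2.2 - ev P y.1.1 y.1.2.1 y.1.2.2.1), y.1.1, y.1.2.2.1), by
    have h : y.1.2.2.2 ^ 2 - (ev P y.1.1 y.1.2.1 y.1.2.2.1 ^ 2 -
        4 * algebraMap K R a * ev Q y.1.1 y.1.2.1 y.1.2.2.1) = 0 :=
      (congrArg (fun v => y.1.2.2.2 ^ 2 - v)
        (ev_disc a P Q y.1.1 y.1.2.1 y.1.2.2.1)).symm.trans y.2
    have h3 : algebraMap K R (2 * a) * algebraMap K R (2 * a)⁻¹ = 1 := by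
      rw [← map_mul, mul_inv_cancel₀ (mul_ne_zero h2 ha), map_one]
    rw [map_mul, map_ofNat] at h3
    have h5 : algebraMap K R (4 * a)⁻¹ * (4 * algebraMap K R a) = 1 := by
      have h6 : (4 : K) * a ≠ 0 := by
        refine mul_ne_zero ?_ ha
        have : (4 : K) = 2 * 2 := by norm_num
        rw [this]
        exact mul_ne_zero h2 h2
      rw [← map_ofNat (algebraMap K R) 4, ← map_mul, ← map_mul, inv_mul_cancel₀ h6, map_one]
    change algebraMap K R a * (algebraMap K R (2 * a)⁻¹ *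
      (y.1.2.2.2 - ev P y.1.1 y.1.2.1 y.1.2.2.1)) ^ 2 + ev P y.1.1 y.1.2.1 y.1.2.2.1 *
      (algebraMap K R (2 * a)⁻¹ * (y.1.2.2.2 - ev P y.1.1 y.1.2.1 y.1.2.2.1)) +
      ev Q y.1.1 y.1.2.1 y.1.2.2.1 = 0
    set i := algebraMap K R (2 * a)⁻¹
    set j := algebraMap K R (4 * a)⁻¹
    set a' := algebraMap K R a
    set Y := y.1.2.2.2
    set A := ev P y.1.1 y.1.2.1 y.1.2.2.1
    set B := ev Q y.1.1 y.1.2.1 y.1.2.2.1
    have key : 4 * a' * (a' * (i * (Y - A)) ^ 2 + A * (i * (Y - A)) + B) = 0 := by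
      linear_combination h + ((Y - A) ^ 2 * (2 * a' * i + 1) + 2 * A * (Y - A)) * h3
    calc a' * (i * (Y - A)) ^ 2 + A * (i * (Y - A)) + B
        = j * (4 * a') * (a' * (i * (Y - A)) ^ 2 + A * (i * (Y - A)) + B) := by rw [h5, one_mul]
      _ = j * (4 * a' * (a' * (i * (Y - A)) ^ 2 + A * (i * (Y - A)) + B)) := by ring
      _ = 0 := by rw [key, mul_zero]⟩
  inv_hom {R} _ _ x := by
    have h3 : algebraMap K R (2 * a) * algebraMap K R (2 * a)⁻¹ = 1 := by
      rw [← map_mul, mul_inv_cancel₀ (mul_ne_zero h2 ha), map_one]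
    rw [map_mul, map_ofNat] at h3
    refine Subtype.ext (Prod.ext rfl (Prod.ext ?_ rfl))
    change algebraMap K R (2 * a)⁻¹ * (2 * algebraMap K R a * x.1.2.1 +
      ev P x.1.2.2.1 x.1.1 x.1.2.2.2 - ev P x.1.2.2.1 x.1.1 x.1.2.2.2) = x.1.2.1
    linear_combination x.1.2.1 * h3
  hom_inv {R} _ _ y := by
    have h3 : algebraMap K R (2 * a) * algebraMap K R (2 * a)⁻¹ = 1 := by
      rw [← map_mul, mul_inv_cancel₀ (mul_ne_zero h2 ha), map_one]
    rw [map_mul, map_ofNat] at h3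
    refine Subtype.ext (Prod.ext rfl (Prod.ext rfl (Prod.ext rfl ?_)))
    change 2 * algebraMap K R a * (algebraMap K R (2 * a)⁻¹ *
      (y.1.2.2.2 - ev P y.1.1 y.1.2.1 y.1.2.2.1)) + ev P y.1.1 y.1.2.1 y.1.2.2.1 = y.1.2.2.2
    linear_combination (y.1.2.2.2 - ev P y.1.1 y.1.2.1 y.1.2.2.1) * h3
  nat {R S} _ _ _ _ f x := by
    refine Subtype.ext (Prod.ext rfl (Prod.ext rfl (Prod.ext rfl ?_)))
    change f (2 * algebraMap K R a * x.1.2.1 + ev P x.1.2.2.1 x.1.1 x.1.2.2.2) =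
      2 * algebraMap K S a * f x.1.2.1 + ev P (f x.1.2.2.1) (f x.1.1) (f x.1.2.2.2)
    rw [map_add, map_mul, map_mul, map_ofNat, AlgHom.commutes, ev_map]

/-- **(b)** the cone over the trinomial is the cone over the double plane -/
theorem mem_sq (h2 : (2 : K) ≠ 0) {F₀ F₁ F₂ : MvPolynomial (Fin 3) K} {s t : ℕ} {a : K}
    (ha : a ≠ 0) {A₀ B₀ A₁ B₁ A₂ B₂ : MvPolynomial (Fin 2) K}
    (e₀ : F₀ = C a * X 1 ^ 2 + rename jj A₀ * X 1 + rename jj B₀)
    (e₁ : F₁ = rename jj A₁ * X 1 + rename jj B₁)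
    (e₂ : F₂ = rename jj A₂ * X 1 + rename jj B₂) (c : K)
    (h : (CW (HH s t a c A₀ B₀ A₁ B₁ A₂ B₂)).Mem G) : (TS F₀ F₁ F₂ s t c).Mem G := by
  let P : MvPolynomial (Fin 3) K :=
    rename kk A₀ - X 2 ^ t * rename kk A₁ + C c * X 2 ^ (s + t) * rename kk A₂
  let Q : MvPolynomial (Fin 3) K :=
    rename kk B₀ - X 2 ^ t * rename kk B₁ + C c * X 2 ^ (s + t) * rename kk B₂
  have hP : ∀ (R : Type) [CommRing R] [Algebra K R] (z x r : R), ev P z x r =
      e2 A₀ x z - r ^ t * e2 A₁ x z + algebraMap K R c * r ^ (s + t) * e2 A₂ x z := by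
    intro R _ _ z x r
    change ev (_ - _ + _) _ _ _ = _
    rw [ev_add, ev_sub, ev_mul, ev_mul, ev_mul, ev_C, ev_kk, ev_kk, ev_kk, ev_pow, ev_pow, ev_X]
    rfl
  have hQ : ∀ (R : Type) [CommRing R] [Algebra K R] (z x r : R), ev Q z x r =
      e2 B₀ x z - r ^ t * e2 B₁ x z + algebraMap K R c * r ^ (s + t) * e2 B₂ x z := by
    intro R _ _ z x r
    change ev (_ - _ + _) _ _ _ = _
    rw [ev_add, ev_sub, ev_mul, ev_mul, ev_mul, ev_C, ev_kk, ev_kk, ev_kk, ev_pow, ev_pow, ev_X]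
    rfl
  have hT : ∀ (R : Type) [CommRing R] [Algebra K R] (x y z r : R),
      ev F₀ x y z - r ^ t * ev F₁ x y z + algebraMap K R c * r ^ (s + t) * ev F₂ x y z =
      algebraMap K R a * y ^ 2 + ev P z x r * y + ev Q z x r := by
    intro R _ _ x y z r
    rw [e₀, e₁, e₂, hP, hQ]
    simp only [ev_add, ev_mul, ev_C, ev_pow, ev_jj, ev_X]
    change algebraMap K R a * y ^ 2 + e2 A₀ x z * y + e2 B₀ x z -
      r ^ t * (e2 A₁ x z * y + e2 B₁ x z) +
      algebraMap K R c * r ^ (s + t) * (e2 A₂ x z * y + e2 B₂ x z) = _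
    ring
  refine Mem.of_iso (F' := T2 a P Q) ?_ (Mem.of_iso (isoT2 h2 ha P Q) h)
  exact
    { hom := fun {R} _ _ x => ⟨x.1, (hT R x.1.1 x.1.2.1 x.1.2.2.1 x.1.2.2.2).symm.trans x.2⟩
      inv := fun {R} _ _ x => ⟨x.1, (hT R x.1.1 x.1.2.1 x.1.2.2.1 x.1.2.2.2).trans x.2⟩
      inv_hom := fun _ => rfl
      hom_inv := fun _ => rfl
      nat := fun _ _ => rfl }

/-- **(b)** as in the plan -/
theorem exists_sq (h2 : (2 : K) ≠ 0) {k : Type} [Field k] [Algebra k K]
    {F₀ F₁ F₂ : MvPolynomial (Fin 3) k} {s t : ℕ} (hle : s + t ≤ 6) {a : k}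
    (ha : a ≠ 0) {A₀ B₀ A₁ B₁ A₂ B₂ : MvPolynomial (Fin 2) k}
    (hA₀ : IsWeightedHomogeneous ![2, 1] A₀ 3) (hB₀ : IsWeightedHomogeneous ![2, 1] B₀ 6)
    (hA₁ : IsWeightedHomogeneous ![2, 1] A₁ (6 - t - 3)) (hA₁' : 6 - t < 3 → A₁ = 0)
    (hB₁ : IsWeightedHomogeneous ![2, 1] B₁ (6 - t))
    (hA₂ : IsWeightedHomogeneous ![2, 1] A₂ (6 - (s + t) - 3)) (hA₂' : 6 - (s + t) < 3 → A₂ = 0)
    (hB₂ : IsWeightedHomogeneous ![2, 1] B₂ (6 - (s + t)))
    (e₀ : F₀ = C a * X 1 ^ 2 + rename jj A₀ * X 1 + rename jj B₀)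
    (e₁ : F₁ = rename jj A₁ * X 1 + rename jj B₁)
    (e₂ : F₂ = rename jj A₂ * X 1 + rename jj B₂) (c : K) :
    ∃ H : MvPolynomial (Fin 3) K, IsWeightedHomogeneous wt H 6 ∧
      (∀ (R : Type) [CommRing R] [Algebra K R] (z x r : R), ev H z x r =
        (e2 (MvPolynomial.map (algebraMap k K) A₀) x z -
          r ^ t * e2 (MvPolynomial.map (algebraMap k K) A₁) x z +
          algebraMap K R c * r ^ (s + t) * e2 (MvPolynomial.map (algebraMap k K) A₂) x z) ^ 2 -
        4 * algebraMap K R (algebraMap k K a) * (e2 (MvPolynomial.map (algebraMap k K) B₀) x z -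
          r ^ t * e2 (MvPolynomial.map (algebraMap k K) B₁) x z +
          algebraMap K R c * r ^ (s + t) * e2 (MvPolynomial.map (algebraMap k K) B₂) x z)) ∧
      ((CW H).Mem G → (TS (MvPolynomial.map (algebraMap k K) F₀)
        (MvPolynomial.map (algebraMap k K) F₁) (MvPolynomial.map (algebraMap k K) F₂)
        s t c).Mem G) := by
  refine ⟨HH s t (algebraMap k K a) c (MvPolynomial.map (algebraMap k K) A₀)
    (MvPolynomial.map (algebraMap k K) B₀) (MvPolynomial.map (algebraMap k K) A₁)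
    (MvPolynomial.map (algebraMap k K) B₁) (MvPolynomial.map (algebraMap k K) A₂)
    (MvPolynomial.map (algebraMap k K) B₂), ?_, fun R _ _ z x r => ev_HH _ _ _ _ _ _ _ _ _ _ _ _ _ _,
    fun h => mem_sq h2 ?_ ?_ ?_ ?_ c h⟩
  · exact wh_HH hle _ _ (wh_map hA₀ _) (wh_map hB₀ _) (wh_map hA₁ _)
      (fun h => by rw [hA₁' h, map_zero]) (wh_map hB₁ _) (wh_map hA₂ _)
      (fun h => by rw [hA₂' h, map_zero]) (wh_map hB₂ _)
  · intro h
    exact ha ((map_eq_zero_iff _ (algebraMap k K).injective).1 h)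
  · rw [e₀, map_add, map_add, map_mul, map_mul, map_pow, MvPolynomial.map_C, MvPolynomial.map_X,
      MvPolynomial.map_rename, MvPolynomial.map_rename]
  · rw [e₁, map_add, map_mul, MvPolynomial.map_X, MvPolynomial.map_rename, MvPolynomial.map_rename]
  · rw [e₂, map_add, map_mul, MvPolynomial.map_X, MvPolynomial.map_rename, MvPolynomial.map_rename]

end Pool.Agent.Helper79.TP
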