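import Pool.Agent.Helper79.TP.Ext
import Pool.Agent.Helper9.TP.Prod
import Pool.Agent.Helper79.CP.Geo6

/-!
# Cone pencils: the product cases
-/

set_option autoImplicit false

namespace Pool.Agent.Helper79.TP

open Polynomial
open Pool.Agent.Helper87.CC (IsLC isLC_std ft_of_surj ft_of_hom ft_loc ft_alg)
open Pool.Agent.Helper29.CQ (FormalClass)
open Pool.Agent.Helper67.CQ
open Pool.Agent.Helper9.QP (sg sg_X ex_equiv)
open Pool.Agent.Helper9.TP
open Pool.Agent.Helper71.CP (ev ev_map wt NoX NoY Chg)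
open MvPolynomial (IsWeightedHomogeneous)

variable {p : ℕ} {P : ∀ (A : Type) [CommRing A], Prop} {k : Type} [Field k]

section

variable (v : Fin 3 → k) (i : Fin 3) (m : Fin 2 → Fin 3) (Y : Fin 3 → MvPolynomial (Fin 2) k)
  {b : ℕ} {ws : Fin 3 → ℕ}
  (hv : v i ≠ 0) (hY : Y i = 0) (hm : ∀ s, Y (m s) = MvPolynomial.X s)
  (hall : ∀ l, l = i ∨ ∃ s, l = m s) (hw : ∀ s, ws (m s) = (![1, b] : Fin 2 → ℕ) s)

include hY hm hall hw in
theorem rs_homw {d : ℕ} {F : MvPolynomial (Fin 3) k} (hF : Hom ws d F) :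
    Hom ![1, b] d (rs Y F) := by
  intro R _ _ x t
  have h1 : ∀ y : Fin 2 → R, MvPolynomial.aeval y (rs Y F) =
      MvPolynomial.aeval (fun l => MvPolynomial.aeval y (Y l)) F := by
    intro y
    have h2 : (MvPolynomial.aeval y).comp (rs Y) =
        MvPolynomial.aeval (fun l => MvPolynomial.aeval y (Y l)) := by
      apply MvPolynomial.algHom_ext
      intro l
      simp [rs]
    exact DFunLike.congr_fun h2 F
  rw [h1, h1]
  have h3 := hF R (fun l => MvPolynomial.aeval x (Y l)) t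
  rw [← h3]
  congr 1
  congr 1
  funext l
  rcases hall l with rfl | ⟨s, rfl⟩
  · rw [hY, map_zero, map_zero, mul_zero]
  · rw [hm, MvPolynomial.aeval_X, MvPolynomial.aeval_X, hw]

include hv hY hm hall hw in
theorem prod_stepw [Finite k] (hP : FormalClass p P) (hk : (p : k) = 0) {n : ℕ} (hn : n ≠ 0)
    {d e N : ℕ} {A B u : MvPolynomial (Fin 3) k} (hA : Hom ws d A)
    (hB : Hom ws d B) (hu : Hom ws e u) (hBu : B ∣ u ^ N)
    (iA : InvP A v) (iB : InvP B v) (iu : InvP u v) : QA P n A B ⊥ u := by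
  obtain ⟨f, hf⟩ := ex_equiv v i m Y hv hY hm hall
  apply qa_equiv f
  rw [hf, hf, hf, sg_inv v Y A iA, sg_inv v Y B iB, sg_inv v Y u iu]
  have h1 : rs Y B ∣ rs Y u ^ N := by
    rw [← map_pow]
    exact map_dvd (rs Y) hBu
  exact qa_poly hP h1 (qa_bin hP hk hn (b := b) (rs_homw i m Y hY hm hall hw hA)
    (rs_homw i m Y hY hm hall hw hB) (rs_homw i m Y hY hm hall hw hu) h1)

end

theorem invP_of_noX {F : MvPolynomial (Fin 3) k} (h : NoX F) : InvP F ![1, 0, 0] := by
  intro R _ _ x y z t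
  simp only [Matrix.cons_val_zero, Matrix.cons_val_one, Matrix.cons_val, map_zero, mul_zero,
    add_zero]
  rw [h.ev, ← h.ev x y z]

theorem invP_of_noY {F : MvPolynomial (Fin 3) k} (h : NoY F) : InvP F ![0, 1, 0] := by
  intro R _ _ x y z t
  simp only [Matrix.cons_val_zero, Matrix.cons_val_one, Matrix.cons_val, map_zero, mul_zero,
    add_zero]
  rw [h.ev, ← h.ev x y z]

/-- **(P6)** The product case, the direction `y`. -/
theorem prod6_y [Finite k] (hP : FormalClass p P) (hk : (p : k) = 0) {n : ℕ}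
    (hn : n ≠ 0) (F E : MvPolynomial (Fin 3) k) (hF : IsWeightedHomogeneous wt F 6)
    (hE : IsWeightedHomogeneous wt E 3) (h : NoY F) (h' : NoY E) :
    QA P n F (E ^ 2) ⊥ (F * E) := by
  have hF' : Hom wt 6 F := Hom.of_wh hF
  have hE' : Hom wt 3 E := Hom.of_wh hE
  refine prod_stepw ![0, 1, 0] 1 ![0, 2] ![MvPolynomial.X 0, 0, MvPolynomial.X 1] (b := 1)
    (ws := wt) (d := 6) (e := 6 + 3) (N := 2) one_ne_zero rfl ?_ ?_ ?_ hP hk hn hF' (hE'.pow 2)
    (hF'.mul hE') ⟨F ^ 2, by ring⟩ (invP_of_noY h) ((invP_of_noY h').pow 2)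
    ((invP_of_noY h).mul (invP_of_noY h'))
  · intro s
    fin_cases s <;> rfl
  · intro l
    fin_cases l
    · exact Or.inr ⟨0, rfl⟩
    · exact Or.inl rfl
    · exact Or.inr ⟨1, rfl⟩
  · intro s
    fin_cases s <;> rfl

/-- the product case, the direction `x`, over the field itself -/
theorem prod6_x0 [Finite k] (hP : FormalClass p P) (hk : (p : k) = 0) {n : ℕ}
    (hn : n ≠ 0) (F E : MvPolynomial (Fin 3) k) (hF : IsWeightedHomogeneous wt F 6)
    (hE : IsWeightedHomogeneous wt E 3) (h : NoX F) (h' : NoX E) :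
    QA P n F (E ^ 2) ⊥ (F * E) := by
  have hF' : Hom wt 6 F := Hom.of_wh hF
  have hE' : Hom wt 3 E := Hom.of_wh hE
  refine prod_stepw ![1, 0, 0] 0 ![2, 1] ![0, MvPolynomial.X 1, MvPolynomial.X 0] (b := 2)
    (ws := wt) (d := 6) (e := 6 + 3) (N := 2) one_ne_zero rfl ?_ ?_ ?_ hP hk hn hF' (hE'.pow 2)
    (hF'.mul hE') ⟨F ^ 2, by ring⟩ (invP_of_noX h) ((invP_of_noX h').pow 2)
    ((invP_of_noX h).mul (invP_of_noX h'))
  · intro s
    fin_cases s <;> rfl
  · intro l
    fin_cases l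
    · exact Or.inl rfl
    · exact Or.inr ⟨1, rfl⟩
    · exact Or.inr ⟨0, rfl⟩
  · intro s
    fin_cases s <;> rfl

/-- changes of coordinates -/
noncomputable def chgE (τ : Chg k) : MvPolynomial (Fin 3) k ≃ₐ[k] MvPolynomial (Fin 3) k :=
  AlgEquiv.ofAlgHom (MvPolynomial.aeval τ.fwd) (MvPolynomial.aeval τ.bwd)
    (by
      apply MvPolynomial.algHom_ext
      intro i
      rw [AlgHom.comp_apply, MvPolynomial.aeval_X, τ.fwd_bwd]
      rfl)
    (by
      apply MvPolynomial.algHom_ext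
      intro i
      rw [AlgHom.comp_apply, MvPolynomial.aeval_X, τ.bwd_fwd]
      rfl)

theorem chgE_apply (τ : Chg k) (x : MvPolynomial (Fin 3) k) :
    (chgE τ).toRingEquiv x = MvPolynomial.aeval τ.fwd x := rfl

/-- **(P6)** The product case, the direction `x`. -/
theorem prod6_x [Finite k] (hP : FormalClass p P) (hk : (p : k) = 0) {n : ℕ}
    (hn : n ≠ 0) (F E : MvPolynomial (Fin 3) k) (hF : IsWeightedHomogeneous wt F 6)
    (hE : IsWeightedHomogeneous wt E 3) (k' : Type) [Field k'] [Algebra k k'] [Module.Finite k k']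
    (τ : Chg k') (h : NoX (MvPolynomial.aeval τ.fwd (MvPolynomial.map (algebraMap k k') F)))
    (h' : NoX (MvPolynomial.aeval τ.fwd (MvPolynomial.map (algebraMap k k') E))) :
    QA P n F (E ^ 2) ⊥ (F * E) := by
  have hf : Finite k' := Module.finite_of_finite k
  have hk' : (p : k') = 0 := by rw [← map_natCast (algebraMap k k'), hk, map_zero]
  apply qa_ext hP k'
  apply qa_equiv (chgE τ).toRingEquiv
  rw [chgE_apply, chgE_apply, chgE_apply, map_pow, map_mul, map_pow, map_mul]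
  exact prod6_x0 hP hk' hn _ _
    (Pool.Agent.Helper49.CP.wh_aeval (Pool.Agent.Helper79.CP.hom_map hF) τ.hfwd)
    (Pool.Agent.Helper49.CP.wh_aeval (Pool.Agent.Helper79.CP.hom_map hE) τ.hfwd) h h'

end Pool.Agent.Helper79.TP
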