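import Pool.Agent.Helper9.TP.QA
import Pool.Agent.Helper71.PN.Ext
import Pool.Agent.Helper9.QP.Arith

/-!
# Cyclic covers: transfer along finite extensions of the base field
-/

set_option autoImplicit false

namespace Pool.Agent.Helper79.TP

open Polynomial TensorProduct
open Pool.Agent.Helper87.CC (IsLC isLC_std ft_of_surj ft_of_hom ft_loc ft_alg)
open Pool.Agent.Helper29.CQ (FormalClass)
open Pool.Agent.Helper67.CQ
open Pool.Agent.Helper9.QP
open Pool.Agent.Helper9.TP

variable {p : ℕ} {P : ∀ (A : Type) [CommRing A], Prop}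

theorem tens_ext {k A B E : Type} [Field k] [CommRing A] [CommRing B] [CommRing E] [Algebra k A]
    [Algebra k B] (f g : A ⊗[k] B →+* E) (h1 : ∀ a, f (a ⊗ₜ 1) = g (a ⊗ₜ 1))
    (h2 : ∀ b, f (1 ⊗ₜ b) = g (1 ⊗ₜ b)) : f = g := by
  refine RingHom.ext fun x => ?_
  induction x using TensorProduct.induction_on with
  | zero => rw [map_zero, map_zero]
  | tmul a b =>
    have h3 : a ⊗ₜ[k] b = (a ⊗ₜ[k] (1 : B)) * ((1 : A) ⊗ₜ[k] b) := by
      rw [Algebra.TensorProduct.tmul_mul_tmul, mul_one, one_mul]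
    rw [h3, map_mul, map_mul, h1, h2]
  | add x y hx hy => rw [map_add, map_add, hx, hy]

/-- homomorphisms on a tensor product -/
theorem tens_ex {k A B E : Type} [Field k] [CommRing A] [CommRing B] [CommRing E] [Algebra k A]
    [Algebra k B] (f : A →+* E) (g : B →+* E)
    (h : ∀ x, f (algebraMap k A x) = g (algebraMap k B x)) :
    ∃ r : A ⊗[k] B →+* E, (∀ a, r (a ⊗ₜ 1) = f a) ∧ ∀ b, r (1 ⊗ₜ b) = g b := by
  let _ : Algebra k E := (f.comp (algebraMap k A)).toAlgebra
  let f' : A →ₐ[k] E := { f with commutes' := fun x => rfl }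
  let g' : B →ₐ[k] E := { g with commutes' := fun x => (h x).symm }
  refine ⟨(Algebra.TensorProduct.productMap f' g').toRingHom, fun a => ?_, fun b => ?_⟩
  · change Algebra.TensorProduct.productMap f' g' (a ⊗ₜ 1) = f a
    rw [Algebra.TensorProduct.productMap_apply_tmul, map_one, mul_one]
    rfl
  · change Algebra.TensorProduct.productMap f' g' (1 ⊗ₜ b) = g b
    rw [Algebra.TensorProduct.productMap_apply_tmul, map_one, one_mul]
    rfl

theorem pk_ext (hP : FormalClass p P) {k : Type} [Field k] (k' : Type) [Field k']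
    [Algebra k k'] [Module.Finite k k'] {n : ℕ} {T : Type} [CommRing T] [Algebra k T]
    (hT : Algebra.FiniteType ℤ T) (a : T) (h : PK P n (a ⊗ₜ[k] (1 : k'))) : PK P n a := by
  set B := AdjoinRoot (X ^ n - C a : T[X]) with hB
  have hK := isKum_std n a
  let i : T →+* B := AdjoinRoot.of _
  have hi : ∀ x : k, i (algebraMap k T x) = algebraMap k B x := fun x => rfl
  let i' : T ⊗[k] k' →ₐ[k] B ⊗[k] k' := Algebra.TensorProduct.map
    { i with commutes' := hi } (AlgHom.id k k')
  have hK' : IsKum (i' : T ⊗[k] k' →+* B ⊗[k] k') (AdjoinRoot.root (X ^ n - C a : T[X]) ⊗ₜ 1) n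
      (a ⊗ₜ[k] (1 : k')) := by
    refine ⟨?_, ?_, ?_⟩
    · rw [Algebra.TensorProduct.tmul_pow, one_pow, hK.rel]
      have h1 : (i' : T ⊗[k] k' →+* B ⊗[k] k') (a ⊗ₜ 1) = i a ⊗ₜ 1 :=
        Algebra.TensorProduct.map_tmul _ _ _ _
      exact h1.symm
    · intro E _ v c hc
      obtain ⟨f, hf1, hf2⟩ := hK.ex E
        (v.comp (Algebra.TensorProduct.includeLeftRingHom : T →+* T ⊗[k] k')) c hc
      obtain ⟨r, hr1, hr2⟩ := tens_ex (k := k) (A := B) (B := k') f
        (v.comp (Algebra.TensorProduct.includeRight : k' →ₐ[k] T ⊗[k] k').toRingHom) (by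
          intro x
          have h1 := RingHom.congr_fun hf1 (algebraMap k T x)
          change f (i (algebraMap k T x)) = v ((algebraMap k T x) ⊗ₜ 1) at h1
          change f (i (algebraMap k T x)) = v (1 ⊗ₜ algebraMap k k' x)
          rw [h1, Algebra.algebraMap_eq_smul_one, Algebra.algebraMap_eq_smul_one,
            TensorProduct.smul_tmul])
      refine ⟨r, tens_ext _ _ ?_ ?_, ?_⟩
      · intro b
        rw [RingHom.comp_apply]
        have h1 : (i' : T ⊗[k] k' →+* B ⊗[k] k') (b ⊗ₜ 1) = i b ⊗ₜ 1 :=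
          Algebra.TensorProduct.map_tmul _ _ _ _
        rw [h1, hr1]
        exact RingHom.congr_fun hf1 b
      · intro b
        rw [RingHom.comp_apply]
        have h1 : (i' : T ⊗[k] k' →+* B ⊗[k] k') (1 ⊗ₜ b) = i 1 ⊗ₜ b :=
          Algebra.TensorProduct.map_tmul _ _ _ _
        rw [h1, map_one, hr2]
        rfl
      · rw [hr1]
        exact hf2
    · intro E _ f g hfg hw
      have h3 : f.comp (Algebra.TensorProduct.includeLeftRingHom : B →+* B ⊗[k] k') =
          g.comp Algebra.TensorProduct.includeLeftRingHom := by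
        refine hK.uniq E _ _ ?_ hw
        refine RingHom.ext fun b => ?_
        have h1 : (i' : T ⊗[k] k' →+* B ⊗[k] k') (b ⊗ₜ 1) = i b ⊗ₜ 1 :=
          Algebra.TensorProduct.map_tmul _ _ _ _
        have h2 := RingHom.congr_fun hfg (b ⊗ₜ 1)
        rw [RingHom.comp_apply, RingHom.comp_apply, h1] at h2
        exact h2
      refine tens_ext _ _ (fun b => RingHom.congr_fun h3 b) fun b => ?_
      have h1 : (i' : T ⊗[k] k' →+* B ⊗[k] k') (1 ⊗ₜ b) = i 1 ⊗ₜ b :=
        Algebra.TensorProduct.map_tmul _ _ _ _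
      rw [map_one] at h1
      have h2 := RingHom.congr_fun hfg (1 ⊗ₜ b)
      rw [RingHom.comp_apply, RingHom.comp_apply, h1] at h2
      exact h2
  obtain ⟨e1⟩ := (isKum_std n (a ⊗ₜ[k] (1 : k'))).equiv (RingEquiv.refl _) hK'
  have h2 : P (B ⊗[k] k') := hP.iso _ _ e1 h
  rcases subsingleton_or_nontrivial B with h0 | h0
  · exact p_zero hP h0
  have h3 : Module.Free B (B ⊗[k] k') := inferInstance
  have h4 : Module.Finite B (B ⊗[k] k') := inferInstance
  have h5 : Nontrivial (B ⊗[k] k') := by
    obtain ⟨i⟩ := (Module.Free.chooseBasis k k').index_nonempty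
    let b := Module.Basis.baseChange B (Module.Free.chooseBasis k k')
    exact ⟨⟨b i, 0, b.ne_zero i⟩⟩
  exact hP.transfer B (B ⊗[k] k') (hK.ft hT) h2

/-- **transfer** -/
theorem qa_ext (hP : FormalClass p P) {k : Type} [Field k] [Finite k] (k' : Type) [Field k']
    [Algebra k k'] [Module.Finite k k'] {n : ℕ} {A B u : MvPolynomial (Fin 3) k}
    (h : QA P n (MvPolynomial.map (algebraMap k k') A) (MvPolynomial.map (algebraMap k k') B) ⊥
      (MvPolynomial.map (algebraMap k k') u)) : QA P n A B ⊥ u := by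
  intro T _ j a hj hG ha
  let _ : Algebra k T := (j.comp MvPolynomial.C).toAlgebra
  have hjC : ∀ x : k, algebraMap k T x = j (MvPolynomial.C x) := fun x => rfl
  let iL : T →+* T ⊗[k] k' := Algebra.TensorProduct.includeLeftRingHom
  let iR : k' →+* T ⊗[k] k' := (Algebra.TensorProduct.includeRight : k' →ₐ[k] T ⊗[k] k').toRingHom
  have hLR : ∀ x : k, iL (algebraMap k T x) = iR (algebraMap k k' x) := by
    intro x
    change (algebraMap k T x) ⊗ₜ[k] (1 : k') = (1 : T) ⊗ₜ[k] algebraMap k k' x
    rw [Algebra.algebraMap_eq_smul_one, Algebra.algebraMap_eq_smul_one, TensorProduct.smul_tmul]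
  let j' : MvPolynomial (Fin 3) k' →+* T ⊗[k] k' :=
    MvPolynomial.eval₂Hom iR fun i => iL (j (MvPolynomial.X i))
  have hj' : j'.comp (MvPolynomial.map (algebraMap k k')) = iL.comp j := by
    apply MvPolynomial.ringHom_ext
    · intro x
      rw [RingHom.comp_apply, RingHom.comp_apply, MvPolynomial.map_C]
      change MvPolynomial.eval₂ _ _ _ = _
      rw [MvPolynomial.eval₂_C, ← hLR, hjC]
    · intro i
      rw [RingHom.comp_apply, RingHom.comp_apply, MvPolynomial.map_X]
      change MvPolynomial.eval₂ _ _ _ = _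
      rw [MvPolynomial.eval₂_X]
  have hj1 : ∀ x, j' (MvPolynomial.map (algebraMap k k') x) = iL (j x) := fun x =>
    RingHom.congr_fun hj' x
  have hjR : ∀ x, j' (MvPolynomial.C x) = iR x := by
    intro x
    change MvPolynomial.eval₂ _ _ _ = _
    rw [MvPolynomial.eval₂_C]
  have hLC : IsLC j' ⊥ (MvPolynomial.map (algebraMap k k') u) := by
    refine ⟨?_, ?_, ?_, ?_⟩
    · intro b hb
      rw [Ideal.mem_bot.1 hb, map_zero]
    · rw [hj1]
      exact hj.unit.map iL
    · intro E _ v _ hv
      obtain ⟨g, hg⟩ := hj.ex E (v.comp (MvPolynomial.map (algebraMap k k'))) (fun b hb => by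
        rw [Ideal.mem_bot.1 hb, map_zero]) hv
      obtain ⟨r, hr1, hr2⟩ := tens_ex (k := k) (A := T) (B := k') g (v.comp MvPolynomial.C) (by
        intro x
        have h1 := RingHom.congr_fun hg (MvPolynomial.C x)
        rw [RingHom.comp_apply, RingHom.comp_apply, MvPolynomial.map_C] at h1
        rw [hjC, h1]
        rfl)
      refine ⟨r, ?_⟩
      apply MvPolynomial.ringHom_ext
      · intro x
        rw [RingHom.comp_apply, hjR]
        exact hr2 x
      · intro i
        rw [RingHom.comp_apply]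
        have h1 : j' (MvPolynomial.X i) = iL (j (MvPolynomial.X i)) := by
          change MvPolynomial.eval₂ _ _ _ = _
          rw [MvPolynomial.eval₂_X]
        rw [h1]
        have h2 := RingHom.congr_fun hg (MvPolynomial.X i)
        rw [RingHom.comp_apply, RingHom.comp_apply, MvPolynomial.map_X] at h2
        rw [← h2]
        exact hr1 _
    · intro E _ f g hfg
      have h3 : f.comp iL = g.comp iL := by
        apply hj.uniq
        rw [RingHom.comp_assoc, RingHom.comp_assoc, ← hj', ← RingHom.comp_assoc,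
          ← RingHom.comp_assoc, hfg]
      refine tens_ext _ _ (fun b => RingHom.congr_fun h3 b) fun b => ?_
      have h4 := RingHom.congr_fun hfg (MvPolynomial.C b)
      rw [RingHom.comp_apply, RingHom.comp_apply, hjR] at h4
      exact h4
  refine pk_ext (k := k) hP k' (lc_ft hj (Pool.Agent.Helper9.QP.ft_fin 3)) a ?_
  refine h (T ⊗[k] k') j' (a ⊗ₜ[k] (1 : k')) hLC ?_ ?_
  · rw [hj1]
    exact hG.map iL
  · rw [hj1, hj1, ← ha, map_mul]
    rfl

end Pool.Agent.Helper79.TP
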