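import Pool.Agent.Helper79.TP.Net3
import Pool.Agent.Helper9.TP.Defs2
import Pool.Agent.Helper71.CQ.Decomp

/-!
# Three conics: a degenerate bundle with a transcendental parameter comes from a net of singular
conics
-/

set_option autoImplicit false

namespace Pool.Agent.Helper79.TP

open Pool.Agent.Helper9.TP
open Pool.Agent.Helper71.CP (ev ev_map)
open Pool.Agent.Helper79.TP.Net

section

variable {k : Type} [Field k]

/-- quadratic forms -/
noncomputable def qp (q : Fin 6 → k) : MvPolynomial (Fin 3) k :=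
  MvPolynomial.C (q 0) * MvPolynomial.X 0 ^ 2 +
    MvPolynomial.C (q 1) * (MvPolynomial.X 0 * MvPolynomial.X 1) +
    MvPolynomial.C (q 2) * MvPolynomial.X 1 ^ 2 +
    MvPolynomial.C (q 3) * (MvPolynomial.X 0 * MvPolynomial.X 2) +
    MvPolynomial.C (q 4) * (MvPolynomial.X 1 * MvPolynomial.X 2) +
    MvPolynomial.C (q 5) * MvPolynomial.X 2 ^ 2

theorem exists_qp {F : MvPolynomial (Fin 3) k} (hF : F.IsHomogeneous 2) :
    ∃ q : Fin 6 → k, F = qp q := by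
  obtain ⟨q, hq⟩ := Pool.Agent.Helper71.CQ.exists_qf hF
  refine ⟨q, ?_⟩
  have h := hq (MvPolynomial (Fin 3) k) MvPolynomial.X
  rw [MvPolynomial.aeval_X_left_apply] at h
  rw [h]
  rfl

/-- values of quadratic forms -/
def qv {R : Type} [CommRing R] (q : Fin 6 → R) (x y z : R) : R :=
  q 0 * x ^ 2 + q 1 * (x * y) + q 2 * y ^ 2 + q 3 * (x * z) + q 4 * (y * z) + q 5 * z ^ 2

theorem ev_qp (q : Fin 6 → k) {R : Type} [CommRing R] [Algebra k R] (x y z : R) :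
    ev (qp q) x y z = qv (fun e => algebraMap k R (q e)) x y z := by
  simp [ev, qp, qv]

theorem map_qp {K : Type} [Field K] [Algebra k K] (q : Fin 6 → k) :
    MvPolynomial.map (algebraMap k K) (qp q) = qp fun e => algebraMap k K (q e) := by
  simp [qp]

/-- the second derivatives -/
def hs {R : Type} [CommRing R] (q : Fin 6 → R) : Fin 6 → R :=
  ![2 * q 0, 2 * q 2, 2 * q 5, q 4, q 3, q 1]

theorem hs_ne (h2 : (2 : k) ≠ 0) {q : Fin 6 → k} (h : qp q ≠ 0) : hs q ≠ 0 := by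
  intro h0
  apply h
  have e0 : 2 * q 0 = 0 := congrFun h0 0
  have e1 : 2 * q 2 = 0 := congrFun h0 1
  have e2 : 2 * q 5 = 0 := congrFun h0 2
  have e3 : q 4 = 0 := congrFun h0 3
  have e4 : q 3 = 0 := congrFun h0 4
  have e5 : q 1 = 0 := congrFun h0 5
  have g0 := (mul_eq_zero.1 e0).resolve_left h2
  have g1 := (mul_eq_zero.1 e1).resolve_left h2
  have g2 := (mul_eq_zero.1 e2).resolve_left h2
  simp [qp, g0, g1, g2, e3, e4, e5]

/-- the linear form with the given coefficients -/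
noncomputable def lp (l : Fin 3 → k) : MvPolynomial (Fin 3) k :=
  MvPolynomial.C (l 0) * MvPolynomial.X 0 + MvPolynomial.C (l 1) * MvPolynomial.X 1 +
    MvPolynomial.C (l 2) * MvPolynomial.X 2

theorem lp_hom (l : Fin 3 → k) : (lp l).IsHomogeneous 1 := by
  unfold lp
  refine (MvPolynomial.IsHomogeneous.add ?_ ?_).add ?_
  · exact (MvPolynomial.isHomogeneous_X k 0).C_mul _
  · exact (MvPolynomial.isHomogeneous_X k 1).C_mul _
  · exact (MvPolynomial.isHomogeneous_X k 2).C_mul _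

theorem qp_sy (h2 : (2 : k) ≠ 0) {q : Fin 6 → k} {l m : Fin 3 → k} (h : hs q = sy l m) :
    qp q = lp l * lp m := by
  have e0 : 2 * q 0 = 2 * l 0 * m 0 := congrFun h 0
  have e1 : 2 * q 2 = 2 * l 1 * m 1 := congrFun h 1
  have e2 : 2 * q 5 = 2 * l 2 * m 2 := congrFun h 2
  have e3 : q 4 = l 1 * m 2 + l 2 * m 1 := congrFun h 3
  have e4 : q 3 = l 0 * m 2 + l 2 * m 0 := congrFun h 4
  have e5 : q 1 = l 0 * m 1 + l 1 * m 0 := congrFun h 5
  have g0 : q 0 = l 0 * m 0 := mul_left_cancel₀ h2 (by linear_combination e0)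
  have g1 : q 2 = l 1 * m 1 := mul_left_cancel₀ h2 (by linear_combination e1)
  have g2 : q 5 = l 2 * m 2 := mul_left_cancel₀ h2 (by linear_combination e2)
  simp only [qp, lp, g0, g1, g2, e3, e4, e5, map_add, map_mul]
  ring

theorem inv_mv (h2 : (2 : k) ≠ 0) {q : Fin 6 → k} {u : Fin 3 → k} (h : mv (hs q) u = 0) :
    InvP (qp q) u := by
  have e0 : 2 * q 0 * u 0 + q 1 * u 1 + q 3 * u 2 = 0 := congrFun h 0
  have e1 : q 1 * u 0 + 2 * q 2 * u 1 + q 4 * u 2 = 0 := congrFun h 1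
  have e2 : q 3 * u 0 + q 4 * u 1 + 2 * q 5 * u 2 = 0 := congrFun h 2
  have e3 : qv q (u 0) (u 1) (u 2) = 0 := by
    refine (mul_eq_zero.1 (?_ : 2 * qv q (u 0) (u 1) (u 2) = 0)).resolve_left h2
    simp only [qv]
    linear_combination u 0 * e0 + u 1 * e1 + u 2 * e2
  intro R _ _ x y z t
  rw [ev_qp, ev_qp]
  have f0 := congrArg (algebraMap k R) e0
  have f1 := congrArg (algebraMap k R) e1
  have f2 := congrArg (algebraMap k R) e2
  have f3 := congrArg (algebraMap k R) e3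
  have h2' : algebraMap k R 2 = 2 := map_ofNat _ 2
  simp only [qv, map_add, map_mul, map_pow, map_zero, h2'] at f0 f1 f2 f3
  simp only [qv]
  linear_combination t * x * f0 + t * y * f1 + t * z * f2 + t ^ 2 * f3

end

section

variable {K : Type} [Field K]

open Polynomial in
/-- **(C4)** -/
theorem net (h2 : (2 : K) ≠ 0) {k : Type} [Field k] [Algebra k K]
    (F₀ F₁ F₂ : MvPolynomial (Fin 3) k) (h₀ : F₀.IsHomogeneous 2) (h₁ : F₁.IsHomogeneous 2)
    (h₂ : F₂.IsHomogeneous 2) (n₀ : F₀ ≠ 0) (i j : ℕ)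
    (hj : 0 < j) (c : K) (hc : Transcendental k c) (v : Fin 3 → Polynomial K) (hv : v ≠ 0)
    (h : InvB (MvPolynomial.map (algebraMap k K) F₀) (MvPolynomial.map (algebraMap k K) F₁)
      (MvPolynomial.map (algebraMap k K) F₂) i j c v) :
    (∃ u : Fin 3 → k, u ≠ 0 ∧ InvP F₀ u ∧ InvP F₁ u ∧ InvP F₂ u) ∨
    (∃ l m₀ m₁ m₂ : MvPolynomial (Fin 3) k, l.IsHomogeneous 1 ∧ m₀.IsHomogeneous 1 ∧
      m₁.IsHomogeneous 1 ∧ m₂.IsHomogeneous 1 ∧ F₀ = l * m₀ ∧ F₁ = l * m₁ ∧ F₂ = l * m₂) := by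
  obtain ⟨q₀, rfl⟩ := exists_qp h₀
  obtain ⟨q₁, rfl⟩ := exists_qp h₁
  obtain ⟨q₂, rfl⟩ := exists_qp h₂
  have h2k : (2 : k) ≠ 0 := by
    intro h0
    apply h2
    have : algebraMap k K 2 = 2 := map_ofNat _ 2
    rw [← this, h0, map_zero]
  rw [map_qp, map_qp, map_qp] at h
  let φ : k →+* K[X] := C.comp (algebraMap k K)
  let Q : Fin 6 → K[X] := fun e => φ (q₀ e) - X ^ j * φ (q₁ e) + C c * X ^ (i + j) * φ (q₂ e)
  have hinv : ∀ x y z t : K[X], qv Q (x + t * v 0) (y + t * v 1) (z + t * v 2) = qv Q x y z := by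
    intro x y z t
    have h1 := h K[X] x y z X t
    rw [ev_qp, ev_qp, ev_qp, ev_qp, ev_qp, ev_qp] at h1
    have e : ∀ w : K[X], aeval (X : K[X]) w = w := aeval_X_left_apply
    rw [e, e, e] at h1
    change qv (fun e => φ (q₀ e)) _ _ _ - X ^ j * qv (fun e => φ (q₁ e)) _ _ _ +
      C c * X ^ (i + j) * qv (fun e => φ (q₂ e)) _ _ _ = qv (fun e => φ (q₀ e)) _ _ _ -
      X ^ j * qv (fun e => φ (q₁ e)) _ _ _ + C c * X ^ (i + j) * qv (fun e => φ (q₂ e)) _ _ _ at h1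
    have hq : ∀ x y z : K[X], qv Q x y z = qv (fun e => φ (q₀ e)) x y z -
        X ^ j * qv (fun e => φ (q₁ e)) x y z +
        C c * X ^ (i + j) * qv (fun e => φ (q₂ e)) x y z := by
      intro x y z
      simp only [qv, Q]
      ring
    rw [hq, hq]
    exact h1
  have h2X : (2 : K[X]) ≠ 0 := by
    intro h0
    apply h2
    have h1 := congrArg (eval 0) h0
    simpa using h1
  have hd : dt (hs Q) = 0 := by
    refine dt_zero (hs Q) v hv ?_ ?_ ?_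
    · have a := hinv 1 0 0 1
      have b := hinv 1 0 0 (-1)
      simp only [qv] at a b
      refine (mul_eq_zero.1 (?_ : 2 * (hs Q 0 * v 0 + hs Q 5 * v 1 + hs Q 4 * v 2) =
        0)).resolve_left h2X
      change 2 * (2 * Q 0 * v 0 + Q 1 * v 1 + Q 3 * v 2) = 0
      linear_combination a - b
    · have a := hinv 0 1 0 1
      have b := hinv 0 1 0 (-1)
      simp only [qv] at a b
      refine (mul_eq_zero.1 (?_ : 2 * (hs Q 5 * v 0 + hs Q 1 * v 1 + hs Q 3 * v 2) =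
        0)).resolve_left h2X
      change 2 * (Q 1 * v 0 + 2 * Q 2 * v 1 + Q 4 * v 2) = 0
      linear_combination a - b
    · have a := hinv 0 0 1 1
      have b := hinv 0 0 1 (-1)
      simp only [qv] at a b
      refine (mul_eq_zero.1 (?_ : 2 * (hs Q 4 * v 0 + hs Q 3 * v 1 + hs Q 2 * v 2) =
        0)).resolve_left h2X
      change 2 * (Q 3 * v 0 + Q 4 * v 1 + 2 * Q 5 * v 2) = 0
      linear_combination a - b
  have hφ2 : φ 2 = 2 := map_ofNat _ 2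
  have hcmb : hs Q = cmb (fun e => C (algebraMap k K (hs q₀ e)))
      (fun e => C (algebraMap k K (hs q₁ e))) (fun e => C (algebraMap k K (hs q₂ e))) 1 (- X ^ j)
      (C c * X ^ (i + j)) := by
    have e1 : ∀ a : k, C (algebraMap k K a) = φ a := fun a => rfl
    funext e
    simp only [cmb, e1]
    fin_cases e
    · change 2 * (φ (q₀ 0) - X ^ j * φ (q₁ 0) + C c * X ^ (i + j) * φ (q₂ 0)) =
        1 * φ (2 * q₀ 0) + - X ^ j * φ (2 * q₁ 0) + C c * X ^ (i + j) * φ (2 * q₂ 0)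
      rw [map_mul, map_mul, map_mul, hφ2]
      ring
    · change 2 * (φ (q₀ 2) - X ^ j * φ (q₁ 2) + C c * X ^ (i + j) * φ (q₂ 2)) =
        1 * φ (2 * q₀ 2) + - X ^ j * φ (2 * q₁ 2) + C c * X ^ (i + j) * φ (2 * q₂ 2)
      rw [map_mul, map_mul, map_mul, hφ2]
      ring
    · change 2 * (φ (q₀ 5) - X ^ j * φ (q₁ 5) + C c * X ^ (i + j) * φ (q₂ 5)) =
        1 * φ (2 * q₀ 5) + - X ^ j * φ (2 * q₁ 5) + C c * X ^ (i + j) * φ (2 * q₂ 5)
      rw [map_mul, map_mul, map_mul, hφ2]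
      ring
    · change (φ (q₀ 4) - X ^ j * φ (q₁ 4) + C c * X ^ (i + j) * φ (q₂ 4)) =
        1 * φ (q₀ 4) + - X ^ j * φ (q₁ 4) + C c * X ^ (i + j) * φ (q₂ 4)
      ring
    · change (φ (q₀ 3) - X ^ j * φ (q₁ 3) + C c * X ^ (i + j) * φ (q₂ 3)) =
        1 * φ (q₀ 3) + - X ^ j * φ (q₁ 3) + C c * X ^ (i + j) * φ (q₂ 3)
      ring
    · change (φ (q₀ 1) - X ^ j * φ (q₁ 1) + C c * X ^ (i + j) * φ (q₂ 1)) =
        1 * φ (q₀ 1) + - X ^ j * φ (q₁ 1) + C c * X ^ (i + j) * φ (q₂ 1)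
      ring
  rw [hcmb] at hd
  rcases classify3 h2k (hs q₀) (hs q₁) (hs q₂) (hs_ne h2k n₀) (generic hj hc _ _ _ hd) with
    ⟨u, hu, a, b, d⟩ | ⟨l, m₀, m₁, m₂, a, b, d⟩
  · exact Or.inl ⟨u, hu, inv_mv h2k a, inv_mv h2k b, inv_mv h2k d⟩
  · exact Or.inr ⟨lp l, lp m₀, lp m₁, lp m₂, lp_hom l, lp_hom m₀, lp_hom m₁, lp_hom m₂,
      qp_sy h2k a, qp_sy h2k b, qp_sy h2k d⟩

/-- the statement of the block -/
theorem net_block [IsAlgClosed K] (h2 : (2 : K) ≠ 0) {k : Type} [Field k] [Finite k]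
    [Algebra k K] (F₀ F₁ F₂ : MvPolynomial (Fin 3) k) (h₀ : F₀.IsHomogeneous 2)
    (h₁ : F₁.IsHomogeneous 2) (h₂ : F₂.IsHomogeneous 2) (n₀ : F₀ ≠ 0) (_n₁ : F₁ ≠ 0)
    (_n₂ : F₂ ≠ 0) (i j : ℕ) (_hi : 0 < i) (hj : 0 < j) (c : K) (hc : Transcendental k c)
    (v : Fin 3 → Polynomial K) (hv : v ≠ 0)
    (h : InvB (MvPolynomial.map (algebraMap k K) F₀) (MvPolynomial.map (algebraMap k K) F₁)
      (MvPolynomial.map (algebraMap k K) F₂) i j c v) :
    (∃ u : Fin 3 → k, u ≠ 0 ∧ InvP F₀ u ∧ InvP F₁ u ∧ InvP F₂ u) ∨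
    (∃ l m₀ m₁ m₂ : MvPolynomial (Fin 3) k, l.IsHomogeneous 1 ∧ m₀.IsHomogeneous 1 ∧
      m₁.IsHomogeneous 1 ∧ m₂.IsHomogeneous 1 ∧ F₀ = l * m₀ ∧ F₁ = l * m₁ ∧ F₂ = l * m₂) :=
  net h2 F₀ F₁ F₂ h₀ h₁ h₂ n₀ i j hj c hc v hv h

end

end Pool.Agent.Helper79.TP
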