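import Mathlib

/-!
# Linear systems of singular conics
-/

set_option autoImplicit false

namespace Pool.Agent.Helper79.TP.Net

variable {k : Type} [Field k]

/-- the bilinear form of the symmetric matrix with the entries `00, 11, 22, 12, 02, 01` -/
def bl (B : Fin 6 → k) (x y : Fin 3 → k) : k :=
  B 0 * x 0 * y 0 + B 1 * x 1 * y 1 + B 2 * x 2 * y 2 + B 3 * (x 1 * y 2 + x 2 * y 1) +
    B 4 * (x 0 * y 2 + x 2 * y 0) + B 5 * (x 0 * y 1 + x 1 * y 0)

/-- the product of the matrix and the vector -/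
def mv (B : Fin 6 → k) (x : Fin 3 → k) : Fin 3 → k :=
  ![B 0 * x 0 + B 5 * x 1 + B 4 * x 2, B 5 * x 0 + B 1 * x 1 + B 3 * x 2,
    B 4 * x 0 + B 3 * x 1 + B 2 * x 2]

/-- the determinant -/
def dt {R : Type} [CommRing R] (B : Fin 6 → R) : R :=
  B 0 * B 1 * B 2 + 2 * B 3 * B 4 * B 5 - B 0 * B 3 ^ 2 - B 1 * B 4 ^ 2 - B 2 * B 5 ^ 2

/-- the adjoint matrix -/
def ad (B : Fin 6 → k) : Fin 6 → k :=
  ![B 1 * B 2 - B 3 ^ 2, B 0 * B 2 - B 4 ^ 2, B 0 * B 1 - B 5 ^ 2, B 4 * B 5 - B 0 * B 3,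
    B 3 * B 5 - B 1 * B 4, B 3 * B 4 - B 2 * B 5]

/-- the trace of `adj A * B` -/
def tr (A B : Fin 6 → k) : k :=
  ad A 0 * B 0 + ad A 1 * B 1 + ad A 2 * B 2 + 2 * ad A 3 * B 3 + 2 * ad A 4 * B 4 +
    2 * ad A 5 * B 5

/-- the vector product -/
def cr (x y : Fin 3 → k) : Fin 3 → k :=
  ![x 1 * y 2 - x 2 * y 1, x 2 * y 0 - x 0 * y 2, x 0 * y 1 - x 1 * y 0]

/-- the scalar product -/
def dp (x y : Fin 3 → k) : k := x 0 * y 0 + x 1 * y 1 + x 2 * y 2

/-- the symmetric matrix of the product of two linear forms -/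
def sy (l m : Fin 3 → k) : Fin 6 → k :=
  ![2 * l 0 * m 0, 2 * l 1 * m 1, 2 * l 2 * m 2, l 1 * m 2 + l 2 * m 1, l 0 * m 2 + l 2 * m 0,
    l 0 * m 1 + l 1 * m 0]

theorem ne3 {x : Fin 3 → k} (h : x ≠ 0) : x 0 ≠ 0 ∨ x 1 ≠ 0 ∨ x 2 ≠ 0 := by
  by_contra hc
  push Not at hc
  apply h
  funext i
  fin_cases i
  · exact hc.1
  · exact hc.2.1
  · exact hc.2.2

theorem exists_dp {x : Fin 3 → k} (h : x ≠ 0) : ∃ p : Fin 3 → k, dp x p = 1 := by
  rcases ne3 h with h | h | h
  · exact ⟨![(x 0)⁻¹, 0, 0], by simp [dp, h]⟩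
  · exact ⟨![0, (x 1)⁻¹, 0], by simp [dp, h]⟩
  · exact ⟨![0, 0, (x 2)⁻¹], by simp [dp, h]⟩

theorem bl_mv (B : Fin 6 → k) (x y : Fin 3 → k) : bl B x y = dp (mv B x) y := by
  simp only [bl, dp, mv, Matrix.cons_val_zero, Matrix.cons_val_one, Matrix.cons_val]
  ring

theorem bl_symm (B : Fin 6 → k) (x y : Fin 3 → k) : bl B x y = bl B y x := by
  simp only [bl]
  ring

theorem lagrange (A : Fin 6 → k) (x y : Fin 3 → k) :
    bl A x x * bl A y y - bl A x y ^ 2 = bl (ad A) (cr x y) (cr x y) := by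
  simp only [bl, cr, ad, Matrix.cons_val_zero, Matrix.cons_val_one, Matrix.cons_val]
  ring

theorem exists_ker {A : Fin 6 → k} (h : dt A = 0) : ∃ x : Fin 3 → k, x ≠ 0 ∧ mv A x = 0 := by
  have h1 : (!![A 0, A 5, A 4; A 5, A 1, A 3; A 4, A 3, A 2] : Matrix (Fin 3) (Fin 3) k).det =
      0 := by
    rw [Matrix.det_fin_three, ← h]
    simp [dt]
    ring
  obtain ⟨x, hx, hx'⟩ := Matrix.exists_mulVec_eq_zero_iff.2 h1
  refine ⟨x, hx, ?_⟩
  rw [← hx']
  funext i
  fin_cases i <;> simp [mv, Matrix.mulVec, dotProduct, Fin.sum_univ_three]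

theorem exists_val {A : Fin 6 → k} (h2 : (2 : k) ≠ 0) (h : A ≠ 0) :
    ∃ y : Fin 3 → k, bl A y y ≠ 0 := by
  by_contra hc
  push Not at hc
  have h0 := hc ![1, 0, 0]
  have h1 := hc ![0, 1, 0]
  have h3 := hc ![0, 0, 1]
  have h4 := hc ![0, 1, 1]
  have h5 := hc ![1, 0, 1]
  have h6 := hc ![1, 1, 0]
  simp only [bl, Matrix.cons_val_zero, Matrix.cons_val_one, Matrix.cons_val, mul_one, mul_zero,
    add_zero, zero_add] at h0 h1 h3 h4 h5 h6
  have e3 : A 3 = 0 := by
    have : (2 : k) * A 3 = 0 := by linear_combination h4 - h1 - h3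
    exact (mul_eq_zero.1 this).resolve_left h2
  have e4 : A 4 = 0 := by
    have : (2 : k) * A 4 = 0 := by linear_combination h5 - h0 - h3
    exact (mul_eq_zero.1 this).resolve_left h2
  have e5 : A 5 = 0 := by
    have : (2 : k) * A 5 = 0 := by linear_combination h6 - h0 - h1
    exact (mul_eq_zero.1 this).resolve_left h2
  apply h
  funext i
  fin_cases i
  · exact h0
  · exact h1
  · exact h3
  · exact e3
  · exact e4
  · exact e5

/-- all members have rank at most one -/
theorem case_one (h2 : (2 : k) ≠ 0) {N : Set (Fin 6 → k)}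
    (hadd : ∀ A ∈ N, ∀ B ∈ N, A + B ∈ N) {A : Fin 6 → k} (hA : A ∈ N) (hA0 : A ≠ 0)
    (hd : dt A = 0) (had : ∀ B ∈ N, ad B = 0) :
    ∃ u : Fin 3 → k, u ≠ 0 ∧ ∀ B ∈ N, mv B u = 0 := by
  obtain ⟨x, hx, hAx⟩ := exists_ker hd
  refine ⟨x, hx, fun B hB => ?_⟩
  have hl : ∀ C ∈ N, ∀ y, bl C x x * bl C y y = bl C x y ^ 2 := by
    intro C hC y
    have h1 := lagrange C x y
    rw [had C hC] at h1
    have h3 : bl (0 : Fin 6 → k) (cr x y) (cr x y) = 0 := by simp [bl]
    rw [h3] at h1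
    linear_combination h1
  have hsum : ∀ y z, bl (A + B) y z = bl A y z + bl B y z := by
    intro y z
    simp only [bl, Pi.add_apply]
    ring
  have hAx' : ∀ y, bl A x y = 0 := by
    intro y
    rw [bl_mv, hAx]
    simp [dp]
  have h3 : ∀ y, bl B x x * bl A y y = 0 := by
    intro y
    have h4 := hl (A + B) (hadd A hA B hB) y
    have h5 := hl B hB y
    rw [hsum, hsum, hsum, hAx', hAx', zero_add, zero_add] at h4
    linear_combination h4 - h5
  obtain ⟨y₀, hy₀⟩ := exists_val h2 hA0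
  have h4 : bl B x x = 0 := (mul_eq_zero.1 (h3 y₀)).resolve_right hy₀
  have h5 : ∀ y, bl B x y = 0 := by
    intro y
    have h6 := hl B hB y
    rw [h4, zero_mul] at h6
    exact pow_eq_zero_iff two_ne_zero |>.1 h6.symm
  have e0 := h5 ![1, 0, 0]
  have e1 := h5 ![0, 1, 0]
  have e2 := h5 ![0, 0, 1]
  rw [bl_mv] at e0 e1 e2
  simp only [dp, Matrix.cons_val_zero, Matrix.cons_val_one, Matrix.cons_val, mul_one, mul_zero,
    add_zero, zero_add] at e0 e1 e2
  funext i
  fin_cases i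
  · exact e0
  · exact e1
  · exact e2

/-- a matrix of rank two: its kernel -/
theorem exists_rad {A : Fin 6 → k} (hd : dt A = 0) (ha : ad A ≠ 0) :
    ∃ (κ : k) (u : Fin 3 → k), κ ≠ 0 ∧ u ≠ 0 ∧ mv A u = 0 ∧ ad A 0 * κ = u 0 ^ 2 ∧
      ad A 1 * κ = u 1 ^ 2 ∧ ad A 2 * κ = u 2 ^ 2 ∧ ad A 3 * κ = u 1 * u 2 ∧
      ad A 4 * κ = u 0 * u 2 ∧ ad A 5 * κ = u 0 * u 1 := by
  have m12 : ad A 1 * ad A 2 - ad A 3 ^ 2 = dt A * A 0 := by
    simp only [ad, dt, Matrix.cons_val_zero, Matrix.cons_val_one, Matrix.cons_val]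
    ring
  have m02 : ad A 0 * ad A 2 - ad A 4 ^ 2 = dt A * A 1 := by
    simp only [ad, dt, Matrix.cons_val_zero, Matrix.cons_val_one, Matrix.cons_val]
    ring
  have m01 : ad A 0 * ad A 1 - ad A 5 ^ 2 = dt A * A 2 := by
    simp only [ad, dt, Matrix.cons_val_zero, Matrix.cons_val_one, Matrix.cons_val]
    ring
  have n3 : ad A 4 * ad A 5 - ad A 0 * ad A 3 = dt A * A 3 := by
    simp only [ad, dt, Matrix.cons_val_zero, Matrix.cons_val_one, Matrix.cons_val]
    ring
  have n4 : ad A 3 * ad A 5 - ad A 1 * ad A 4 = dt A * A 4 := by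
    simp only [ad, dt, Matrix.cons_val_zero, Matrix.cons_val_one, Matrix.cons_val]
    ring
  have n5 : ad A 3 * ad A 4 - ad A 2 * ad A 5 = dt A * A 5 := by
    simp only [ad, dt, Matrix.cons_val_zero, Matrix.cons_val_one, Matrix.cons_val]
    ring
  rw [hd, zero_mul] at m12 m02 m01 n3 n4 n5
  by_cases h0 : ad A 0 = 0
  · by_cases h1 : ad A 1 = 0
    · by_cases h3 : ad A 2 = 0
      · exfalso
        apply ha
        have e3 : ad A 3 = 0 := by
          have : ad A 3 ^ 2 = 0 := by linear_combination ad A 2 * h1 - m12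
          exact pow_eq_zero_iff two_ne_zero |>.1 this
        have e4 : ad A 4 = 0 := by
          have : ad A 4 ^ 2 = 0 := by linear_combination ad A 2 * h0 - m02
          exact pow_eq_zero_iff two_ne_zero |>.1 this
        have e5 : ad A 5 = 0 := by
          have : ad A 5 ^ 2 = 0 := by linear_combination ad A 1 * h0 - m01
          exact pow_eq_zero_iff two_ne_zero |>.1 this
        funext i
        fin_cases i
        · exact h0
        · exact h1
        · exact h3
        · exact e3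
        · exact e4
        · exact e5
      · refine ⟨ad A 2, ![ad A 4, ad A 3, ad A 2], h3, ?_, ?_, ?_, ?_, ?_, ?_, ?_, ?_⟩
        · intro h
          exact h3 (congrFun h 2)
        · funext i
          fin_cases i
          · change A 0 * ad A 4 + A 5 * ad A 3 + A 4 * ad A 2 = 0
            simp only [ad, Matrix.cons_val_zero, Matrix.cons_val_one, Matrix.cons_val]
            ring
          · change A 5 * ad A 4 + A 1 * ad A 3 + A 3 * ad A 2 = 0
            simp only [ad, Matrix.cons_val_zero, Matrix.cons_val_one, Matrix.cons_val]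
            ring
          · change A 4 * ad A 4 + A 3 * ad A 3 + A 2 * ad A 2 = 0
            rw [← hd]
            simp only [ad, dt, Matrix.cons_val_zero, Matrix.cons_val_one, Matrix.cons_val]
            ring
        · change ad A 0 * ad A 2 = ad A 4 ^ 2
          linear_combination m02
        · change ad A 1 * ad A 2 = ad A 3 ^ 2
          linear_combination m12
        · change ad A 2 * ad A 2 = ad A 2 ^ 2
          ring
        · change ad A 3 * ad A 2 = ad A 3 * ad A 2
          ring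
        · change ad A 4 * ad A 2 = ad A 4 * ad A 2
          ring
        · change ad A 5 * ad A 2 = ad A 4 * ad A 3
          linear_combination -n5
    · refine ⟨ad A 1, ![ad A 5, ad A 1, ad A 3], h1, ?_, ?_, ?_, ?_, ?_, ?_, ?_, ?_⟩
      · intro h
        exact h1 (congrFun h 1)
      · funext i
        fin_cases i
        · change A 0 * ad A 5 + A 5 * ad A 1 + A 4 * ad A 3 = 0
          simp only [ad, Matrix.cons_val_zero, Matrix.cons_val_one, Matrix.cons_val]
          ring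
        · change A 5 * ad A 5 + A 1 * ad A 1 + A 3 * ad A 3 = 0
          rw [← hd]
          simp only [ad, dt, Matrix.cons_val_zero, Matrix.cons_val_one, Matrix.cons_val]
          ring
        · change A 4 * ad A 5 + A 3 * ad A 1 + A 2 * ad A 3 = 0
          simp only [ad, Matrix.cons_val_zero, Matrix.cons_val_one, Matrix.cons_val]
          ring
      · change ad A 0 * ad A 1 = ad A 5 ^ 2
        linear_combination m01
      · change ad A 1 * ad A 1 = ad A 1 ^ 2
        ring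
      · change ad A 2 * ad A 1 = ad A 3 ^ 2
        linear_combination m12
      · change ad A 3 * ad A 1 = ad A 1 * ad A 3
        ring
      · change ad A 4 * ad A 1 = ad A 5 * ad A 3
        linear_combination -n4
      · change ad A 5 * ad A 1 = ad A 5 * ad A 1
        ring
  · refine ⟨ad A 0, ![ad A 0, ad A 5, ad A 4], h0, ?_, ?_, ?_, ?_, ?_, ?_, ?_, ?_⟩
    · intro h
      exact h0 (congrFun h 0)
    · funext i
      fin_cases i
      · change A 0 * ad A 0 + A 5 * ad A 5 + A 4 * ad A 4 = 0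
        rw [← hd]
        simp only [ad, dt, Matrix.cons_val_zero, Matrix.cons_val_one, Matrix.cons_val]
        ring
      · change A 5 * ad A 0 + A 1 * ad A 5 + A 3 * ad A 4 = 0
        simp only [ad, Matrix.cons_val_zero, Matrix.cons_val_one, Matrix.cons_val]
        ring
      · change A 4 * ad A 0 + A 3 * ad A 5 + A 2 * ad A 4 = 0
        simp only [ad, Matrix.cons_val_zero, Matrix.cons_val_one, Matrix.cons_val]
        ring
    · change ad A 0 * ad A 0 = ad A 0 ^ 2
      ring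
    · change ad A 1 * ad A 0 = ad A 5 ^ 2
      linear_combination m01
    · change ad A 2 * ad A 0 = ad A 4 ^ 2
      linear_combination m02
    · change ad A 3 * ad A 0 = ad A 5 * ad A 4
      linear_combination -n3
    · change ad A 4 * ad A 0 = ad A 0 * ad A 4
      ring
    · change ad A 5 * ad A 0 = ad A 0 * ad A 5
      ring

/-- the trace of `G' B`, `G' = [p] A [p]ᵗ` -/
def tg (A B : Fin 6 → k) (p : Fin 3 → k) : k :=
  B 0 * bl A ![0, -p 2, p 1] ![0, -p 2, p 1] + B 1 * bl A ![p 2, 0, -p 0] ![p 2, 0, -p 0] +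
    B 2 * bl A ![-p 1, p 0, 0] ![-p 1, p 0, 0] + 2 * B 3 * bl A ![p 2, 0, -p 0] ![-p 1, p 0, 0] +
    2 * B 4 * bl A ![0, -p 2, p 1] ![-p 1, p 0, 0] +
    2 * B 5 * bl A ![0, -p 2, p 1] ![p 2, 0, -p 0]

theorem key (A B : Fin 6 → k) (u p : Fin 3 → k) :
    bl A (cr (mv B u) p) (cr (mv B u) p) = bl B u u * tg A B p - dp u p ^ 2 * tr B A -
      dp u (mv A u) * bl (ad B) p p + 2 * dp u p * bl (ad B) p (mv A u) := by
  simp only [bl, cr, ad, mv, tg, tr, dp, Matrix.cons_val_zero, Matrix.cons_val_one,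
    Matrix.cons_val]
  ring

theorem gram (B : Fin 6 → k) (u y x : Fin 3 → k) :
    dp u (cr y x) ^ 2 * dt B = bl B u u * (bl B y y * bl B x x - bl B y x ^ 2) -
      bl B u y * (bl B u y * bl B x x - bl B y x * bl B u x) +
      bl B u x * (bl B u y * bl B y x - bl B y y * bl B u x) := by
  simp only [bl, cr, dp, dt, Matrix.cons_val_zero, Matrix.cons_val_one, Matrix.cons_val]
  ring

end Pool.Agent.Helper79.TP.Net
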