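import Pool.Agent.Helper79.TP.Net1

/-!
# Linear systems of singular conics: classification
-/

set_option autoImplicit false

namespace Pool.Agent.Helper79.TP.Net

variable {k : Type} [Field k]

theorem bl_add (B C : Fin 6 → k) (x y : Fin 3 → k) : bl (B + C) x y = bl B x y + bl C x y := by
  simp only [bl, Pi.add_apply]
  ring

theorem mv_add (B C : Fin 6 → k) (x : Fin 3 → k) : mv (B + C) x = mv B x + mv C x := by
  funext i
  fin_cases i <;> simp [mv] <;> ring

/-- **classification** -/
theorem classify (h2 : (2 : k) ≠ 0) (N : Set (Fin 6 → k))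
    (hadd : ∀ A ∈ N, ∀ B ∈ N, A + B ∈ N) (h0 : ∃ A ∈ N, A ≠ 0) (hd : ∀ A ∈ N, dt A = 0)
    (hT : ∀ A ∈ N, ∀ B ∈ N, tr A B = 0) :
    (∃ u : Fin 3 → k, u ≠ 0 ∧ ∀ A ∈ N, mv A u = 0) ∨
      ∃ l : Fin 3 → k, ∀ A ∈ N, ∃ m, A = sy l m := by
  by_cases had : ∀ A ∈ N, ad A = 0
  · obtain ⟨A, hA, hA0⟩ := h0
    exact Or.inl (case_one h2 hadd hA hA0 (hd A hA) had)
  push Not at had
  obtain ⟨A, hA, hA0⟩ := had
  obtain ⟨κ, u, hκ, hu, hAu, r0, r1, r2, r3, r4, r5⟩ := exists_rad (hd A hA) hA0
  -- all members vanish at the vertex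
  have hs : ∀ B ∈ N, bl B u u = 0 := by
    intro B hB
    have h1 := hT A hA B hB
    have h3 : bl B u u = κ * tr A B := by
      simp only [bl, tr]
      linear_combination - B 0 * r0 - B 1 * r1 - B 2 * r2 - 2 * B 3 * r3 - 2 * B 4 * r4 -
        2 * B 5 * r5
    rw [h3, h1, mul_zero]
  by_cases hall : ∀ B ∈ N, mv B u = 0
  · exact Or.inl ⟨u, hu, hall⟩
  push Not at hall
  obtain ⟨C, hC, hCu⟩ := hall
  obtain ⟨p, hp⟩ := exists_dp hu
  -- isotropic vectors
  have hiso : ∀ B ∈ N, bl A (cr (mv B u) p) (cr (mv B u) p) = 0 := by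
    intro B hB
    rw [key, hs B hB, hT B hB A hA, hAu]
    have e1 : dp u (0 : Fin 3 → k) = 0 := by simp [dp]
    have e2 : bl (ad B) p (0 : Fin 3 → k) = 0 := by simp [bl]
    rw [e1, e2]
    ring
  set y := cr (mv C u) p with hy
  have hpol : ∀ B ∈ N, bl A (cr (mv B u) p) y = 0 := by
    intro B hB
    have h1 := hiso (B + C) (hadd B hB C hC)
    rw [mv_add] at h1
    have h3 : bl A (cr (mv B u + mv C u) p) (cr (mv B u + mv C u) p) =
        bl A (cr (mv B u) p) (cr (mv B u) p) + bl A y y + 2 * bl A (cr (mv B u) p) y := by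
      rw [hy]
      simp only [bl, cr, Pi.add_apply, Matrix.cons_val_zero, Matrix.cons_val_one,
        Matrix.cons_val]
      ring
    rw [h3, hiso B hB, hiso C hC, zero_add, zero_add] at h1
    exact (mul_eq_zero.1 h1).resolve_left h2
  -- they are proportional modulo the vertex
  have huy : ∀ B ∈ N, bl B u y = 0 := by
    intro B hB
    have h1 := lagrange A (cr (mv B u) p) y
    rw [hiso B hB, hiso C hC, hpol B hB] at h1
    have h3 : κ * bl (ad A) (cr (cr (mv B u) p) y) (cr (cr (mv B u) p) y) =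
        dp u (cr (cr (mv B u) p) y) ^ 2 := by
      simp only [bl, dp]
      linear_combination cr (cr (mv B u) p) y 0 ^ 2 * r0 + cr (cr (mv B u) p) y 1 ^ 2 * r1 +
        cr (cr (mv B u) p) y 2 ^ 2 * r2 +
        2 * cr (cr (mv B u) p) y 1 * cr (cr (mv B u) p) y 2 * r3 +
        2 * cr (cr (mv B u) p) y 0 * cr (cr (mv B u) p) y 2 * r4 +
        2 * cr (cr (mv B u) p) y 0 * cr (cr (mv B u) p) y 1 * r5
    rw [← h1] at h3
    have h4 : dp u (cr (cr (mv B u) p) y) = 0 := by
      apply pow_eq_zero_iff two_ne_zero |>.1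
      rw [← h3]
      ring
    have h5 : dp u (mv B u) = 0 := by
      have := hs B hB
      rw [bl_mv] at this
      rw [← this]
      simp only [dp]
      ring
    have h6 : dp u p * dp (mv B u) y = dp u (cr (cr (mv B u) p) y) + dp u (mv B u) * dp p y := by
      simp only [dp, cr, Matrix.cons_val_zero, Matrix.cons_val_one, Matrix.cons_val]
      ring
    rw [h4, h5, hp] at h6
    rw [bl_mv]
    linear_combination h6
  -- the members vanish at `y`
  have hyy' : ∀ B ∈ N, mv B u ≠ 0 → bl B y y = 0 := by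
    intro B hB hBu
    have h1 : ∀ x, bl B u x ^ 2 * bl B y y = 0 := by
      intro x
      have h3 := gram B u y x
      rw [hd B hB, hs B hB, huy B hB] at h3
      linear_combination h3
    have e0 := h1 ![1, 0, 0]
    have e1 := h1 ![0, 1, 0]
    have e2 := h1 ![0, 0, 1]
    rw [bl_mv B u] at e0 e1 e2
    simp only [dp, Matrix.cons_val_zero, Matrix.cons_val_one, Matrix.cons_val, mul_one, mul_zero,
      add_zero, zero_add] at e0 e1 e2
    rcases ne3 hBu with h | h | h
    · exact (mul_eq_zero.1 e0).resolve_left (pow_ne_zero 2 h)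
    · exact (mul_eq_zero.1 e1).resolve_left (pow_ne_zero 2 h)
    · exact (mul_eq_zero.1 e2).resolve_left (pow_ne_zero 2 h)
  have hyy : ∀ B ∈ N, bl B y y = 0 := by
    intro B hB
    by_cases hBu : mv B u = 0
    · have h1 := hyy' (B + C) (hadd B hB C hC) (by rw [mv_add, hBu, zero_add]; exact hCu)
      rw [bl_add, hyy' C hC hCu, add_zero] at h1
      exact h1
    · exact hyy' B hB hBu
  -- the linear form
  set l := mv C u with hl
  obtain ⟨q, hq⟩ := exists_dp hCu
  have hul : dp u l = 0 := by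
    have := hs C hC
    rw [bl_mv] at this
    rw [← this]
    simp only [dp]
    ring
  have hly : l = cr u y := by
    have h1 : cr u y = fun i => dp u p * l i - dp u l * p i := by
      funext i
      rw [hy]
      fin_cases i
      · simp only [dp, cr, Fin.zero_eta, Matrix.cons_val_zero, Matrix.cons_val_one,
          Matrix.cons_val]
        ring
      · simp only [dp, cr, Fin.mk_one, Matrix.cons_val_zero, Matrix.cons_val_one,
          Matrix.cons_val]
        ring
      · simp only [dp, cr, Fin.reduceFinMk, Matrix.cons_val_zero, Matrix.cons_val_one,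
          Matrix.cons_val]
        ring
    rw [h1, hp, hul]
    funext i
    ring
  have hdec : ∀ x : Fin 3 → k, ∀ i, x i - dp l x * q i = dp (cr q x) y * u i -
      dp (cr q x) u * y i := by
    intro x i
    have h1 : dp l q * x i - dp l x * q i = dp (cr q x) y * u i - dp (cr q x) u * y i := by
      rw [hly]
      fin_cases i
      · simp only [dp, cr, Fin.zero_eta, Matrix.cons_val_zero, Matrix.cons_val_one,
          Matrix.cons_val]
        ring
      · simp only [dp, cr, Fin.mk_one, Matrix.cons_val_zero, Matrix.cons_val_one,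
          Matrix.cons_val]
        ring
      · simp only [dp, cr, Fin.reduceFinMk, Matrix.cons_val_zero, Matrix.cons_val_one,
          Matrix.cons_val]
        ring
    rw [hq, one_mul] at h1
    exact h1
  have hbil : ∀ B ∈ N, ∀ x x' : Fin 3 → k, bl B x x' = dp l x * bl B q x' + dp l x' * bl B x q -
      dp l x * dp l x' * bl B q q := by
    intro B hB x x'
    have h1 : bl B (fun i => x i - dp l x * q i) (fun i => x' i - dp l x' * q i) = 0 := by
      have e1 : (fun i => x i - dp l x * q i) = fun i => dp (cr q x) y * u i -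
          dp (cr q x) u * y i := funext (hdec x)
      have e2 : (fun i => x' i - dp l x' * q i) = fun i => dp (cr q x') y * u i -
          dp (cr q x') u * y i := funext (hdec x')
      rw [e1, e2]
      have e3 : ∀ a b a' b' : k, bl B (fun i => a * u i - b * y i) (fun i => a' * u i - b' * y i) =
          a * a' * bl B u u - (a * b' + b * a') * bl B u y + b * b' * bl B y y := by
        intro a b a' b'
        simp only [bl]
        ring
      rw [e3, hs B hB, huy B hB, hyy B hB]
      ring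
    have h3 : bl B (fun i => x i - dp l x * q i) (fun i => x' i - dp l x' * q i) =
        bl B x x' - dp l x * bl B q x' - dp l x' * bl B x q + dp l x * dp l x' * bl B q q := by
      simp only [bl]
      ring
    rw [h3] at h1
    linear_combination h1
  refine Or.inr ⟨l, fun B hB => ⟨![bl B q ![1, 0, 0] - l 0 * bl B q q / 2,
    bl B q ![0, 1, 0] - l 1 * bl B q q / 2, bl B q ![0, 0, 1] - l 2 * bl B q q / 2], ?_⟩⟩
  have d0 : dp l ![1, 0, 0] = l 0 := by simp [dp]
  have d1 : dp l ![0, 1, 0] = l 1 := by simp [dp]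
  have d2 : dp l ![0, 0, 1] = l 2 := by simp [dp]
  have b00 := hbil B hB ![1, 0, 0] ![1, 0, 0]
  have b11 := hbil B hB ![0, 1, 0] ![0, 1, 0]
  have b22 := hbil B hB ![0, 0, 1] ![0, 0, 1]
  have b12 := hbil B hB ![0, 1, 0] ![0, 0, 1]
  have b02 := hbil B hB ![1, 0, 0] ![0, 0, 1]
  have b01 := hbil B hB ![1, 0, 0] ![0, 1, 0]
  rw [bl_symm B _ q, d0] at b00
  rw [bl_symm B _ q, d1] at b11
  rw [bl_symm B _ q, d2] at b22
  rw [bl_symm B _ q, d1, d2] at b12
  rw [bl_symm B _ q, d0, d2] at b02
  rw [bl_symm B _ q, d0, d1] at b01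
  have c00 : bl B ![1, 0, 0] ![1, 0, 0] = B 0 := by simp [bl]
  have c11 : bl B ![0, 1, 0] ![0, 1, 0] = B 1 := by simp [bl]
  have c22 : bl B ![0, 0, 1] ![0, 0, 1] = B 2 := by simp [bl]
  have c12 : bl B ![0, 1, 0] ![0, 0, 1] = B 3 := by simp [bl]
  have c02 : bl B ![1, 0, 0] ![0, 0, 1] = B 4 := by simp [bl]
  have c01 : bl B ![1, 0, 0] ![0, 1, 0] = B 5 := by simp [bl]
  rw [c00] at b00
  rw [c11] at b11
  rw [c22] at b22
  rw [c12] at b12
  rw [c02] at b02
  rw [c01] at b01
  have hh : (2 : k) * (bl B q q / 2) = bl B q q := by field_simp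
  funext i
  fin_cases i
  · change B 0 = 2 * l 0 * (bl B q ![1, 0, 0] - l 0 * bl B q q / 2)
    linear_combination b00 + l 0 ^ 2 * hh
  · change B 1 = 2 * l 1 * (bl B q ![0, 1, 0] - l 1 * bl B q q / 2)
    linear_combination b11 + l 1 ^ 2 * hh
  · change B 2 = 2 * l 2 * (bl B q ![0, 0, 1] - l 2 * bl B q q / 2)
    linear_combination b22 + l 2 ^ 2 * hh
  · change B 3 = l 1 * (bl B q ![0, 0, 1] - l 2 * bl B q q / 2) +
      l 2 * (bl B q ![0, 1, 0] - l 1 * bl B q q / 2)
    linear_combination b12 + l 1 * l 2 * hh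
  · change B 4 = l 0 * (bl B q ![0, 0, 1] - l 2 * bl B q q / 2) +
      l 2 * (bl B q ![1, 0, 0] - l 0 * bl B q q / 2)
    linear_combination b02 + l 0 * l 2 * hh
  · change B 5 = l 0 * (bl B q ![0, 1, 0] - l 1 * bl B q q / 2) +
      l 1 * (bl B q ![1, 0, 0] - l 0 * bl B q q / 2)
    linear_combination b01 + l 0 * l 1 * hh

end Pool.Agent.Helper79.TP.Net
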