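import Pool.Agent.Helper79.TP.Net2

/-!
# Linear systems of singular conics: the generic member
-/

set_option autoImplicit false

namespace Pool.Agent.Helper79.TP.Net

open Polynomial

section ring

variable {R : Type} [CommRing R]

/-- the trace of `adj A * B` over a ring -/
def tq (A B : Fin 6 → R) : R :=
  (A 1 * A 2 - A 3 ^ 2) * B 0 + (A 0 * A 2 - A 4 ^ 2) * B 1 + (A 0 * A 1 - A 5 ^ 2) * B 2 +
    2 * (A 4 * A 5 - A 0 * A 3) * B 3 + 2 * (A 3 * A 5 - A 1 * A 4) * B 4 +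
    2 * (A 3 * A 4 - A 2 * A 5) * B 5

/-- the polarisation of the determinant -/
def sq (A B C : Fin 6 → R) : R :=
  (A 1 * B 2 + A 2 * B 1 - 2 * A 3 * B 3) * C 0 + (A 0 * B 2 + A 2 * B 0 - 2 * A 4 * B 4) * C 1 +
    (A 0 * B 1 + A 1 * B 0 - 2 * A 5 * B 5) * C 2 +
    2 * (A 4 * B 5 + A 5 * B 4 - A 0 * B 3 - A 3 * B 0) * C 3 +
    2 * (A 3 * B 5 + A 5 * B 3 - A 1 * B 4 - A 4 * B 1) * C 4 +
    2 * (A 3 * B 4 + A 4 * B 3 - A 2 * B 5 - A 5 * B 2) * C 5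

/-- linear combinations -/
def cmb (A B C : Fin 6 → R) (a b c : R) : Fin 6 → R := fun e => a * A e + b * B e + c * C e

theorem dt_cmb (A B C : Fin 6 → R) (a b c : R) : dt (cmb A B C a b c) =
    a ^ 3 * dt A + b ^ 3 * dt B + c ^ 3 * dt C + a ^ 2 * b * tq A B + a ^ 2 * c * tq A C +
      b ^ 2 * a * tq B A + b ^ 2 * c * tq B C + c ^ 2 * a * tq C A + c ^ 2 * b * tq C B +
      a * b * c * sq A B C := by
  simp only [dt, cmb, tq, sq]
  ring

theorem tq_cmb (A B C : Fin 6 → R) (a b c a' b' c' : R) :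
    tq (cmb A B C a b c) (cmb A B C a' b' c') =
    3 * a ^ 2 * a' * dt A + 3 * b ^ 2 * b' * dt B + 3 * c ^ 2 * c' * dt C +
      (a ^ 2 * b' + 2 * a * b * a') * tq A B + (a ^ 2 * c' + 2 * a * c * a') * tq A C +
      (b ^ 2 * a' + 2 * a * b * b') * tq B A + (b ^ 2 * c' + 2 * b * c * b') * tq B C +
      (c ^ 2 * a' + 2 * a * c * c') * tq C A + (c ^ 2 * b' + 2 * b * c * c') * tq C B +
      (a * b * c' + a * c * b' + b * c * a') * sq A B C := by
  simp only [dt, cmb, tq, sq]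
  ring

theorem dt_map {S : Type} [CommRing S] (f : R →+* S) (A : Fin 6 → R) :
    dt (fun e => f (A e)) = f (dt A) := by
  have h2 : f 2 = 2 := map_ofNat f 2
  simp [dt, h2]

theorem tq_map {S : Type} [CommRing S] (f : R →+* S) (A B : Fin 6 → R) :
    tq (fun e => f (A e)) (fun e => f (B e)) = f (tq A B) := by
  have h2 : f 2 = 2 := map_ofNat f 2
  simp [tq, h2]

theorem sq_map {S : Type} [CommRing S] (f : R →+* S) (A B C : Fin 6 → R) :
    sq (fun e => f (A e)) (fun e => f (B e)) (fun e => f (C e)) = f (sq A B C) := by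
  have h2 : f 2 = 2 := map_ofNat f 2
  simp [sq, h2]

/-- a vector in the kernel -/
theorem dt_zero [IsDomain R] (A : Fin 6 → R) (v : Fin 3 → R) (hv : v ≠ 0)
    (h0 : A 0 * v 0 + A 5 * v 1 + A 4 * v 2 = 0) (h1 : A 5 * v 0 + A 1 * v 1 + A 3 * v 2 = 0)
    (h2 : A 4 * v 0 + A 3 * v 1 + A 2 * v 2 = 0) : dt A = 0 := by
  have e0 : dt A * v 0 = 0 := by
    simp only [dt]
    linear_combination (A 1 * A 2 - A 3 ^ 2) * h0 + (A 3 * A 4 - A 2 * A 5) * h1 +
      (A 3 * A 5 - A 1 * A 4) * h2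
  have e1 : dt A * v 1 = 0 := by
    simp only [dt]
    linear_combination (A 3 * A 4 - A 2 * A 5) * h0 + (A 0 * A 2 - A 4 ^ 2) * h1 +
      (A 4 * A 5 - A 0 * A 3) * h2
  have e2 : dt A * v 2 = 0 := by
    simp only [dt]
    linear_combination (A 3 * A 5 - A 1 * A 4) * h0 + (A 4 * A 5 - A 0 * A 3) * h1 +
      (A 0 * A 1 - A 5 ^ 2) * h2
  by_contra hd
  apply hv
  funext i
  fin_cases i
  · exact (mul_eq_zero.1 e0).resolve_left hd
  · exact (mul_eq_zero.1 e1).resolve_left hd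
  · exact (mul_eq_zero.1 e2).resolve_left hd

end ring

section

variable {k K : Type} [Field k] [Field K] [Algebra k K]

theorem trans4 {c : K} (hc : Transcendental k c) {p₀ p₁ p₂ p₃ : k[X]}
    (h : p₀.map (algebraMap k K) + C c * p₁.map (algebraMap k K) +
      C c ^ 2 * p₂.map (algebraMap k K) + C c ^ 3 * p₃.map (algebraMap k K) = 0) :
    p₀ = 0 ∧ p₁ = 0 ∧ p₂ = 0 ∧ p₃ = 0 := by
  have key : ∀ e, p₀.coeff e = 0 ∧ p₁.coeff e = 0 ∧ p₂.coeff e = 0 ∧ p₃.coeff e = 0 := by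
    intro e
    have h1 := congrArg (fun q => q.coeff e) h
    simp only [coeff_add, ← C_pow, coeff_C_mul, coeff_map, coeff_zero] at h1
    have h2 : aeval c (C (p₀.coeff e) + C (p₁.coeff e) * X + C (p₂.coeff e) * X ^ 2 +
        C (p₃.coeff e) * X ^ 3) = 0 := by
      simp only [map_add, map_mul, aeval_C, aeval_X, map_pow]
      linear_combination h1
    have h3 := (transcendental_iff.1 hc) _ h2
    have g0 := congrArg (fun q => q.coeff 0) h3
    have g1 := congrArg (fun q => q.coeff 1) h3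
    have g2 := congrArg (fun q => q.coeff 2) h3
    have g3 := congrArg (fun q => q.coeff 3) h3
    simp [coeff_X, coeff_C, coeff_X_pow] at g0 g1 g2 g3
    exact ⟨g0, g1, g2, g3⟩
  refine ⟨ext fun e => ?_, ext fun e => ?_, ext fun e => ?_, ext fun e => ?_⟩
  · rw [(key e).1, coeff_zero]
  · rw [(key e).2.1, coeff_zero]
  · rw [(key e).2.2.1, coeff_zero]
  · rw [(key e).2.2.2, coeff_zero]

theorem cubic_zero {j : ℕ} (hj : 0 < j) {a b c d : k}
    (h : C a - C b * X ^ j + C c * X ^ (2 * j) - C d * X ^ (3 * j) = (0 : k[X])) :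
    a = 0 ∧ b = 0 ∧ c = 0 ∧ d = 0 := by
  have h1 : expand k j (C a - C b * X + C c * X ^ 2 - C d * X ^ 3) = 0 := by
    rw [← h]
    simp only [map_add, map_sub, map_mul, expand_C, expand_X, map_pow]
    ring
  rw [expand_eq_zero hj] at h1
  have g0 := congrArg (fun q => q.coeff 0) h1
  have g1 := congrArg (fun q => q.coeff 1) h1
  have g2 := congrArg (fun q => q.coeff 2) h1
  have g3 := congrArg (fun q => q.coeff 3) h1
  simp [coeff_X, coeff_C, coeff_X_pow] at g0 g1 g2 g3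
  exact ⟨g0, g1, g2, g3⟩

/-- if the generic member is singular, all members are -/
theorem generic {i j : ℕ} (hj : 0 < j) {c : K} (hc : Transcendental k c) (A B D : Fin 6 → k)
    (h : dt (cmb (fun e => C (algebraMap k K (A e))) (fun e => C (algebraMap k K (B e)))
      (fun e => C (algebraMap k K (D e))) 1 (- X ^ j) (C c * X ^ (i + j))) = 0) :
    (dt A = 0 ∧ dt B = 0 ∧ dt D = 0) ∧ (tq A B = 0 ∧ tq B A = 0 ∧ tq A D = 0 ∧ tq D A = 0 ∧
      tq B D = 0 ∧ tq D B = 0) ∧ sq A B D = 0 := by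
  have e1 : ∀ A : Fin 6 → k, dt (fun e => (C (algebraMap k K (A e)) : K[X])) =
      C (algebraMap k K (dt A)) := fun A => dt_map (C.comp (algebraMap k K)) A
  have e2 : ∀ A B : Fin 6 → k, tq (fun e => (C (algebraMap k K (A e)) : K[X]))
      (fun e => C (algebraMap k K (B e))) = C (algebraMap k K (tq A B)) :=
    fun A B => tq_map (C.comp (algebraMap k K)) A B
  have e3 : sq (fun e => (C (algebraMap k K (A e)) : K[X])) (fun e => C (algebraMap k K (B e)))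
      (fun e => C (algebraMap k K (D e))) = C (algebraMap k K (sq A B D)) :=
    sq_map (C.comp (algebraMap k K)) A B D
  rw [dt_cmb, e1, e1, e1, e2, e2, e2, e2, e2, e2, e3] at h
  obtain ⟨h0, h1, h2, h3⟩ := trans4 hc (p₀ := C (dt A) - C (tq A B) * X ^ j +
    C (tq B A) * X ^ (2 * j) - C (dt B) * X ^ (3 * j))
    (p₁ := X ^ (i + j) * (C (tq A D) - C (sq A B D) * X ^ j + C (tq B D) * X ^ (2 * j) -
      C 0 * X ^ (3 * j)))
    (p₂ := X ^ (2 * (i + j)) * (C (tq D A) - C (tq D B) * X ^ j + C 0 * X ^ (2 * j) -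
      C 0 * X ^ (3 * j)))
    (p₃ := X ^ (3 * (i + j)) * (C (dt D) - C 0 * X ^ j + C 0 * X ^ (2 * j) -
      C 0 * X ^ (3 * j))) (by
      rw [← h]
      simp only [Polynomial.map_add, Polynomial.map_sub, Polynomial.map_mul, map_C,
        Polynomial.map_pow, map_X, map_zero, C_0, Polynomial.map_zero]
      ring)
  have hx : ∀ n : ℕ, (X ^ n : k[X]) ≠ 0 := fun n => pow_ne_zero n X_ne_zero
  have h1' := (mul_eq_zero.1 h1).resolve_left (hx _)
  have h2' := (mul_eq_zero.1 h2).resolve_left (hx _)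
  have h3' := (mul_eq_zero.1 h3).resolve_left (hx _)
  obtain ⟨a0, a1, a2, a3⟩ := cubic_zero hj h0
  obtain ⟨b0, b1, b2, -⟩ := cubic_zero hj h1'
  obtain ⟨c0, c1, -, -⟩ := cubic_zero hj h2'
  obtain ⟨d0, -, -, -⟩ := cubic_zero hj h3'
  exact ⟨⟨a0, a3, d0⟩, ⟨a1, a2, b0, c0, b2, c1⟩, b1⟩

/-- the classification for the system spanned by three matrices -/
theorem classify3 (h2 : (2 : k) ≠ 0) (A B D : Fin 6 → k) (hA : A ≠ 0)
    (h : (dt A = 0 ∧ dt B = 0 ∧ dt D = 0) ∧ (tq A B = 0 ∧ tq B A = 0 ∧ tq A D = 0 ∧ tq D A = 0 ∧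
      tq B D = 0 ∧ tq D B = 0) ∧ sq A B D = 0) :
    (∃ u : Fin 3 → k, u ≠ 0 ∧ mv A u = 0 ∧ mv B u = 0 ∧ mv D u = 0) ∨
      ∃ l m₀ m₁ m₂ : Fin 3 → k, A = sy l m₀ ∧ B = sy l m₁ ∧ D = sy l m₂ := by
  obtain ⟨⟨dA, dB, dD⟩, ⟨tAB, tBA, tAD, tDA, tBD, tDB⟩, hS⟩ := h
  let N : Set (Fin 6 → k) := {E | ∃ a b c : k, E = cmb A B D a b c}
  have mA : A ∈ N := ⟨1, 0, 0, by funext e; simp [cmb]⟩
  have mB : B ∈ N := ⟨0, 1, 0, by funext e; simp [cmb]⟩
  have mD : D ∈ N := ⟨0, 0, 1, by funext e; simp [cmb]⟩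
  have hN : ∀ E ∈ N, dt E = 0 := by
    rintro E ⟨a, b, c, rfl⟩
    rw [dt_cmb, dA, dB, dD, tAB, tBA, tAD, tDA, tBD, tDB, hS]
    ring
  have htr : ∀ E F : Fin 6 → k, tr E F = tq E F := by
    intro E F
    simp only [tr, tq, ad, Matrix.cons_val_zero, Matrix.cons_val_one, Matrix.cons_val]
  have hT : ∀ E ∈ N, ∀ F ∈ N, tr E F = 0 := by
    rintro E ⟨a, b, c, rfl⟩ F ⟨a', b', c', rfl⟩
    rw [htr, tq_cmb, dA, dB, dD, tAB, tBA, tAD, tDA, tBD, tDB, hS]
    ring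
  have hadd : ∀ E ∈ N, ∀ F ∈ N, E + F ∈ N := by
    rintro E ⟨a, b, c, rfl⟩ F ⟨a', b', c', rfl⟩
    refine ⟨a + a', b + b', c + c', ?_⟩
    funext e
    simp only [cmb, Pi.add_apply]
    ring
  rcases classify h2 N hadd ⟨A, mA, hA⟩ hN hT with ⟨u, hu, h⟩ | ⟨l, h⟩
  · exact Or.inl ⟨u, hu, h A mA, h B mB, h D mD⟩
  · obtain ⟨m₀, e0⟩ := h A mA
    obtain ⟨m₁, e1⟩ := h B mB
    obtain ⟨m₂, e2⟩ := h D mD
    exact Or.inr ⟨l, m₀, m₁, m₂, e0, e1, e2⟩

end

end Pool.Agent.Helper79.TP.Net
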