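import Pool.Agent.Helper79.TP.One3
import Pool.Agent.Helper79.TP.Desc
import Pool.Agent.Helper79.CP.Geo

/-!
# (W2) Fano trinomials with the weights 1, 2, 1; 1
-/

set_option autoImplicit false

namespace Pool.Agent.Helper79.TP

open Pool.Agent.Helper29.CQ Pool.Agent.Helper65.CC Pool.Agent.Helper87.CC
  Pool.Agent.Helper65.CC.KFn
open Pool.Agent.Helper9.QP (A4 Cst CV Inv)
open Pool.Agent.Helper9.TP (InvP NoV TS ChgW CstA)
open Pool.Agent.Helper71.CP (ev ev_map ev_mul ev_pow ev_add ev_C ev_X wt NoX ev_aeval)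
open Pool.Agent.Helper79.CP (hom_sub noX_of_ev)
open Pool.Agent.Helper49.TP (g3 up3)
open MvPolynomial (IsWeightedHomogeneous rename C X monomial aeval)

section small

variable {k : Type} [Field k]

/-- the evaluation of the decomposed forms -/
theorem ev_dec {F : MvPolynomial (Fin 3) k} {a : k} {A B : MvPolynomial (Fin 2) k}
    (h : F = C a * X 1 ^ 2 + rename jj A * X 1 + rename jj B) {R : Type} [CommRing R]
    [Algebra k R] (x y z : R) :
    ev F x y z = algebraMap k R a * y ^ 2 + e2 A x z * y + e2 B x z := by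
  rw [h, ev_add, ev_add, ev_mul, ev_mul, ev_C, ev_pow, ev_X, ev_jj, ev_jj]
  rfl

theorem map_dec {K : Type} [Field K] [Algebra k K] {F : MvPolynomial (Fin 3) k} {a : k}
    {A B : MvPolynomial (Fin 2) k}
    (h : F = C a * X 1 ^ 2 + rename jj A * X 1 + rename jj B) :
    up3 K F = C (algebraMap k K a) * X 1 ^ 2 + rename jj (MvPolynomial.map (algebraMap k K) A) *
      X 1 + rename jj (MvPolynomial.map (algebraMap k K) B) := by
  change MvPolynomial.map (algebraMap k K) F = _
  conv_lhs => rw [h]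
  rw [map_add, map_add, map_mul, map_mul, map_pow, MvPolynomial.map_C, MvPolynomial.map_X,
    MvPolynomial.map_rename, MvPolynomial.map_rename]

theorem hom_lin (a b : k) : IsWeightedHomogeneous wt (C a * X 0 + C b * X 2 :
    MvPolynomial (Fin 3) k) 1 :=
  ((MvPolynomial.isWeightedHomogeneous_X k wt 0).C_mul a).add
    ((MvPolynomial.isWeightedHomogeneous_X k wt 2).C_mul b)

/-- the change of coordinates -/
theorem exists_chg (a : k) (A₀ : MvPolynomial (Fin 2) k) (hA₀ : A₀.IsHomogeneous 2)
    (u0 m0 u2 m2 : k) (hd : u0 * m2 - m0 * u2 = 1) : ∃ τ : ChgW ![1, 2, 1] k,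
    ∀ (F : MvPolynomial (Fin 3) k) (R : Type) [CommRing R] [Algebra k R] (x y z : R),
    ev (aeval τ.fwd F) x y z = ev F (algebraMap k R u0 * x + algebraMap k R m0 * z)
      (y - algebraMap k R a * e2 A₀ (algebraMap k R u0 * x + algebraMap k R m0 * z)
        (algebraMap k R u2 * x + algebraMap k R m2 * z))
      (algebraMap k R u2 * x + algebraMap k R m2 * z) := by
  let L0 : MvPolynomial (Fin 3) k := C u0 * X 0 + C m0 * X 2
  let L2 : MvPolynomial (Fin 3) k := C u2 * X 0 + C m2 * X 2
  let M0 : MvPolynomial (Fin 3) k := C m2 * X 0 + C (-m0) * X 2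
  let M2 : MvPolynomial (Fin 3) k := C (-u2) * X 0 + C u0 * X 2
  let fwd : Fin 3 → MvPolynomial (Fin 3) k := ![L0, X 1 - C a * aeval ![L0, L2] A₀, L2]
  let bwd : Fin 3 → MvPolynomial (Fin 3) k := ![M0, X 1 + C a * rename jj A₀, M2]
  have f0 : fwd 0 = L0 := rfl
  have f1 : fwd 1 = X 1 - C a * aeval ![L0, L2] A₀ := rfl
  have f2 : fwd 2 = L2 := rfl
  have b0 : bwd 0 = M0 := rfl
  have b1 : bwd 1 = X 1 + C a * rename jj A₀ := rfl
  have b2 : bwd 2 = M2 := rfl
  have hjj : ∀ (t : Fin 3 → MvPolynomial (Fin 3) k), aeval t (rename jj A₀) =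
      aeval ![t 0, t 2] A₀ := by
    intro t
    rw [MvPolynomial.aeval_rename]
    congr 2
    funext i
    fin_cases i <;> rfl
  have hL0 : IsWeightedHomogeneous wt L0 1 := hom_lin u0 m0
  have hL2 : IsWeightedHomogeneous wt L2 1 := hom_lin u2 m2
  have hM0 : IsWeightedHomogeneous wt M0 1 := hom_lin m2 (-m0)
  have hM2 : IsWeightedHomogeneous wt M2 1 := hom_lin (-u2) u0
  have hX1 : IsWeightedHomogeneous wt (X 1 : MvPolynomial (Fin 3) k) 2 :=
    MvPolynomial.isWeightedHomogeneous_X k wt 1
  have hA : IsWeightedHomogeneous wt (rename jj A₀) 2 := wh_jj hA₀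
  have hA' : IsWeightedHomogeneous wt (aeval ![L0, L2] A₀) 2 := by
    have h1 := hom_sub ![L0, X 1, L2] (fun i => by
      fin_cases i
      · exact hL0
      · exact hX1
      · exact hL2) hA
    rw [hjj] at h1
    exact h1
  have c1 : (C (u0 * m2 - m0 * u2) : MvPolynomial (Fin 3) k) = 1 := by rw [hd, map_one]
  rw [map_sub, map_mul, map_mul] at c1
  have x1 : aeval fwd M0 = X 0 := by
    change aeval fwd (C m2 * X 0 + C (-m0) * X 2) = X 0
    rw [map_add, map_mul, map_mul, MvPolynomial.aeval_X, MvPolynomial.aeval_X, f0, f2,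
      MvPolynomial.algHom_C, MvPolynomial.algHom_C, MvPolynomial.algebraMap_eq]
    change C m2 * (C u0 * X 0 + C m0 * X 2) + C (-m0) * (C u2 * X 0 + C m2 * X 2) = X 0
    rw [map_neg]
    linear_combination X 0 * c1
  have x2 : aeval fwd M2 = X 2 := by
    change aeval fwd (C (-u2) * X 0 + C u0 * X 2) = X 2
    rw [map_add, map_mul, map_mul, MvPolynomial.aeval_X, MvPolynomial.aeval_X, f0, f2,
      MvPolynomial.algHom_C, MvPolynomial.algHom_C, MvPolynomial.algebraMap_eq]
    change C (-u2) * (C u0 * X 0 + C m0 * X 2) + C u0 * (C u2 * X 0 + C m2 * X 2) = X 2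
    rw [map_neg]
    linear_combination X 2 * c1
  have x3 : aeval bwd L0 = X 0 := by
    change aeval bwd (C u0 * X 0 + C m0 * X 2) = X 0
    rw [map_add, map_mul, map_mul, MvPolynomial.aeval_X, MvPolynomial.aeval_X, b0, b2,
      MvPolynomial.algHom_C, MvPolynomial.algHom_C, MvPolynomial.algebraMap_eq]
    change C u0 * (C m2 * X 0 + C (-m0) * X 2) + C m0 * (C (-u2) * X 0 + C u0 * X 2) = X 0
    rw [map_neg, map_neg]
    linear_combination X 0 * c1
  have x4 : aeval bwd L2 = X 2 := by
    change aeval bwd (C u2 * X 0 + C m2 * X 2) = X 2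
    rw [map_add, map_mul, map_mul, MvPolynomial.aeval_X, MvPolynomial.aeval_X, b0, b2,
      MvPolynomial.algHom_C, MvPolynomial.algHom_C, MvPolynomial.algebraMap_eq]
    change C u2 * (C m2 * X 0 + C (-m0) * X 2) + C m2 * (C (-u2) * X 0 + C u0 * X 2) = X 2
    rw [map_neg, map_neg]
    linear_combination X 2 * c1
  have x5 : aeval bwd (aeval ![L0, L2] A₀) = rename jj A₀ := by
    have h1 : (aeval bwd : MvPolynomial (Fin 3) k →ₐ[k] MvPolynomial (Fin 3) k).comp
        (aeval ![L0, L2]) = rename jj := by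
      apply MvPolynomial.algHom_ext
      intro i
      rw [AlgHom.comp_apply, MvPolynomial.aeval_X, MvPolynomial.rename_X]
      fin_cases i
      · exact x3
      · exact x4
    exact DFunLike.congr_fun h1 A₀
  let τ : ChgW ![1, 2, 1] k :=
    { fwd := fwd
      bwd := bwd
      hfwd := fun i => by
        fin_cases i
        · exact hL0
        · exact hX1.sub (hA'.C_mul a)
        · exact hL2
      hbwd := fun i => by
        fin_cases i
        · exact hM0
        · exact hX1.add (hA.C_mul a)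
        · exact hM2
      fwd_bwd := fun i => by
        fin_cases i
        · exact x1
        · change aeval fwd (X 1 + C a * rename jj A₀) = X 1
          rw [map_add, map_mul, MvPolynomial.aeval_X, f1, MvPolynomial.algHom_C,
            MvPolynomial.algebraMap_eq, hjj, f0, f2]
          ring
        · exact x2
      bwd_fwd := fun i => by
        fin_cases i
        · exact x3
        · change aeval bwd (X 1 - C a * aeval ![L0, L2] A₀) = X 1
          rw [map_sub, map_mul, MvPolynomial.aeval_X, b1, MvPolynomial.algHom_C,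
            MvPolynomial.algebraMap_eq, x5]
          ring
        · exact x4 }
  refine ⟨τ, fun F R _ _ x y z => ?_⟩
  rw [ev_aeval]
  have l0 : ev (τ.fwd 0) x y z = algebraMap k R u0 * x + algebraMap k R m0 * z := by
    change ev (C u0 * X 0 + C m0 * X 2) x y z = _
    rw [ev_add, ev_mul, ev_mul, ev_C, ev_C, ev_X, ev_X]
    rfl
  have l2 : ev (τ.fwd 2) x y z = algebraMap k R u2 * x + algebraMap k R m2 * z := by
    change ev (C u2 * X 0 + C m2 * X 2) x y z = _
    rw [ev_add, ev_mul, ev_mul, ev_C, ev_C, ev_X, ev_X]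
    rfl
  have l1 : ev (τ.fwd 1) x y z = y - algebraMap k R a *
      e2 A₀ (algebraMap k R u0 * x + algebraMap k R m0 * z)
        (algebraMap k R u2 * x + algebraMap k R m2 * z) := by
    have h1 : τ.fwd 1 = X 1 + C (-a) * aeval ![L0, L2] A₀ := by
      change X 1 - C a * aeval ![L0, L2] A₀ = _
      rw [map_neg]
      ring
    have h3 : ev (aeval ![L0, L2] A₀) x y z = e2 A₀ (ev L0 x y z) (ev L2 x y z) := by
      have h4 := e2_map A₀ (aeval ![x, y, z] : MvPolynomial (Fin 3) k →ₐ[k] R) L0 L2
      exact h4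
    have h5 : ev L0 x y z = algebraMap k R u0 * x + algebraMap k R m0 * z := l0
    have h6 : ev L2 x y z = algebraMap k R u2 * x + algebraMap k R m2 * z := l2
    rw [h1, ev_add, ev_mul, ev_C, ev_X, h3, h5, h6, map_neg]
    change y + -algebraMap k R a * _ = _
    ring
  rw [l0, l1, l2]

end small

variable {K : Type} [Field K] {G : ∀ (R : Type) [CommRing R] [Algebra K R], Prop}

/-- **(W2)** the cones over the trinomials with the weights `1, 2, 1; 1` -/
theorem mem_one [IsAlgClosed K] (h2 : (2 : K) ≠ 0) (hG : GOps K G) (hW : CstA G) {k : Type}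
    [Field k] [Finite k] [Algebra k K] (F₀ F₁ F₂ : MvPolynomial (Fin 3) k) (s t : ℕ) (hs : 0 < s)
    (ht : 0 < t) (hst : s ≠ t) (hle : s + t ≤ 4) (h₀ : IsWeightedHomogeneous ![1, 2, 1] F₀ 4)
    (h₁ : IsWeightedHomogeneous ![1, 2, 1] F₁ (4 - t))
    (h₂ : IsWeightedHomogeneous ![1, 2, 1] F₂ (4 - (s + t)))
    (hy : F₀.coeff (Finsupp.single 1 2) ≠ 0) (_n₁ : F₁ ≠ 0) (_n₂ : F₂ ≠ 0) (c : K) (hc : c ≠ 0) :
    (TS (MvPolynomial.map (algebraMap k K) F₀) (MvPolynomial.map (algebraMap k K) F₁)
      (MvPolynomial.map (algebraMap k K) F₂) s t c).Mem G ∨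
    ∃ τ : ChgW ![1, 2, 1] k, NoV 0 (aeval τ.fwd F₀) ∧ NoV 0 (aeval τ.fwd F₁) ∧
      NoV 0 (aeval τ.fwd F₂) := by
  classical
  have h2k : (2 : k) ≠ 0 := by
    intro h
    apply h2
    rw [← map_ofNat (algebraMap k K) 2, h, map_zero]
  obtain ⟨A₀, B₀, hA₀, -, hB₀, -, e₀⟩ := exists_dec (le_refl 4) h₀
  obtain ⟨A₁, B₁, hA₁, hA₁', hB₁, hc₁, e₁⟩ := exists_dec (by omega) h₁
  obtain ⟨A₂, B₂, -, hA₂', hB₂, hc₂, e₂⟩ := exists_dec (by omega) h₂
  have hA₂ : A₂ = 0 := hA₂' (by omega)
  set a₀ := F₀.coeff (Finsupp.single 1 2) with ha₀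
  rw [hc₁ (by omega)] at e₁
  rw [hc₂ (by omega), hA₂] at e₂
  let m : MvPolynomial (Fin 2) k → MvPolynomial (Fin 2) K := MvPolynomial.map (algebraMap k K)
  have hm : ∀ {P : MvPolynomial (Fin 2) k} {d : ℕ}, P.IsHomogeneous d → (m P).IsHomogeneous d :=
    fun h => h.map _
  let D : Dat K :=
    { s := s, t := t, a := algebraMap k K a₀, c := c, A₀ := m A₀, B₀ := m B₀, A₁ := m A₁
      B₁ := m B₁, B₂ := m B₂, hs := hs, ht := ht, hst := hst, hle := hle, hA₀ := hm hA₀
      hB₀ := hm hB₀, hA₁ := hm hA₁, hA₁' := fun h => by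
        change MvPolynomial.map (algebraMap k K) A₁ = 0
        rw [hA₁' h, map_zero]
      hB₁ := hm hB₁, hB₂ := hm hB₂ }
  have hDa : D.a ≠ 0 := by
    change algebraMap k K a₀ ≠ 0
    intro h
    exact hy ((map_eq_zero_iff _ (algebraMap k K).injective).1 h)
  obtain ⟨c', hc'⟩ := D.exists_c
  -- the explicit form
  have E₀ : ∀ (R : Type) [CommRing R] [Algebra K R] (x y z : R), ev (up3 K F₀) x y z =
      algebraMap K R D.a * y ^ 2 + e2 D.A₀ x z * y + e2 D.B₀ x z := fun R _ _ x y z =>
    ev_dec (map_dec e₀) x y z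
  have E₁ : ∀ (R : Type) [CommRing R] [Algebra K R] (x y z : R), ev (up3 K F₁) x y z =
      e2 D.A₁ x z * y + e2 D.B₁ x z := fun R _ _ x y z => by
    rw [ev_dec (map_dec e₁) x y z, map_zero, map_zero, zero_mul, zero_add]
  have E₂ : ∀ (R : Type) [CommRing R] [Algebra K R] (x y z : R), ev (up3 K F₂) x y z =
      e2 D.B₂ x z := fun R _ _ x y z => by
    rw [ev_dec (map_dec e₂) x y z, map_zero, map_zero, zero_mul, zero_add]
    have h1 : e2 (MvPolynomial.map (algebraMap k K) (0 : MvPolynomial (Fin 2) k)) x z = 0 := by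
      rw [map_zero]
      exact map_zero _
    rw [h1, zero_mul, zero_add]
  have hT : ∀ (R : Type) [CommRing R] [Algebra K R] (x y z r : R),
      ev (up3 K F₀) x y z - r ^ t * ev (up3 K F₁) x y z +
        algebraMap K R c * r ^ (s + t) * ev (up3 K F₂) x y z =
      algebraMap K R D.a * y ^ 2 + D.A x z r * y + D.B x z r := by
    intro R _ _ x y z r
    rw [E₀, E₁, E₂, Dat.A, Dat.B]
    ring
  have isoT : Iso (TS (up3 K F₀) (up3 K F₁) (up3 K F₂) s t c) D.T :=
    { hom := fun {R} _ _ x => ⟨x.1, (hT R x.1.1 x.1.2.1 x.1.2.2.1 x.1.2.2.2).symm.trans x.2⟩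
      inv := fun {R} _ _ x => ⟨x.1, (hT R x.1.1 x.1.2.1 x.1.2.2.1 x.1.2.2.2).trans x.2⟩
      inv_hom := fun _ => rfl
      hom_inv := fun _ => rfl
      nat := fun _ _ => rfl }
  have red : (CV c').Mem G → (TS (up3 K F₀) (up3 K F₁) (up3 K F₂) s t c).Mem G := fun h =>
    Mem.of_iso isoT (Mem.of_iso (D.isoCV h2 hDa c' hc') h)
  by_cases hinv : ∀ v : Fin 3 → K, v ≠ 0 → ¬ Inv c' v
  · exact Or.inl (red (Pool.Agent.Helper71.QP.cone_mem h2 hG c' hinv))
  push Not at hinv
  obtain ⟨v, hv, hi⟩ := hinv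
  by_cases hv2 : v 2 = 0
  swap
  · -- the direction moves `r`
    left
    apply red
    let E : MvPolynomial (Fin 3) k := X 1 ^ 2 - rename jj (A₀ ^ 2 - C (4 * a₀) * B₀)
    have hEe : ∀ (R : Type) [CommRing R] [Algebra k R] (x y z : R), ev E x y z =
        y ^ 2 - e2 (A₀ ^ 2 - C (4 * a₀) * B₀) x z := by
      intro R _ _ x y z
      have h1 : E = X 1 ^ 2 + C (-1) * rename jj (A₀ ^ 2 - C (4 * a₀) * B₀) := by
        change X 1 ^ 2 - rename jj (A₀ ^ 2 - C (4 * a₀) * B₀) = _
        rw [map_neg, map_one]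
        ring
      rw [h1, ev_add, ev_mul, ev_C, ev_pow, ev_X, ev_jj, map_neg, map_one]
      change y ^ 2 + -1 * _ = _
      ring
    have hE : IsWeightedHomogeneous wt E 4 := by
      have h1 : IsWeightedHomogeneous wt (X 1 ^ 2 : MvPolynomial (Fin 3) k) 4 := by
        have := (MvPolynomial.isWeightedHomogeneous_X k wt 1).pow 2
        simpa using this
      refine h1.sub (wh_jj ?_)
      have h3 := hA₀.pow 2
      exact h3.sub (hB₀.C_mul _)
    have hE0 : E ≠ 0 := by
      intro h0
      have h1 := hEe k 0 1 0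
      have h3 := hEe k 0 0 0
      have h4 : ∀ x y z : k, ev E x y z = 0 := by
        intro x y z
        rw [h0]
        exact map_zero _
      rw [h4] at h1 h3
      apply one_ne_zero (α := k)
      linear_combination h3 - h1
    refine D.mem_move hG c' hc' v hv2 hi (up3 K E) ?_ (mem_Bw hG.toKOps (hW k) E hE hE0)
    intro R _ _ x y z
    have h1 : up3 K E = X 1 ^ 2 + C (-1) * rename jj (m A₀ ^ 2 - C (4 * algebraMap k K a₀) *
        m B₀) := by
      change MvPolynomial.map (algebraMap k K) (X 1 ^ 2 - rename jj (A₀ ^ 2 - C (4 * a₀) * B₀)) = _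
      rw [map_sub, map_pow, MvPolynomial.map_X, MvPolynomial.map_rename, map_sub, map_pow, map_mul,
        MvPolynomial.map_C, map_mul (algebraMap k K), map_ofNat (algebraMap k K), map_neg, map_one]
      ring
    rw [h1, ev_add, ev_mul, ev_C, ev_pow, ev_X, ev_jj, map_neg, map_one]
    change y ^ 2 + -1 * e2 (m A₀ ^ 2 - C (4 * algebraMap k K a₀) * m B₀) x z = y ^ 2 - D.H x z 0
    have h3 : e2 (m A₀ ^ 2 - C (4 * algebraMap k K a₀) * m B₀) x z =
        e2 D.A₀ x z ^ 2 - 4 * algebraMap K R D.a * e2 D.B₀ x z := by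
      unfold e2
      rw [map_sub, map_pow, map_mul, MvPolynomial.aeval_C, map_mul (algebraMap K R),
        map_ofNat (algebraMap K R)]
    have h4 : D.H x z 0 = e2 D.A₀ x z ^ 2 - 4 * algebraMap K R D.a * e2 D.B₀ x z := by
      rw [Dat.H, Dat.A, Dat.B, zero_pow D.ht.ne', zero_pow (by have := D.ht; omega)]
      ring
    rw [h3, h4]
    ring
  · -- the direction does not move `r`
    right
    let H₀ : MvPolynomial (Fin 2) k := A₀ ^ 2 - C (4 * a₀) * B₀
    let H₁ : MvPolynomial (Fin 2) k := C (4 * a₀) * B₁ - C 2 * A₀ * A₁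
    let S : Set (MvPolynomial (Fin 3) k) :=
      {rename jj H₀, rename jj H₁, rename jj (A₁ ^ 2), rename jj B₂, X 1}
    have hev : ∀ (P : MvPolynomial (Fin 2) k) (R : Type) [CommRing R] [Algebra K R] (x y z : R),
        ev (MvPolynomial.map (algebraMap k K) (rename jj P)) x y z = e2 (m P) x z := by
      intro P R _ _ x y z
      rw [MvPolynomial.map_rename, ev_jj]
    have hco := D.inv_coeff c' hc' v hv2 hi
    have hinvS : ∀ F ∈ S, InvP (MvPolynomial.map (algebraMap k K) F) ![v 0, 0, v 1] := by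
      intro F hF
      have hm0 : ∀ (R : Type) [CommRing R] [Algebra K R] (x z : R), e2 (m H₀) x z =
          e2 D.A₀ x z ^ 2 - 4 * algebraMap K R D.a * e2 D.B₀ x z := by
        intro R _ _ x z
        change e2 (MvPolynomial.map (algebraMap k K) (A₀ ^ 2 - C (4 * a₀) * B₀)) x z = _
        unfold e2
        rw [map_sub, map_pow, map_mul, MvPolynomial.map_C, map_sub, map_pow, map_mul,
          MvPolynomial.aeval_C, map_mul (algebraMap k K), map_ofNat (algebraMap k K),
          map_mul (algebraMap K R), map_ofNat (algebraMap K R)]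
      have hm1 : ∀ (R : Type) [CommRing R] [Algebra K R] (x z : R), e2 (m H₁) x z =
          4 * algebraMap K R D.a * e2 D.B₁ x z - 2 * e2 D.A₀ x z * e2 D.A₁ x z := by
        intro R _ _ x z
        change e2 (MvPolynomial.map (algebraMap k K) (C (4 * a₀) * B₁ - C 2 * A₀ * A₁)) x z = _
        unfold e2
        simp only [map_sub, map_mul, MvPolynomial.map_C, MvPolynomial.aeval_C,
          map_ofNat (algebraMap k K), map_ofNat (algebraMap K R)]
        rfl
      have hF' : F = rename jj H₀ ∨ F = rename jj H₁ ∨ F = rename jj (A₁ ^ 2) ∨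
          F = rename jj B₂ ∨ F = X 1 := hF
      rcases hF' with rfl | rfl | rfl | rfl | rfl
      · intro R _ _ x y z r
        rw [hev, hev, hm0, hm0]
        exact (hco R x z r).1
      · intro R _ _ x y z r
        rw [hev, hev, hm1, hm1]
        exact (hco R x z r).2.1
      · intro R _ _ x y z r
        rw [hev, hev]
        have h3 : ∀ x z : R, e2 (m (A₁ ^ 2)) x z = e2 D.A₁ x z ^ 2 := by
          intro x z
          change e2 (MvPolynomial.map (algebraMap k K) (A₁ ^ 2)) x z = _
          unfold e2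
          rw [map_pow, map_pow]
        rw [h3, h3]
        exact (hco R x z r).2.2.1
      · intro R _ _ x y z r
        rw [hev, hev]
        have h3 := (hco R x z r).2.2.2
        have h4 : (4 : K) * D.a * D.c ≠ 0 := by
          refine mul_ne_zero (mul_ne_zero ?_ hDa) hc
          have : (4 : K) = 2 * 2 := by norm_num
          rw [this]
          exact mul_ne_zero h2 h2
        have h5 : algebraMap K R ((4 * D.a * D.c)⁻¹) * (4 * algebraMap K R D.a *
            algebraMap K R D.c) = 1 := by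
          rw [← map_ofNat (algebraMap K R) 4, ← map_mul, ← map_mul, ← map_mul, inv_mul_cancel₀ h4,
            map_one]
        change e2 D.B₂ (x + r * algebraMap K R (v 0)) (z + r * algebraMap K R (v 1)) =
          e2 D.B₂ x z
        linear_combination algebraMap K R ((4 * D.a * D.c)⁻¹) * h3 -
          (e2 D.B₂ (x + r * algebraMap K R (v 0)) (z + r * algebraMap K R (v 1)) -
            e2 D.B₂ x z) * h5
      · intro R _ _ x y z r
        rw [MvPolynomial.map_X, ev_X, ev_X]
        change y + r * algebraMap K R 0 = y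
        rw [map_zero, mul_zero, add_zero]
    have hv' : (![v 0, 0, v 1] : Fin 3 → K) ≠ 0 := by
      intro h0
      apply hv
      funext i
      fin_cases i
      · exact congrFun h0 0
      · exact congrFun h0 2
      · exact hv2
    obtain ⟨u, hu, hS⟩ := desc S _ hv' hinvS
    have hu1 : u 1 = 0 := by
      have h3 := hS (X 1) (by
        change X 1 = _ ∨ X 1 = _ ∨ X 1 = _ ∨ X 1 = _ ∨ X 1 = X 1
        exact Or.inr (Or.inr (Or.inr (Or.inr rfl)))) k 0 0 0 1
      rw [ev_X, ev_X] at h3
      have h4 : (0 : k) + 1 * algebraMap k k (u 1) = 0 := h3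
      rw [zero_add, one_mul] at h4
      exact h4
    have k0 : InvP (rename jj H₀) u := hS _ (Or.inl rfl)
    have k1 : InvP (rename jj H₁) u := hS _ (Or.inr (Or.inl rfl))
    have k2 : InvP (rename jj A₁) u := by
      apply inv_sq h2k
      rw [← map_pow]
      exact hS _ (Or.inr (Or.inr (Or.inl rfl)))
    have k3 : InvP (rename jj B₂) u := hS _ (Or.inr (Or.inr (Or.inr (Or.inl rfl))))
    obtain ⟨m0, m2, hdet⟩ : ∃ m0 m2 : k, u 0 * m2 - m0 * u 2 = 1 := by
      by_cases h0 : u 0 = 0
      · have h3 : u 2 ≠ 0 := by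
          intro h3
          apply hu
          funext i
          fin_cases i
          · exact h0
          · exact hu1
          · exact h3
        refine ⟨-(u 2)⁻¹, 0, ?_⟩
        rw [mul_zero, neg_mul, inv_mul_cancel₀ h3]
        ring
      · refine ⟨0, (u 0)⁻¹, ?_⟩
        rw [mul_inv_cancel₀ h0]
        ring
    obtain ⟨τ, hτ⟩ := exists_chg (2 * a₀)⁻¹ A₀ hA₀ (u 0) m0 (u 2) m2 hdet
    have hjv : ∀ {P : MvPolynomial (Fin 2) k}, InvP (rename jj P) u →
        ∀ (R : Type) [CommRing R] [Algebra k R] (x z : R),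
        e2 P (algebraMap k R (u 0) * x + algebraMap k R m0 * z)
          (algebraMap k R (u 2) * x + algebraMap k R m2 * z) =
        e2 P (algebraMap k R m0 * z) (algebraMap k R m2 * z) := by
      intro P hP R _ _ x z
      have h3 := hP R (algebraMap k R m0 * z) 0 (algebraMap k R m2 * z) x
      rw [ev_jj, ev_jj] at h3
      rw [← h3]
      congr 1 <;> ring
    have hi2 : ∀ (R : Type) [CommRing R] [Algebra k R], 2 * algebraMap k R a₀ *
        algebraMap k R (2 * a₀)⁻¹ = 1 := by
      intro R _ _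
      rw [← map_ofNat (algebraMap k R) 2, ← map_mul, ← map_mul,
        mul_inv_cancel₀ (mul_ne_zero h2k hy), map_one]
    have h4k : (4 : k) * a₀ ≠ 0 := by
      refine mul_ne_zero ?_ hy
      have : (4 : k) = 2 * 2 := by norm_num
      rw [this]
      exact mul_ne_zero h2k h2k
    have hi4 : ∀ (R : Type) [CommRing R] [Algebra k R], algebraMap k R (4 * a₀)⁻¹ *
        (4 * algebraMap k R a₀) = 1 := by
      intro R _ _
      rw [← map_ofNat (algebraMap k R) 4, ← map_mul, ← map_mul, inv_mul_cancel₀ h4k, map_one]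
    have hH₀ : ∀ (R : Type) [CommRing R] [Algebra k R] (x z : R), e2 H₀ x z =
        e2 A₀ x z ^ 2 - 4 * algebraMap k R a₀ * e2 B₀ x z := by
      intro R _ _ x z
      change e2 (A₀ ^ 2 - C (4 * a₀) * B₀) x z = _
      unfold e2
      rw [map_sub, map_pow, map_mul, MvPolynomial.aeval_C, map_mul (algebraMap k R),
        map_ofNat (algebraMap k R)]
    have hH₁ : ∀ (R : Type) [CommRing R] [Algebra k R] (x z : R), e2 H₁ x z =
        4 * algebraMap k R a₀ * e2 B₁ x z - 2 * e2 A₀ x z * e2 A₁ x z := by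
      intro R _ _ x z
      change e2 (C (4 * a₀) * B₁ - C 2 * A₀ * A₁) x z = _
      unfold e2
      simp only [map_sub, map_mul, MvPolynomial.aeval_C, map_ofNat (algebraMap k R)]
    refine ⟨τ, noV_of_noX (noX_of_ev ?_), noV_of_noX (noX_of_ev ?_), noV_of_noX (noX_of_ev ?_)⟩
    · have h3 : ∀ {R : Type} [CommRing R] [Algebra k R] (x y z : R),
          ev (aeval τ.fwd F₀) x y z = algebraMap k R a₀ * y ^ 2 - algebraMap k R (4 * a₀)⁻¹ *
            e2 H₀ (algebraMap k R m0 * z) (algebraMap k R m2 * z) := by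
        intro R _ _ x y z
        rw [hτ, ev_dec e₀, ← hjv k0, hH₀]
        have q2 := hi2 R
        have q4 := hi4 R
        set X' := algebraMap k R (u 0) * x + algebraMap k R m0 * z
        set Z' := algebraMap k R (u 2) * x + algebraMap k R m2 * z
        set a := algebraMap k R a₀
        set i := algebraMap k R (2 * a₀)⁻¹
        set j := algebraMap k R (4 * a₀)⁻¹
        set A := e2 A₀ X' Z'
        set B := e2 B₀ X' Z'
        -- `4 a (lhs - rhs) = 0`
        have key : 4 * a * (a * (y - i * A) ^ 2 + A * (y - i * A) + B -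
            (a * y ^ 2 - j * (A ^ 2 - 4 * a * B))) = 0 := by
          linear_combination ((2 * a * i + 1) * A ^ 2 - 4 * a * y * A - 2 * A ^ 2) * q2 +
            (A ^ 2 - 4 * a * B) * q4
        have key2 : a * (y - i * A) ^ 2 + A * (y - i * A) + B -
            (a * y ^ 2 - j * (A ^ 2 - 4 * a * B)) = 0 := by
          calc a * (y - i * A) ^ 2 + A * (y - i * A) + B -
              (a * y ^ 2 - j * (A ^ 2 - 4 * a * B))
              = j * (4 * a) * (a * (y - i * A) ^ 2 + A * (y - i * A) + B -
              (a * y ^ 2 - j * (A ^ 2 - 4 * a * B))) := by rw [q4, one_mul]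
            _ = j * (4 * a * (a * (y - i * A) ^ 2 + A * (y - i * A) + B -
              (a * y ^ 2 - j * (A ^ 2 - 4 * a * B)))) := by ring
            _ = 0 := by rw [key, mul_zero]
        exact sub_eq_zero.1 key2
      intro R _ _ x y z
      rw [h3, h3]
    · have h3 : ∀ {R : Type} [CommRing R] [Algebra k R] (x y z : R),
          ev (aeval τ.fwd F₁) x y z = e2 A₁ (algebraMap k R m0 * z) (algebraMap k R m2 * z) * y +
            algebraMap k R (4 * a₀)⁻¹ *
              e2 H₁ (algebraMap k R m0 * z) (algebraMap k R m2 * z) := by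
        intro R _ _ x y z
        rw [hτ, ev_dec e₁, ← hjv k1, hH₁, ← hjv k2, map_zero, zero_mul, zero_add]
        have q2 := hi2 R
        have q4 := hi4 R
        set X' := algebraMap k R (u 0) * x + algebraMap k R m0 * z
        set Z' := algebraMap k R (u 2) * x + algebraMap k R m2 * z
        set a := algebraMap k R a₀
        set i := algebraMap k R (2 * a₀)⁻¹
        set j := algebraMap k R (4 * a₀)⁻¹
        set A := e2 A₀ X' Z'
        set A' := e2 A₁ X' Z'
        set B := e2 B₁ X' Z'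
        have key : 4 * a * (A' * (y - i * A) + B -
            (A' * y + j * (4 * a * B - 2 * A * A'))) = 0 := by
          linear_combination (-(2 * A * A')) * q2 - (4 * a * B - 2 * A * A') * q4
        have key2 : A' * (y - i * A) + B - (A' * y + j * (4 * a * B - 2 * A * A')) = 0 := by
          calc A' * (y - i * A) + B - (A' * y + j * (4 * a * B - 2 * A * A'))
              = j * (4 * a) * (A' * (y - i * A) + B -
                (A' * y + j * (4 * a * B - 2 * A * A'))) := by rw [q4, one_mul]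
            _ = j * (4 * a * (A' * (y - i * A) + B -
                (A' * y + j * (4 * a * B - 2 * A * A')))) := by ring
            _ = 0 := by rw [key, mul_zero]
        exact sub_eq_zero.1 key2
      intro R _ _ x y z
      rw [h3, h3]
    · have h3 : ∀ {R : Type} [CommRing R] [Algebra k R] (x y z : R),
          ev (aeval τ.fwd F₂) x y z = e2 B₂ (algebraMap k R m0 * z) (algebraMap k R m2 * z) := by
        intro R _ _ x y z
        rw [hτ, ev_dec e₂, ← hjv k3, map_zero, zero_mul, zero_add]
        have h5 : ∀ x z : R, e2 (0 : MvPolynomial (Fin 2) k) x z = 0 := fun _ _ => map_zero _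
        rw [h5, zero_mul, zero_add]
      intro R _ _ x y z
      rw [h3, h3]

end Pool.Agent.Helper79.TP
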