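import Pool.Agent.Helper49.TP.ConstK
import Pool.Agent.Helper49.CP.Conic

/-!
# Constant cones over the curves in the weighted plane with the weights 1, 2, 1
-/

set_option autoImplicit false

namespace Pool.Agent.Helper79.TP

open Pool.Agent.Helper29.CQ Pool.Agent.Helper65.CC Pool.Agent.Helper87.CC
  Pool.Agent.Helper65.CC.KFn
open Pool.Agent.Helper9.QP (A4 isoA4 mem_A4 Cst)
open Pool.Agent.Helper71.CP (ev ev_map ev_mul ev_pow ev_scale wt)
open Pool.Agent.Helper71.PN
open Pool.Agent.Helper49.QP (rs bc)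
open Pool.Agent.Helper49.CP (Gk mem_of_k ev_rs scCls e1 aeval_e1 e1_ne)
open Pool.Agent.Helper49.TP (Cone1 g3 Wt lnv up3)
open MvPolynomial (IsWeightedHomogeneous)

section small

variable {k : Type} [Field k]

/-- the scaling of the space with the weights `1, 2, 1` -/
def A3w : Sc (A3 k) where
  sc {R} _ _ u x := ((u : R) * x.1, (u : R) ^ 2 * x.2.1, (u : R) * x.2.2)
  one x := by
    refine Prod.ext ?_ (Prod.ext ?_ ?_)
    · exact one_mul _
    · change ((1 : _) : _) ^ 2 * x.2.1 = x.2.1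
      simp
    · exact one_mul _
  mul {R} _ _ u v x := by
    refine Prod.ext ?_ (Prod.ext ?_ ?_)
    · exact mul_assoc _ _ _
    · change ((u * v : Rˣ) : R) ^ 2 * x.2.1 = (u : R) ^ 2 * ((v : R) ^ 2 * x.2.1)
      rw [Units.val_mul]
      ring
    · exact mul_assoc _ _ _
  nat {R S} _ _ _ _ f u x := by
    refine Prod.ext ?_ (Prod.ext ?_ ?_)
    · exact map_mul f _ _
    · change f ((u : R) ^ 2 * x.2.1) = _
      rw [map_mul, map_pow]
      rfl
    · exact map_mul f _ _

theorem g3_wtw {B : MvPolynomial (Fin 3) k} {d : ℕ} (hB : IsWeightedHomogeneous wt B d) :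
    Wt A3w (g3 B) d := fun R _ _ t x => ev_scale hB (t : R) x.1 x.2.1 x.2.2

/-- the values of a polynomial on the lines `x = a`, `z = 0` -/
noncomputable def lnx (B : MvPolynomial (Fin 3) k) (a : k) : Coord (A1 k) :=
  ⟨fun {R} _ _ y => ev B (algebraMap k R a) (show R from y) 0, fun {R S} _ _ _ _ f y => by
    refine (ev_map B f (algebraMap k R a) (show R from y) 0).trans ?_
    rw [map_zero, AlgHom.commutes]
    rfl⟩

/-- the affine cone over a curve -/
noncomputable def basew (B : MvPolynomial (Fin 3) k) {d : ℕ} (hB : IsWeightedHomogeneous wt B d)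
    (h0 : B ≠ 0) : Cone1 ((A3 k).cls (g3 B)) where
  s := scCls A3w (g3 B) d fun {R} _ _ t x => g3_wtw hB R t x
  z := ⟨fun x => x.1.2.2, fun _ _ => rfl⟩
  y := ⟨fun x => x.1.1, fun _ _ => rfl⟩
  hz R _ _ t x := by
    rw [pow_one]
    rfl
  hy R _ _ t x := by
    rw [pow_one]
    rfl
  d1 := by
    refine D1.of_iso (F' := PC (e1 B)) ?_ (D1.curve (e1_ne hB h0))
    exact
      { hom := fun {R} _ _ x => ⟨(x.1.1.1, x.1.1.2.1), by
          have h : ev B x.1.1.1 x.1.1.2.1 x.1.1.2.2 = 0 := x.1.2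
          have h1 : x.1.1.2.2 - algebraMap k R 1 = 0 := x.2
          rw [map_one, sub_eq_zero] at h1
          rw [h1] at h
          exact (aeval_e1 B _ _).trans h⟩
        inv := fun {R} _ _ x => ⟨⟨(x.1.1, x.1.2, 1), (aeval_e1 B _ _).symm.trans x.2⟩, by
          change 1 - algebraMap k R 1 = 0
          rw [map_one, sub_self]⟩
        inv_hom := fun {R} _ _ x => by
          have h1 : x.1.1.2.2 - algebraMap k R 1 = 0 := x.2
          rw [map_one, sub_eq_zero] at h1
          exact Subtype.ext (Subtype.ext (Prod.ext rfl (Prod.ext rfl h1.symm)))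
        hom_inv := fun _ => rfl
        nat := fun _ _ => rfl }
  d2 := by
    refine D1.of_iso (F' := (A1 k).cls (lnx B 1)) ?_ (D1.line1.cls _)
    exact
      { hom := fun {R} _ _ x => ⟨x.1.1.1.2.1, by
          have h : ev B x.1.1.1.1 x.1.1.1.2.1 x.1.1.1.2.2 = 0 := x.1.1.2
          have h1 : x.1.1.1.2.2 = 0 := x.1.2
          have h2 : x.1.1.1.1 - algebraMap k R 1 = 0 := x.2
          rw [h1, sub_eq_zero.1 h2] at h
          exact h⟩
        inv := fun {R} _ _ x => ⟨⟨⟨(algebraMap k R 1, x.1, 0), x.2⟩, rfl⟩, sub_self _⟩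
        inv_hom := fun {R} _ _ x => by
          have h1 : x.1.1.1.2.2 = 0 := x.1.2
          have h2 : x.1.1.1.1 - algebraMap k R 1 = 0 := x.2
          exact Subtype.ext (Subtype.ext (Subtype.ext (Prod.ext (sub_eq_zero.1 h2).symm
            (Prod.ext rfl h1.symm))))
        hom_inv := fun _ => rfl
        nat := fun _ _ => rfl }
  d3 := by
    refine D1.of_iso (F' := (A1 k).cls (lnx B 0)) ?_ (D1.line1.cls _)
    exact
      { hom := fun {R} _ _ x => ⟨x.1.1.1.2.1, by
          have h : ev B x.1.1.1.1 x.1.1.1.2.1 x.1.1.1.2.2 = 0 := x.1.1.2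
          have h1 : x.1.1.1.2.2 = 0 := x.1.2
          have h2 : x.1.1.1.1 = 0 := x.2
          rw [h1, h2] at h
          change ev B (algebraMap k R 0) x.1.1.1.2.1 0 = 0
          rw [map_zero]
          exact h⟩
        inv := fun {R} _ _ x => ⟨⟨⟨(algebraMap k R 0, x.1, 0), x.2⟩, rfl⟩, map_zero _⟩
        inv_hom := fun {R} _ _ x => by
          have h1 : x.1.1.1.2.2 = 0 := x.1.2
          have h2 : x.1.1.1.1 = 0 := x.2
          exact Subtype.ext (Subtype.ext (Subtype.ext (Prod.ext
            ((map_zero (algebraMap k R)).trans h2.symm) (Prod.ext rfl h1.symm))))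
        hom_inv := fun _ => rfl
        nat := fun _ _ => rfl }

end small

variable {k K : Type} [Field k] [Field K] [Algebra k K]
  {G : ∀ (R : Type) [CommRing R] [Algebra K R], Prop}

/-- constant cones over the curves in the weighted plane -/
theorem mem_Bw [Finite k] (hG : KOps K G) (hW : Cst k G) (B : MvPolynomial (Fin 3) k) {d : ℕ}
    (hB : IsWeightedHomogeneous wt B d) (h0 : B ≠ 0) : ((A3 K).cls (g3 (up3 K B))).Mem G := by
  refine Mem.of_iso ?_ (mem_of_k hG ((basew B hB h0).mem (K := K) hG hW))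
  exact
    { hom := fun {R} _ _ x => ⟨x.1, (ev_rs B x.1.1 x.1.2.1 x.1.2.2).symm.trans x.2⟩
      inv := fun {R} _ _ x => ⟨x.1, (ev_rs (K := K) B x.1.1 x.1.2.1 x.1.2.2).trans x.2⟩
      inv_hom := fun _ => rfl
      hom_inv := fun _ => rfl
      nat := fun _ _ => rfl }

end Pool.Agent.Helper79.TP
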