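import Pool.Agent.Helper79.TP.One1
import Pool.Agent.Helper79.TP.One2
import Pool.Agent.Helper71.QP.Cone

/-!
# The cone over the double plane of a trinomial with the weights 1, 2, 1; 1
-/

set_option autoImplicit false

namespace Pool.Agent.Helper79.TP

open Pool.Agent.Helper29.CQ Pool.Agent.Helper65.CC Pool.Agent.Helper87.CC
  Pool.Agent.Helper65.CC.KFn
open Pool.Agent.Helper9.QP (A4 Cst CV Inv)
open Pool.Agent.Helper9.TP (InvP NoV TS ChgW CstA)
open Pool.Agent.Helper71.CP (ev ev_map ev_mul ev_pow ev_add ev_C ev_X wt NoX)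
open Pool.Agent.Helper49.TP (g3 up3)
open MvPolynomial (IsWeightedHomogeneous rename C X monomial)

variable {K : Type} [Field K] {G : ∀ (R : Type) [CommRing R] [Algebra K R], Prop}

/-- the data of the pencil over the large field -/
structure Dat (K : Type) [Field K] where
  /-- exponents -/
  s : ℕ
  /-- exponents -/
  t : ℕ
  /-- the coefficient of `y ^ 2` -/
  a : K
  /-- the parameter -/
  c : K
  /-- coefficients -/
  A₀ : MvPolynomial (Fin 2) K
  /-- coefficients -/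
  B₀ : MvPolynomial (Fin 2) K
  /-- coefficients -/
  A₁ : MvPolynomial (Fin 2) K
  /-- coefficients -/
  B₁ : MvPolynomial (Fin 2) K
  /-- coefficients -/
  B₂ : MvPolynomial (Fin 2) K
  hs : 0 < s
  ht : 0 < t
  hst : s ≠ t
  hle : s + t ≤ 4
  hA₀ : A₀.IsHomogeneous 2
  hB₀ : B₀.IsHomogeneous 4
  hA₁ : A₁.IsHomogeneous (4 - t - 2)
  hA₁' : 4 - t < 2 → A₁ = 0
  hB₁ : B₁.IsHomogeneous (4 - t)
  hB₂ : B₂.IsHomogeneous (4 - (s + t))

namespace Dat

variable (D : Dat K)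

/-- the linear coefficient -/
noncomputable def A {R : Type} [CommRing R] [Algebra K R] (x z r : R) : R :=
  e2 D.A₀ x z - r ^ D.t * e2 D.A₁ x z

/-- the constant coefficient -/
noncomputable def B {R : Type} [CommRing R] [Algebra K R] (x z r : R) : R :=
  e2 D.B₀ x z - r ^ D.t * e2 D.B₁ x z + algebraMap K R D.c * r ^ (D.s + D.t) * e2 D.B₂ x z

/-- the branch form -/
noncomputable def H {R : Type} [CommRing R] [Algebra K R] (x z r : R) : R :=
  D.A x z r ^ 2 - 4 * algebraMap K R D.a * D.B x z r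

theorem A_map {R S : Type} [CommRing R] [Algebra K R] [CommRing S] [Algebra K S] (f : R →ₐ[K] S)
    (x z r : R) : f (D.A x z r) = D.A (f x) (f z) (f r) := by
  simp only [A, map_sub, map_mul, map_pow, e2_map]

/-- the pencil, explicitly -/
noncomputable def T : KFn K :=
  (A4 K).cls ⟨fun {R} _ _ x => algebraMap K R D.a * x.2.1 ^ 2 +
    D.A x.1 x.2.2.1 x.2.2.2 * x.2.1 + D.B x.1 x.2.2.1 x.2.2.2, fun f x => by
    simp only [A, B, map_add, map_sub, map_mul, map_pow, e2_map, AlgHom.commutes]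
    rfl⟩

theorem exists_c : ∃ c' : ℕ → ℕ → K, ∀ (R : Type) [CommRing R] [Algebra K R] (x z r : R),
    F4 c' x z r = D.H x z r := by
  let ii : Fin 2 → Fin 3 := ![0, 1]
  have hren : ∀ {d : ℕ} {P : MvPolynomial (Fin 2) K}, P.IsHomogeneous d →
      (rename ii P).IsHomogeneous d := fun h => h.rename_isHomogeneous
  have hev : ∀ (P : MvPolynomial (Fin 2) K) (R : Type) [CommRing R] [Algebra K R] (x z r : R),
      MvPolynomial.aeval ![x, z, r] (rename ii P) = e2 P x z := by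
    intro P R _ _ x z r
    unfold e2
    rw [MvPolynomial.aeval_rename]
    congr 2
    funext i
    fin_cases i <;> rfl
  have hXp : ∀ n, (X 2 ^ n : MvPolynomial (Fin 3) K).IsHomogeneous n := fun n =>
    MvPolynomial.isHomogeneous_X_pow 2 n
  have h1 : (X 2 ^ D.t * rename ii D.A₁ : MvPolynomial (Fin 3) K).IsHomogeneous 2 := by
    by_cases h : 4 - D.t < 2
    · rw [D.hA₁' h, map_zero, mul_zero]
      exact MvPolynomial.isHomogeneous_zero _ _ _
    · have := (hXp D.t).mul (hren D.hA₁)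
      rwa [show D.t + (4 - D.t - 2) = 2 by omega] at this
  have h2 : (X 2 ^ D.t * rename ii D.B₁ : MvPolynomial (Fin 3) K).IsHomogeneous 4 := by
    have := (hXp D.t).mul (hren D.hB₁)
    have h3 := D.hle
    have h4 := D.hs
    rwa [show D.t + (4 - D.t) = 4 by omega] at this
  have h3 : (C D.c * (X 2 ^ (D.s + D.t) * rename ii D.B₂) :
      MvPolynomial (Fin 3) K).IsHomogeneous 4 := by
    have := ((hXp (D.s + D.t)).mul (hren D.hB₂)).C_mul D.c
    have h3 := D.hle
    rwa [show D.s + D.t + (4 - (D.s + D.t)) = 4 by omega] at this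
  have hH : ((rename ii D.A₀ - X 2 ^ D.t * rename ii D.A₁) ^ 2 - C (4 * D.a) *
      (rename ii D.B₀ - X 2 ^ D.t * rename ii D.B₁ + C D.c * (X 2 ^ (D.s + D.t) *
        rename ii D.B₂)) : MvPolynomial (Fin 3) K).IsHomogeneous 4 := by
    refine MvPolynomial.IsHomogeneous.sub ?_ (MvPolynomial.IsHomogeneous.C_mul ?_ _)
    · have := ((hren D.hA₀).sub h1).pow 2
      simpa using this
    · exact ((hren D.hB₀).sub h2).add h3
  obtain ⟨c', hc'⟩ := Pool.Agent.Helper71.CQ.exists_F4 hH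
  refine ⟨c', fun R _ _ x z r => ?_⟩
  have h4 := hc' R ![x, z, r]
  refine h4.symm.trans ?_
  simp only [map_sub, map_add, map_mul, map_pow, hev, MvPolynomial.aeval_C, MvPolynomial.aeval_X,
    H, A, B, Matrix.cons_val, map_ofNat]
  ring

/-- completing the square -/
noncomputable def isoCV (h2 : (2 : K) ≠ 0) (ha : D.a ≠ 0) (c' : ℕ → ℕ → K)
    (hc' : ∀ (R : Type) [CommRing R] [Algebra K R] (x z r : R), F4 c' x z r = D.H x z r) :
    Iso D.T (CV c') where
  hom {R} _ _ x := ⟨(x.1.1, x.1.2.2.1, x.1.2.2.2,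
      2 * algebraMap K R D.a * x.1.2.1 + D.A x.1.1 x.1.2.2.1 x.1.2.2.2), by
    have h : algebraMap K R D.a * x.1.2.1 ^ 2 + D.A x.1.1 x.1.2.2.1 x.1.2.2.2 * x.1.2.1 +
      D.B x.1.1 x.1.2.2.1 x.1.2.2.2 = 0 := x.2
    change (2 * algebraMap K R D.a * x.1.2.1 + D.A x.1.1 x.1.2.2.1 x.1.2.2.2) ^ 2 -
      F4 c' x.1.1 x.1.2.2.1 x.1.2.2.2 = 0
    rw [hc', H]
    linear_combination 4 * algebraMap K R D.a * h⟩
  inv {R} _ _ y := ⟨(y.1.1, algebraMap K R (2 * D.a)⁻¹ * (y.1.2.2.2 - D.A y.1.1 y.1.2.1 y.1.2.2.1),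
      y.1.2.1, y.1.2.2.1), by
    have h : y.1.2.2.2 ^ 2 - F4 c' y.1.1 y.1.2.1 y.1.2.2.1 = 0 := y.2
    rw [hc', H] at h
    have h3 : algebraMap K R (2 * D.a) * algebraMap K R (2 * D.a)⁻¹ = 1 := by
      rw [← map_mul, mul_inv_cancel₀ (mul_ne_zero h2 ha), map_one]
    rw [map_mul, map_ofNat] at h3
    have h5 : algebraMap K R (4 * D.a)⁻¹ * (4 * algebraMap K R D.a) = 1 := by
      have h6 : (4 : K) * D.a ≠ 0 := by
        refine mul_ne_zero ?_ ha
        have : (4 : K) = 2 * 2 := by norm_num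
        rw [this]
        exact mul_ne_zero h2 h2
      rw [← map_ofNat (algebraMap K R) 4, ← map_mul, ← map_mul, inv_mul_cancel₀ h6, map_one]
    change algebraMap K R D.a * (algebraMap K R (2 * D.a)⁻¹ *
      (y.1.2.2.2 - D.A y.1.1 y.1.2.1 y.1.2.2.1)) ^ 2 + D.A y.1.1 y.1.2.1 y.1.2.2.1 *
      (algebraMap K R (2 * D.a)⁻¹ * (y.1.2.2.2 - D.A y.1.1 y.1.2.1 y.1.2.2.1)) +
      D.B y.1.1 y.1.2.1 y.1.2.2.1 = 0
    set i := algebraMap K R (2 * D.a)⁻¹
    set j := algebraMap K R (4 * D.a)⁻¹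
    set a := algebraMap K R D.a
    set Y := y.1.2.2.2
    set A := D.A y.1.1 y.1.2.1 y.1.2.2.1
    set B := D.B y.1.1 y.1.2.1 y.1.2.2.1
    -- multiply by `4 a`
    have key : 4 * a * (a * (i * (Y - A)) ^ 2 + A * (i * (Y - A)) + B) = 0 := by
      linear_combination h + ((Y - A) ^ 2 * (2 * a * i + 1) + 2 * A * (Y - A)) * h3
    calc a * (i * (Y - A)) ^ 2 + A * (i * (Y - A)) + B
        = j * (4 * a) * (a * (i * (Y - A)) ^ 2 + A * (i * (Y - A)) + B) := by rw [h5, one_mul]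
      _ = j * (4 * a * (a * (i * (Y - A)) ^ 2 + A * (i * (Y - A)) + B)) := by ring
      _ = 0 := by rw [key, mul_zero]⟩
  inv_hom {R} _ _ x := by
    have h3 : algebraMap K R (2 * D.a) * algebraMap K R (2 * D.a)⁻¹ = 1 := by
      rw [← map_mul, mul_inv_cancel₀ (mul_ne_zero h2 ha), map_one]
    rw [map_mul, map_ofNat] at h3
    refine Subtype.ext (Prod.ext rfl (Prod.ext ?_ rfl))
    change algebraMap K R (2 * D.a)⁻¹ * (2 * algebraMap K R D.a * x.1.2.1 +
      D.A x.1.1 x.1.2.2.1 x.1.2.2.2 - D.A x.1.1 x.1.2.2.1 x.1.2.2.2) = x.1.2.1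
    linear_combination x.1.2.1 * h3
  hom_inv {R} _ _ y := by
    have h3 : algebraMap K R (2 * D.a) * algebraMap K R (2 * D.a)⁻¹ = 1 := by
      rw [← map_mul, mul_inv_cancel₀ (mul_ne_zero h2 ha), map_one]
    rw [map_mul, map_ofNat] at h3
    refine Subtype.ext (Prod.ext rfl (Prod.ext rfl (Prod.ext rfl ?_)))
    change 2 * algebraMap K R D.a * (algebraMap K R (2 * D.a)⁻¹ *
      (y.1.2.2.2 - D.A y.1.1 y.1.2.1 y.1.2.2.1)) + D.A y.1.1 y.1.2.1 y.1.2.2.1 = y.1.2.2.2
    linear_combination (y.1.2.2.2 - D.A y.1.1 y.1.2.1 y.1.2.2.1) * h3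
  nat {R S} _ _ _ _ f x := by
    refine Subtype.ext (Prod.ext rfl (Prod.ext rfl (Prod.ext rfl ?_)))
    change f (2 * algebraMap K R D.a * x.1.2.1 + D.A x.1.1 x.1.2.2.1 x.1.2.2.2) =
      2 * algebraMap K S D.a * f x.1.2.1 + D.A (f x.1.1) (f x.1.2.2.1) (f x.1.2.2.2)
    rw [map_add, map_mul, map_mul, map_ofNat, AlgHom.commutes, D.A_map]

/-- an invariant direction which moves `r` -/
theorem mem_move (hG : GOps K G) (c' : ℕ → ℕ → K)
    (hc' : ∀ (R : Type) [CommRing R] [Algebra K R] (x z r : R), F4 c' x z r = D.H x z r)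
    (v : Fin 3 → K) (hv : v 2 ≠ 0) (hi : Inv c' v) (E : MvPolynomial (Fin 3) K)
    (hE : ∀ (R : Type) [CommRing R] [Algebra K R] (x y z : R),
      ev E x y z = y ^ 2 - D.H x z 0) (hmem : ((A3 K).cls (g3 E)).Mem G) : (CV c').Mem G := by
  refine Mem.of_iso (F' := ((A3 K).cls (g3 E)).line) ?_ (Mem.line hG.toKOps hmem)
  have hinv : ∀ (R : Type) [CommRing R] [Algebra K R] (x z r t : R),
      F4 c' (x + t * algebraMap K R (v 0 * (v 2)⁻¹)) (z + t * algebraMap K R (v 1 * (v 2)⁻¹))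
        (r + t) = F4 c' x z r := by
    intro R _ _ x z r t
    have h1 := hi R x z r (t * algebraMap K R (v 2)⁻¹)
    have h3 : algebraMap K R (v 2)⁻¹ * algebraMap K R (v 2) = 1 := by
      rw [← map_mul, inv_mul_cancel₀ hv, map_one]
    rw [← h1]
    congr 1
    · rw [map_mul]
      ring
    · rw [map_mul]
      ring
    · linear_combination (-t) * h3
  exact
    { hom := fun {R} _ _ x => (⟨(x.1.1 + (-x.1.2.2.1) * algebraMap K R (v 0 * (v 2)⁻¹),
        x.1.2.2.2, x.1.2.1 + (-x.1.2.2.1) * algebraMap K R (v 1 * (v 2)⁻¹)), by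
          have h : x.1.2.2.2 ^ 2 - F4 c' x.1.1 x.1.2.1 x.1.2.2.1 = 0 := x.2
          have h1 := hinv R x.1.1 x.1.2.1 x.1.2.2.1 (-x.1.2.2.1)
          rw [add_neg_cancel] at h1
          change ev E (x.1.1 + (-x.1.2.2.1) * algebraMap K R (v 0 * (v 2)⁻¹)) x.1.2.2.2
            (x.1.2.1 + (-x.1.2.2.1) * algebraMap K R (v 1 * (v 2)⁻¹)) = 0
          rw [hE, ← hc', h1]
          exact h⟩, x.1.2.2.1)
      inv := fun {R} _ _ y => ⟨(y.1.1.1 + y.2 * algebraMap K R (v 0 * (v 2)⁻¹),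
        y.1.1.2.2 + y.2 * algebraMap K R (v 1 * (v 2)⁻¹), y.2, y.1.1.2.1), by
          have h : ev E y.1.1.1 y.1.1.2.1 y.1.1.2.2 = 0 := y.1.2
          rw [hE, ← hc'] at h
          have h1 := hinv R y.1.1.1 y.1.1.2.2 0 y.2
          rw [zero_add] at h1
          change y.1.1.2.1 ^ 2 - F4 c' (y.1.1.1 + y.2 * algebraMap K R (v 0 * (v 2)⁻¹))
            (y.1.1.2.2 + y.2 * algebraMap K R (v 1 * (v 2)⁻¹)) y.2 = 0
          rw [h1]
          exact h⟩
      inv_hom := fun {R} _ _ x => by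
        refine Subtype.ext (Prod.ext ?_ (Prod.ext ?_ rfl))
        · change x.1.1 + (-x.1.2.2.1) * algebraMap K R (v 0 * (v 2)⁻¹) +
            x.1.2.2.1 * algebraMap K R (v 0 * (v 2)⁻¹) = x.1.1
          ring
        · change x.1.2.1 + (-x.1.2.2.1) * algebraMap K R (v 1 * (v 2)⁻¹) +
            x.1.2.2.1 * algebraMap K R (v 1 * (v 2)⁻¹) = x.1.2.1
          ring
      hom_inv := fun {R} _ _ y => by
        refine Prod.ext (Subtype.ext (Prod.ext ?_ (Prod.ext rfl ?_))) rfl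
        · change y.1.1.1 + y.2 * algebraMap K R (v 0 * (v 2)⁻¹) +
            (-y.2) * algebraMap K R (v 0 * (v 2)⁻¹) = y.1.1.1
          ring
        · change y.1.1.2.2 + y.2 * algebraMap K R (v 1 * (v 2)⁻¹) +
            (-y.2) * algebraMap K R (v 1 * (v 2)⁻¹) = y.1.1.2.2
          ring
      nat := fun {R S} _ _ _ _ f x => by
        refine Prod.ext (Subtype.ext (Prod.ext ?_ (Prod.ext rfl ?_))) rfl
        · change f (x.1.1 + (-x.1.2.2.1) * algebraMap K R (v 0 * (v 2)⁻¹)) =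
            f x.1.1 + (-f x.1.2.2.1) * algebraMap K S (v 0 * (v 2)⁻¹)
          rw [map_add, map_mul, map_neg, AlgHom.commutes]
        · change f (x.1.2.1 + (-x.1.2.2.1) * algebraMap K R (v 1 * (v 2)⁻¹)) =
            f x.1.2.1 + (-f x.1.2.2.1) * algebraMap K S (v 1 * (v 2)⁻¹)
          rw [map_add, map_mul, map_neg, AlgHom.commutes] }

/-- an invariant direction which does not move `r`: the coefficients are invariant -/
theorem inv_coeff (c' : ℕ → ℕ → K)
    (hc' : ∀ (R : Type) [CommRing R] [Algebra K R] (x z r : R), F4 c' x z r = D.H x z r)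
    (v : Fin 3 → K) (hv : v 2 = 0) (hi : Inv c' v) (R : Type) [CommRing R] [Algebra K R]
    (x z t : R) :
    (e2 D.A₀ (x + t * algebraMap K R (v 0)) (z + t * algebraMap K R (v 1)) ^ 2 -
      4 * algebraMap K R D.a * e2 D.B₀ (x + t * algebraMap K R (v 0))
        (z + t * algebraMap K R (v 1)) =
      e2 D.A₀ x z ^ 2 - 4 * algebraMap K R D.a * e2 D.B₀ x z) ∧
    (4 * algebraMap K R D.a * e2 D.B₁ (x + t * algebraMap K R (v 0))
        (z + t * algebraMap K R (v 1)) -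
      2 * e2 D.A₀ (x + t * algebraMap K R (v 0)) (z + t * algebraMap K R (v 1)) *
        e2 D.A₁ (x + t * algebraMap K R (v 0)) (z + t * algebraMap K R (v 1)) =
      4 * algebraMap K R D.a * e2 D.B₁ x z - 2 * e2 D.A₀ x z * e2 D.A₁ x z) ∧
    (e2 D.A₁ (x + t * algebraMap K R (v 0)) (z + t * algebraMap K R (v 1)) ^ 2 =
      e2 D.A₁ x z ^ 2) ∧
    (4 * algebraMap K R D.a * algebraMap K R D.c * e2 D.B₂ (x + t * algebraMap K R (v 0))
        (z + t * algebraMap K R (v 1)) =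
      4 * algebraMap K R D.a * algebraMap K R D.c * e2 D.B₂ x z) := by
  let ι : R →ₐ[K] Polynomial R := IsScalarTower.toAlgHom K R (Polynomial R)
  have hι : ∀ y : R, ι y = Polynomial.C y := fun _ => rfl
  have hal : ∀ y : K, algebraMap K (Polynomial R) y = Polynomial.C (algebraMap K R y) :=
    fun _ => rfl
  have h1 := hi (Polynomial R) (ι x) (ι z) Polynomial.X (ι t)
  rw [hv, map_zero, mul_zero, add_zero, hc', hc'] at h1
  have e0 : ι x + ι t * algebraMap K (Polynomial R) (v 0) =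
      ι (x + t * algebraMap K R (v 0)) := by
    rw [map_add, map_mul, AlgHom.commutes]
  have e1 : ι z + ι t * algebraMap K (Polynomial R) (v 1) =
      ι (z + t * algebraMap K R (v 1)) := by
    rw [map_add, map_mul, AlgHom.commutes]
  rw [e0, e1] at h1
  have h3 : ∀ x z : R, D.H (ι x) (ι z) Polynomial.X =
      Polynomial.C (e2 D.A₀ x z ^ 2 - 4 * algebraMap K R D.a * e2 D.B₀ x z) +
      Polynomial.C (4 * algebraMap K R D.a * e2 D.B₁ x z - 2 * e2 D.A₀ x z * e2 D.A₁ x z) *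
        Polynomial.X ^ D.t + Polynomial.C (e2 D.A₁ x z ^ 2) * Polynomial.X ^ (2 * D.t) -
      Polynomial.C (4 * algebraMap K R D.a * algebraMap K R D.c * e2 D.B₂ x z) *
        Polynomial.X ^ (D.s + D.t) := by
    intro x z
    have hm : ∀ P : MvPolynomial (Fin 2) K, e2 P (ι x) (ι z) = Polynomial.C (e2 P x z) :=
      fun P => (e2_map P ι x z).symm
    simp only [H, A, B, hm, hal, map_sub, map_mul, map_pow]
    have h4 : (Polynomial.C (4 : R) : Polynomial R) = 4 := map_ofNat _ 4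
    have h5 : (Polynomial.C (2 : R) : Polynomial R) = 2 := map_ofNat _ 2
    rw [h4, h5]
    ring
  rw [h3, h3] at h1
  exact cmp D.hs D.ht D.hst h1

end Dat

end Pool.Agent.Helper79.TP
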